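import Pool.Agent.H46.OE.Len

/-!
# OE.Blo : the blow-ups of a valid template (about 110 lines)

`oe_blow`: `even` and `max` from `Valid` and `isLCycle_iff`. `run`: let `s` be a non-empty list of non-hubs of `blow G c M`, `PI` between two different hubs `x, y`. All members of `s` have the same second component (consecutive members are adjacent and not hubs), so `s.map fun u => u.1.1` has no repetition and is a `PI` of `G` between `x.1.1 ≠ y.1.1`
(hubs have second component `0`); `twin_mem` gives `2 * (s.length + 1) ∈ L`. `oe_self`: the same without the blow-up (`mem_of_cyc`). `dc_lift`: `cyc_lift`, `lf_fst`; all counts are the same because `c (lf c M i v).1.1 = c v`.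
-/

namespace H46.OE

open Pool.Agent.H3.LC H46.CY H46.CZ

variable {V : Type} {L : Finset ℕ} {G : SimpleGraph V} {c : V → ℕ} {l k d m : ℕ} {f : ZMod m → V}

private theorem Blo_snd {M : ℕ} (t : List (BV c M)) :
    ∀ a : BV c M, (a :: t).IsChain (blow G c M).Adj → (∀ v ∈ a :: t, c v.1.1 ≠ 0) →
      ∀ v ∈ a :: t, v.1.2 = a.1.2 := by
  induction t with
  | nil =>
    intro a _ _ v hv
    rw [List.mem_singleton] at hv
    rw [hv]
  | cons b t ih =>
    intro a hc hh v hv
    rw [List.isChain_cons_cons] at hc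
    rcases List.mem_cons.1 hv with rfl | hv
    · rfl
    · rw [ih b hc.2 (fun w hw => hh w (List.mem_cons_of_mem _ hw)) v hv]
      exact (hc.1.2 (hh a List.mem_cons_self)
        (hh b (List.mem_cons_of_mem _ List.mem_cons_self))).symm

private theorem Blo_pi {M : ℕ} {x y : BV c M} {s : List (BV c M)} (hx : c x.1.1 = 0)
    (hy : c y.1.1 = 0) (hs : PI (blow G c M) x y s) (hc : ∀ v ∈ s, c v.1.1 ≠ 0) :
    PI G x.1.1 y.1.1 (s.map fun u => u.1.1) := by
  obtain ⟨h1, h2, h3, h4⟩ := hs
  refine ⟨?_, ?_, ?_, ?_⟩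
  · have e : x.1.1 :: ((s.map fun u => u.1.1) ++ [y.1.1]) =
        (x :: (s ++ [y])).map fun u => u.1.1 := by simp
    rw [e, List.isChain_map]
    exact h1.imp fun u v huv => huv.1
  · cases s with
    | nil => simp
    | cons a t =>
      have hch : (a :: t).IsChain (blow G c M).Adj := by
        have e : x :: (a :: t ++ [y]) = [x] ++ (a :: t) ++ [y] := by simp
        rw [e] at h1
        exact (h1.left_of_append).right_of_append
      refine List.Nodup.map_on (fun u hu v hv huv => ?_) h2
      exact Subtype.ext (Prod.ext huv ((Blo_snd t a hch hc u hu).trans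
        (Blo_snd t a hch hc v hv).symm))
  · intro h
    obtain ⟨v, hv, hvx⟩ := List.mem_map.1 h
    exact hc v hv (by rw [hvx]; exact hx)
  · intro h
    obtain ⟨v, hv, hvy⟩ := List.mem_map.1 h
    exact hc v hv (by rw [hvy]; exact hy)

theorem oe_blow (hV : Valid L G c) (hev : ∀ x ∈ L, Even x → x = 2 * l) (hmax : ∀ x ∈ L, x ≤ k)
    (M : ℕ) : OE (blow G c M) (fun x : BV c M => c x.1.1) l k := by
  have h := hV.2 M
  rw [isLCycle_iff] at h
  refine ⟨?_, fun m f hm hf he => hev m (h m f hm hf) he, fun m f hm hf => hmax m (h m f hm hf)⟩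
  intro x y s hxy hx hy hs hne hc
  have hxy' : x.1.1 ≠ y.1.1 := fun e =>
    hxy (Subtype.ext (Prod.ext e ((x.2 hx).trans (y.2 hy).symm)))
  have h1 := twin_mem hV hxy' hx hy (Blo_pi hx hy hs hc)
    (fun e => hne (List.map_eq_nil_iff.1 e)) (fun v hv => by
      obtain ⟨u, hu, rfl⟩ := List.mem_map.1 hv
      exact hc u hu)
  have h2 := hev _ h1 ⟨_, by rw [two_mul]⟩
  rw [List.length_map] at h2
  omega

theorem oe_self (hV : Valid L G c) (hev : ∀ x ∈ L, Even x → x = 2 * l) (hmax : ∀ x ∈ L, x ≤ k) :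
    OE G c l k := by
  refine ⟨?_, fun m f hm hf he => hev m (mem_of_cyc hV hm hf) he,
    fun m f hm hf => hmax m (mem_of_cyc hV hm hf)⟩
  intro x y s hxy hx hy hs hne hc
  have h1 := twin_mem hV hxy hx hy hs hne hc
  have h2 := hev _ h1 ⟨_, by rw [two_mul]⟩
  omega

theorem dc_lift (hf : DC G c d f) {M : ℕ} (i : Fin (M + 1)) :
    DC (blow G c M) (fun x : BV c M => c x.1.1) d fun j => lf c M i (f j) := by
  refine ⟨hf.three, cyc_lift hf.cyc i, ?_, ?_⟩
  · rw [← hf.num]
    unfold rn
    simp only [lf_fst]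
  · obtain ⟨a, b, h1, h2, h3, h4⟩ := hf.two
    refine ⟨a, b, h1, h2, ?_, ?_⟩
    · simp only [lf_fst]
      exact h3
    · simp only [lf_fst]
      exact h4

end H46.OE
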