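import Mathlib

/-!
# OE.Cmb : a counting lemma (about 120 lines)

Let `𝓑` be the set of the images `E.image cl`, `E ∈ 𝓔`. Two different members of `𝓑` are disjoint (`hcls`). For `b ∈ 𝓑` (`b.card = d`, by `hinj`) the members `E` of `𝓔` with `E.image cl = b` are determined by the choice of one element of class `κ` for every `κ ∈ b`: their number is at most `∏ κ ∈ b, n κ`, `n κ` = number of `r` with `cl r = κ` (map `E` to the function in
`Finset.pi b` or: the number of such `E` is at most the number of functions `b → R` with `cl (φ κ) = κ`, `Fintype.card_pi`/`Finset.card_pi`). By the inequality of the means (`Real.inner_le_nnorm`... simply `Real.geom_mean_le_arith_mean_weighted` or `inner_le`; over ℕ: `Finset.prod_le_pow_card`-like; in ℝ: `(∏ n κ) ≤ ((∑ n κ) / d) ^ d`) this is at most `(N b / d) ^ d` with `N b = ∑ κ ∈ b, n κ`,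
the number of `r` with class in `b`. Sum over `b ∈ 𝓑`: `∑ (N b) ^ d ≤ (∑ N b) ^ d ≤ |R| ^ d` (the `N b` are numbers of elements of disjoint sets).
-/

namespace H46.OE

private theorem cmb_amgm {K : Type} (b : Finset K) (f : K → ℕ) {d : ℕ} (hd : 1 ≤ d)
    (hb : b.card = d) : (∏ κ ∈ b, f κ) * d ^ d ≤ (∑ κ ∈ b, f κ) ^ d := by
  have hd0 : (0 : ℝ) < d := by exact_mod_cast hd
  have h := Real.geom_mean_le_arith_mean_weighted b (fun _ => (1 : ℝ) / d) (fun κ => (f κ : ℝ))
    (fun i _ => by positivity) (by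
      rw [Finset.sum_const, hb, nsmul_eq_mul]
      field_simp) (fun i _ => by positivity)
  have h1 : (∏ i ∈ b, ((f i : ℝ)) ^ ((1 : ℝ) / d)) = (∏ i ∈ b, (f i : ℝ)) ^ ((1 : ℝ) / d) :=
    Real.finsetProd_rpow b (fun i => (f i : ℝ)) (fun i _ => by positivity) _
  rw [h1, ← Finset.mul_sum] at h
  have h2 : ((∏ i ∈ b, (f i : ℝ)) ^ ((1 : ℝ) / d)) ^ d ≤ (1 / (d : ℝ) * ∑ i ∈ b, (f i : ℝ)) ^ d :=
    pow_le_pow_left₀ (Real.rpow_nonneg (Finset.prod_nonneg fun i _ => by positivity) _) h d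
  have h3 : ((∏ i ∈ b, (f i : ℝ)) ^ ((1 : ℝ) / d)) ^ d = ∏ i ∈ b, (f i : ℝ) := by
    rw [← Real.rpow_natCast, ← Real.rpow_mul (Finset.prod_nonneg fun i _ => by positivity)]
    rw [one_div, inv_mul_cancel₀ (ne_of_gt hd0), Real.rpow_one]
  rw [h3, mul_pow, one_div, inv_pow] at h2
  have h4 : (∏ i ∈ b, (f i : ℝ)) * (d : ℝ) ^ d ≤ (∑ i ∈ b, (f i : ℝ)) ^ d := by
    have hp : (0 : ℝ) < (d : ℝ) ^ d := by positivity
    calc (∏ i ∈ b, (f i : ℝ)) * (d : ℝ) ^ d
        ≤ (((d : ℝ) ^ d)⁻¹ * (∑ i ∈ b, (f i : ℝ)) ^ d) * (d : ℝ) ^ d :=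
          mul_le_mul_of_nonneg_right h2 hp.le
      _ = (∑ i ∈ b, (f i : ℝ)) ^ d := by
          field_simp
  exact_mod_cast h4

private theorem cmb_fib {R K : Type} [Fintype R] [DecidableEq R] [DecidableEq K] (cl : R → K)
    (𝓕 : Finset (Finset R)) (b : Finset K) (hinj : ∀ E ∈ 𝓕, Set.InjOn cl E)
    (him : ∀ E ∈ 𝓕, E.image cl = b) :
    𝓕.card ≤ ∏ κ ∈ b, (Finset.univ.filter fun r => cl r = κ).card := by
  classical
  rw [← Finset.card_pi]
  let F : (∀ κ ∈ b, R) → Finset R := fun φ => b.attach.image (fun κ => φ κ.1 κ.2)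
  have hsub : 𝓕 ⊆ (b.pi fun κ => Finset.univ.filter fun r => cl r = κ).image F := by
    intro E hE
    have hex : ∀ κ ∈ b, ∃ r ∈ E, cl r = κ := by
      intro κ hκ
      rw [← him E hE, Finset.mem_image] at hκ
      exact hκ
    choose φ hφE hφc using hex
    rw [Finset.mem_image]
    refine ⟨φ, ?_, ?_⟩
    · rw [Finset.mem_pi]
      intro κ hκ
      simp [hφc κ hκ]
    · ext r
      simp only [F, Finset.mem_image, Finset.mem_attach, true_and, Subtype.exists]
      constructor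
      · rintro ⟨κ, hκ, rfl⟩
        exact hφE κ hκ
      · intro hr
        have hκ : cl r ∈ b := by
          rw [← him E hE]
          exact Finset.mem_image_of_mem cl hr
        exact ⟨cl r, hκ, hinj E hE (hφE _ hκ) hr (hφc _ hκ)⟩
  exact (Finset.card_le_card hsub).trans Finset.card_image_le

theorem family_bound {R K : Type} [Fintype R] [DecidableEq R] [DecidableEq K] (cl : R → K) {d : ℕ}
    (hd : 1 ≤ d) (𝓔 : Finset (Finset R)) (hcard : ∀ E ∈ 𝓔, E.card = d)
    (hinj : ∀ E ∈ 𝓔, Set.InjOn cl E)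
    (hcls : ∀ E ∈ 𝓔, ∀ E' ∈ 𝓔, (∃ r ∈ E, ∃ r' ∈ E', cl r = cl r') → E.image cl = E'.image cl) :
    𝓔.card * d ^ d ≤ Fintype.card R ^ d := by
  classical
  set 𝓑 : Finset (Finset K) := 𝓔.image (fun E => E.image cl) with h𝓑
  let N : Finset K → ℕ := fun b => ∑ κ ∈ b, (Finset.univ.filter fun r => cl r = κ).card
  have hN : ∀ b : Finset K, N b = (Finset.univ.filter fun r => cl r ∈ b).card := by
    intro b
    have := Finset.card_eq_sum_card_fiberwise (f := cl) (s := Finset.univ.filter fun r => cl r ∈ b)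
      (t := b) (by
        intro r hr
        simpa using hr)
    rw [this]
    apply Finset.sum_congr rfl
    intro κ hκ
    congr 1
    ext r
    simp only [Finset.mem_filter, Finset.mem_univ, true_and]
    constructor
    · intro h
      exact ⟨h ▸ hκ, h⟩
    · intro h
      exact h.2
  have hbcard : ∀ b ∈ 𝓑, b.card = d := by
    intro b hb
    rw [h𝓑, Finset.mem_image] at hb
    obtain ⟨E, hE, rfl⟩ := hb
    rw [Finset.card_image_of_injOn (hinj E hE), hcard E hE]
  have hfib : ∀ b ∈ 𝓑, (𝓔.filter fun E => E.image cl = b).card * d ^ d ≤ N b ^ d := by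
    intro b hb
    refine le_trans (Nat.mul_le_mul_right _ (cmb_fib cl _ b ?_ ?_)) (cmb_amgm b _ hd (hbcard b hb))
    · intro E hE
      exact hinj E (Finset.mem_filter.mp hE).1
    · intro E hE
      exact (Finset.mem_filter.mp hE).2
  have hdisj : ∀ b ∈ 𝓑, ∀ b' ∈ 𝓑, b ≠ b' → Disjoint (Finset.univ.filter fun r => cl r ∈ b)
      (Finset.univ.filter fun r => cl r ∈ b') := by
    intro b hb b' hb' hne
    rw [Finset.disjoint_left]
    intro r hr hr'
    apply hne
    rw [h𝓑, Finset.mem_image] at hb hb'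
    obtain ⟨E, hE, rfl⟩ := hb
    obtain ⟨E', hE', rfl⟩ := hb'
    simp only [Finset.mem_filter, Finset.mem_univ, true_and, Finset.mem_image] at hr hr'
    obtain ⟨e, he, he2⟩ := hr
    obtain ⟨e', he', he2'⟩ := hr'
    exact hcls E hE E' hE' ⟨e, he, e', he', he2.trans he2'.symm⟩
  have hsumN : ∑ b ∈ 𝓑, N b ≤ Fintype.card R := by
    calc ∑ b ∈ 𝓑, N b = ∑ b ∈ 𝓑, (Finset.univ.filter fun r => cl r ∈ b).card :=
          Finset.sum_congr rfl fun b _ => hN b
      _ = (𝓑.biUnion fun b => Finset.univ.filter fun r => cl r ∈ b).card :=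
          (Finset.card_biUnion hdisj).symm
      _ ≤ Fintype.card R := Finset.card_le_univ _
  have hpow : ∀ b ∈ 𝓑, N b ^ d ≤ N b * (∑ b ∈ 𝓑, N b) ^ (d - 1) := by
    intro b hb
    have hle : N b ≤ ∑ b ∈ 𝓑, N b := Finset.single_le_sum (f := N) (fun _ _ => Nat.zero_le _) hb
    calc N b ^ d = N b * N b ^ (d - 1) := by
          rw [← pow_succ']
          congr 1
          omega
      _ ≤ N b * (∑ b ∈ 𝓑, N b) ^ (d - 1) := Nat.mul_le_mul_left _ (Nat.pow_le_pow_left hle _)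
  have hcount : 𝓔.card = ∑ b ∈ 𝓑, (𝓔.filter fun E => E.image cl = b).card :=
    Finset.card_eq_sum_card_fiberwise fun E hE => Finset.mem_image_of_mem _ hE
  calc 𝓔.card * d ^ d = ∑ b ∈ 𝓑, (𝓔.filter fun E => E.image cl = b).card * d ^ d := by
        rw [hcount, Finset.sum_mul]
    _ ≤ ∑ b ∈ 𝓑, N b ^ d := Finset.sum_le_sum hfib
    _ ≤ ∑ b ∈ 𝓑, N b * (∑ b ∈ 𝓑, N b) ^ (d - 1) := Finset.sum_le_sum hpow
    _ = (∑ b ∈ 𝓑, N b) ^ d := by
        rw [← Finset.sum_mul, ← pow_succ']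
        congr 1
        omega
    _ ≤ Fintype.card R ^ d := Nat.pow_le_pow_left hsumN d

end H46.OE
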