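import Pool.Agent.H46.OE.Seg

/-!
# OE.Cnt : counting runs and edges between hubs
-/

namespace H46.OE

open Pool.Agent.H3.LC H46.CY H46.CZ

variable {V : Type} {c : V → ℕ} {m : ℕ} {f : ZMod m → V}

/-- positions in `[a, b)` with a property -/
private def cn (P : ℕ → Prop) [DecidablePred P] (a b : ℕ) : ℕ := ((Finset.Ico a b).filter P).card

private theorem cn_add (P : ℕ → Prop) [DecidablePred P] {a b e : ℕ} (hab : a ≤ b) (hbe : b ≤ e) :
    cn P a b + cn P b e = cn P a e := by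
  unfold cn
  rw [← Finset.Ico_union_Ico_eq_Ico hab hbe, Finset.filter_union, Finset.card_union_of_disjoint]
  refine Finset.disjoint_filter_filter (Finset.Ico_disjoint_Ico_consecutive a b e)

private theorem cn_shift (P Q : ℕ → Prop) [DecidablePred P] [DecidablePred Q] (t a b : ℕ)
    (h : ∀ j, a ≤ j → j < b → (P j ↔ Q (t + j))) : cn P a b = cn Q (t + a) (t + b) := by
  unfold cn
  refine Finset.card_bij (fun j _ => t + j) ?_ ?_ ?_
  · intro j hj
    rw [Finset.mem_filter, Finset.mem_Ico] at hj ⊢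
    exact ⟨⟨by omega, by omega⟩, (h j hj.1.1 hj.1.2).1 hj.2⟩
  · intro i _ j _ hij
    have h1 : t + i = t + j := hij
    omega
  · intro j hj
    rw [Finset.mem_filter, Finset.mem_Ico] at hj
    obtain ⟨⟨h1, h2⟩, h3⟩ := hj
    refine ⟨j - t, ?_, by omega⟩
    rw [Finset.mem_filter, Finset.mem_Ico]
    refine ⟨⟨by omega, by omega⟩, (h (j - t) (by omega) (by omega)).2 ?_⟩
    rwa [show t + (j - t) = j by omega]

private theorem cn_per (P : ℕ → Prop) [DecidablePred P] (m : ℕ) (h : ∀ j, P j ↔ P (m + j)) (a : ℕ) :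
    cn P a (a + m) = cn P 0 m := by
  have h1 := cn_add P (a := 0) (b := a) (e := a + m) (by omega) (by omega)
  have h2 := cn_add P (a := 0) (b := m) (e := a + m) (by omega) (by omega)
  have h3 := cn_shift P P m 0 a (fun j _ _ => h j)
  rw [add_zero, add_comm m a] at h3
  omega

private def pr (c : V → ℕ) (f : ZMod m → V) (j : ℕ) : Prop :=
  c (f (j : ZMod m)) = 0 ∧ c (f ((j + 1 : ℕ) : ZMod m)) ≠ 0

private def ph (c : V → ℕ) (f : ZMod m → V) (j : ℕ) : Prop :=
  c (f (j : ZMod m)) = 0 ∧ c (f ((j + 1 : ℕ) : ZMod m)) = 0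

private instance : DecidablePred (pr c f) := fun _ => inferInstanceAs (Decidable (_ ∧ _))
private instance : DecidablePred (ph c f) := fun _ => inferInstanceAs (Decidable (_ ∧ _))

private theorem rn_eq (a b : ℕ) : rn c f a b = cn (pr c f) a b := rfl
private theorem hn_eq (a b : ℕ) : hn c f a b = cn (ph c f) a b := rfl

private theorem pr_per (j : ℕ) : pr c f j ↔ pr c f (m + j) := by
  unfold pr
  rw [show m + j + 1 = j + 1 + m by ring, show m + j = j + m by ring, cast_per f, cast_per f]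

private theorem ph_per (j : ℕ) : ph c f j ↔ ph c f (m + j) := by
  unfold ph
  rw [show m + j + 1 = j + 1 + m by ring, show m + j = j + m by ring, cast_per f, cast_per f]

theorem rn_add {a b e : ℕ} (hab : a ≤ b) (hbe : b ≤ e) : rn c f a b + rn c f b e = rn c f a e :=
  cn_add (pr c f) hab hbe

theorem hn_add {a b e : ℕ} (hab : a ≤ b) (hbe : b ≤ e) : hn c f a b + hn c f b e = hn c f a e :=
  cn_add (ph c f) hab hbe

theorem rn_shift (a b : ℕ) : rn c f (a + m) (b + m) = rn c f a b := by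
  rw [rn_eq, rn_eq, cn_shift (pr c f) (pr c f) m a b (fun j _ _ => pr_per j), add_comm m a,
    add_comm m b]

theorem hn_shift (a b : ℕ) : hn c f (a + m) (b + m) = hn c f a b := by
  rw [hn_eq, hn_eq, cn_shift (ph c f) (ph c f) m a b (fun j _ _ => ph_per j), add_comm m a,
    add_comm m b]

theorem rn_per (a : ℕ) : rn c f a (a + m) = rn c f 0 m := cn_per (pr c f) m pr_per a

theorem hn_per (a : ℕ) : hn c f a (a + m) = hn c f 0 m := cn_per (ph c f) m ph_per a

theorem rn_pos {a b j : ℕ} (haj : a ≤ j) (hjb : j < b) (h0 : c (f (j : ZMod m)) = 0)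
    (h1 : c (f ((j + 1 : ℕ) : ZMod m)) ≠ 0) : 1 ≤ rn c f a b := by
  unfold rn
  rw [Nat.one_le_iff_ne_zero, ← Nat.pos_iff_ne_zero, Finset.card_pos]
  exact ⟨j, Finset.mem_filter.2 ⟨Finset.mem_Ico.2 ⟨haj, hjb⟩, h0, h1⟩⟩

theorem exists_of_rn {a b : ℕ} (h : 1 ≤ rn c f a b) : ∃ j, a ≤ j ∧ j < b ∧
    c (f (j : ZMod m)) = 0 ∧ c (f ((j + 1 : ℕ) : ZMod m)) ≠ 0 := by
  unfold rn at h
  rw [Nat.one_le_iff_ne_zero, ← Nat.pos_iff_ne_zero, Finset.card_pos] at h
  obtain ⟨j, hj⟩ := h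
  rw [Finset.mem_filter, Finset.mem_Ico] at hj
  exact ⟨j, hj.1.1, hj.1.2, hj.2.1, hj.2.2⟩

theorem rn_one_unique {a b i j : ℕ} (h : rn c f a b = 1) (hi : a ≤ i) (hib : i < b) (hj : a ≤ j)
    (hjb : j < b) (hi0 : c (f (i : ZMod m)) = 0) (hi1 : c (f ((i + 1 : ℕ) : ZMod m)) ≠ 0)
    (hj0 : c (f (j : ZMod m)) = 0) (hj1 : c (f ((j + 1 : ℕ) : ZMod m)) ≠ 0) : i = j := by
  unfold rn at h
  have h1 := Finset.card_le_one.1 h.le
  exact h1 i (Finset.mem_filter.2 ⟨Finset.mem_Ico.2 ⟨hi, hib⟩, hi0, hi1⟩) j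
    (Finset.mem_filter.2 ⟨Finset.mem_Ico.2 ⟨hj, hjb⟩, hj0, hj1⟩)

theorem hub_of_rn_zero {a b : ℕ} (h : rn c f a b = 0) (ha : c (f (a : ZMod m)) = 0) :
    ∀ j, a ≤ j → j ≤ b → c (f (j : ZMod m)) = 0 := by
  intro j hj
  induction j, hj using Nat.le_induction with
  | base => intro _; exact ha
  | succ j hj ih =>
    intro hb
    by_contra hc
    have := rn_pos (c := c) (f := f) (a := a) (b := b) hj (by omega) (ih (by omega)) hc
    omega

theorem hn_eq_len {a b : ℕ} (h : ∀ j, a ≤ j → j ≤ b → c (f (j : ZMod m)) = 0) :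
    hn c f a b = b - a ∧ rn c f a b = 0 := by
  constructor
  · unfold hn
    rw [Finset.filter_true_of_mem, Nat.card_Ico]
    intro j hj
    rw [Finset.mem_Ico] at hj
    exact ⟨h j hj.1 (by omega), h (j + 1) (by omega) (by omega)⟩
  · by_contra hc
    obtain ⟨j, h1, h2, h3, h4⟩ := exists_of_rn (c := c) (f := f) (Nat.one_le_iff_ne_zero.2 hc)
    exact h4 (h (j + 1) (by omega) (by omega))

theorem hn_le {a b : ℕ} (hab : a ≤ b) (hb : b ≤ a + m) : hn c f a b ≤ hn c f 0 m := by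
  have h1 := hn_add (c := c) (f := f) hab hb
  have h2 := hn_per (c := c) (f := f) a
  omega

theorem rn_le {a b : ℕ} (hab : a ≤ b) (hb : b ≤ a + m) : rn c f a b ≤ rn c f 0 m := by
  have h1 := rn_add (c := c) (f := f) hab hb
  have h2 := rn_per (c := c) (f := f) a
  omega

theorem rn_congr {V' : Type} {c' : V' → ℕ} {m' : ℕ} {g : ZMod m' → V'} {a b t : ℕ}
    (h : ∀ j, a ≤ j → j ≤ b → c (f (j : ZMod m)) = c' (g ((t + j : ℕ) : ZMod m'))) :
    rn c f a b = rn c' g (t + a) (t + b) := by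
  rw [rn_eq, rn_eq]
  refine cn_shift _ _ t a b fun j h1 h2 => ?_
  unfold pr
  rw [h j h1 (by omega), h (j + 1) (by omega) (by omega), ← add_assoc]

theorem hn_congr {V' : Type} {c' : V' → ℕ} {m' : ℕ} {g : ZMod m' → V'} {a b t : ℕ}
    (h : ∀ j, a ≤ j → j ≤ b → c (f (j : ZMod m)) = c' (g ((t + j : ℕ) : ZMod m'))) :
    hn c f a b = hn c' g (t + a) (t + b) := by
  rw [hn_eq, hn_eq]
  refine cn_shift _ _ t a b fun j h1 h2 => ?_
  unfold ph
  rw [h j h1 (by omega), h (j + 1) (by omega) (by omega), ← add_assoc]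

end H46.OE
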