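import Pool.Agent.H46.OE.Blo

/-!
# OE.Dcy : the cycles which meet at least d pieces have exactly d runs (about 130 lines)

`mem_cycles_iff`: `E = cedges f`, `3 ≤ m`. Two different hubs: if there is at most one position with a hub then all other vertices have the same colour (`Compat`, consecutive non-hubs have equal colours; start after the hub), so at most one colour `≠ 0` is met, but `d ≥ 2` (see `exists_hub` in CZ.StrB). For every colour `i ≠ 0` met there is a run start `j` in `[0, m)` with `c (f (j + 1)) = i`: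
go back from a vertex of colour `i` to the previous hub (all vertices in between have colour `i`). So the set of colours is contained in the image of the set of run starts, `d ≤ rn c f 0 m`; `len_tot` and `hmax`, `hk`: `l * rn ≤ m ≤ k < (d + 1) l`, so `rn ≤ d`.
-/

namespace H46.OE

open Pool.Agent.H3.LC H46.CY H46.CZ

variable {V : Type} {L : Finset ℕ} {G : SimpleGraph V} {c : V → ℕ} {l k d : ℕ}

private theorem mem_edge_range {m : ℕ} (f : ZMod m → V) {v : V}
    (h : ∃ e ∈ cedges f, v ∈ e) : v ∈ Set.range f := by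
  obtain ⟨e, ⟨i, rfl⟩, hv⟩ := h
  rcases Sym2.mem_iff.1 hv with rfl | rfl
  · exact ⟨_, rfl⟩
  · exact ⟨_, rfl⟩

private theorem back {m : ℕ} (hc : Compat G c) {f : ZMod m → V} (hf : IsCyc G f) {p : ℕ}
    (hp : c (f (p : ZMod m)) = 0) (t : ℕ) (hpt : p ≤ t) {i : ℕ} (hi : i ≠ 0)
    (ht : c (f (t : ZMod m)) = i) :
    ∃ j : ℕ, c (f (j : ZMod m)) = 0 ∧ c (f ((j + 1 : ℕ) : ZMod m)) = i := by
  induction t, hpt using Nat.le_induction with
  | base => exact absurd (ht.symm.trans hp) hi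
  | succ t hpt ih =>
    by_cases h : c (f (t : ZMod m)) = 0
    · exact ⟨t, h, ht⟩
    · refine ih ?_
      rw [← ht]
      refine hc _ _ ?_ h (by rw [ht]; exact hi)
      have := hf.2 (t : ZMod m)
      rwa [Nat.cast_add, Nat.cast_one]

theorem dcyc_dc (hV : Valid L G c) (hl : 2 ≤ l) (hd : 2 ≤ d) (hev : ∀ x ∈ L, Even x → x = 2 * l)
    (hmax : ∀ x ∈ L, x ≤ k) (hk : k < (d + 1) * l) {E : Set (Sym2 V)} (hE : E ∈ dcyc d G c) :
    ∃ (m : ℕ) (f : ZMod m → V), DC G c d f ∧ cedges f = E := by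
  classical
  obtain ⟨hE, hn⟩ := hE
  obtain ⟨m, f, hm, hf, rfl⟩ := mem_cycles_iff.1 hE
  have : NeZero m := ⟨by omega⟩
  have hOE := oe_self hV hev hmax
  -- a hub
  obtain ⟨p, hp⟩ : ∃ p : ℕ, c (f (p : ZMod m)) = 0 := by
    by_contra hcon
    push Not at hcon
    have h1 : ∀ k : ℕ, c (f (k : ZMod m)) = c (f ((0 : ℕ) : ZMod m)) := by
      intro k
      induction k with
      | zero => rfl
      | succ k ih =>
        rw [← ih]
        refine (hV.1 _ _ ?_ (hcon _) (hcon _)).symm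
        have := hf.2 (k : ZMod m)
        rwa [Nat.cast_add, Nat.cast_one]
    have h3 : {i | i ≠ 0 ∧ ∃ v, c v = i ∧ ∃ e ∈ cedges f, v ∈ e} ⊆
        {c (f ((0 : ℕ) : ZMod m))} := by
      rintro i ⟨-, v, rfl, he⟩
      obtain ⟨x, rfl⟩ := mem_edge_range f he
      rw [Set.mem_singleton_iff, ← h1 x.val, ZMod.natCast_zmod_val]
    have h4 := Set.ncard_le_ncard h3 (Set.finite_singleton _)
    rw [Set.ncard_singleton] at h4
    omega
  have hsub : {i | i ≠ 0 ∧ ∃ v, c v = i ∧ ∃ e ∈ cedges f, v ∈ e} ⊆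
      (((Finset.Ico 0 m).filter fun j : ℕ => c (f (j : ZMod m)) = 0 ∧
        c (f ((j + 1 : ℕ) : ZMod m)) ≠ 0).image fun j : ℕ => c (f ((j + 1 : ℕ) : ZMod m)) :
          Finset ℕ) := by
    rintro i ⟨hi, v, hvi, he⟩
    obtain ⟨x, rfl⟩ := mem_edge_range f he
    obtain ⟨t, hpt, -, ht⟩ := exists_idx hm p (f := f) (v := f x) ⟨x, rfl⟩
    obtain ⟨j, hj0, hj1⟩ := back hV.1 hf hp t hpt hi (by rw [ht]; exact hvi)
    have e0 : ((j % m : ℕ) : ZMod m) = (j : ZMod m) := ZMod.natCast_mod j m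
    have e1 : ((j % m + 1 : ℕ) : ZMod m) = ((j + 1 : ℕ) : ZMod m) := by
      rw [Nat.cast_add, e0, Nat.cast_add]
    rw [Finset.mem_coe, Finset.mem_image]
    refine ⟨j % m, ?_, ?_⟩
    · rw [Finset.mem_filter, Finset.mem_Ico, e0, e1, hj1]
      exact ⟨⟨Nat.zero_le _, Nat.mod_lt _ (by omega)⟩, hj0, hi⟩
    · rw [e1, hj1]
  have hge : d ≤ rn c f 0 m := by
    refine hn.trans ((Set.ncard_le_ncard hsub (Finset.finite_toSet _)).trans ?_)
    rw [Set.ncard_coe_finset]
    exact Finset.card_image_le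
  have h2 : ∃ a b : ℕ, a < b ∧ b < a + m ∧ c (f (a : ZMod m)) = 0 ∧ c (f (b : ZMod m)) = 0 := by
    have h1 : 1 < ((Finset.Ico 0 m).filter fun j : ℕ => c (f (j : ZMod m)) = 0 ∧
        c (f ((j + 1 : ℕ) : ZMod m)) ≠ 0).card := lt_of_lt_of_le (by omega) hge
    obtain ⟨a, ha, b, hb, hab⟩ := Finset.one_lt_card.1 h1
    rw [Finset.mem_filter, Finset.mem_Ico] at ha hb
    rcases Nat.lt_or_gt_of_ne hab with h | h
    · exact ⟨a, b, h, by omega, ha.2.1, hb.2.1⟩
    · exact ⟨b, a, h, by omega, hb.2.1, ha.2.1⟩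
  have hlen := len_tot hOE hl hm hf h2
  have hmk := hOE.max m f hm hf
  have hle : rn c f 0 m ≤ d := by
    by_contra hlt
    have h3 : (d + 1) * l ≤ l * rn c f 0 m := by
      rw [mul_comm]
      exact Nat.mul_le_mul_left l (by omega)
    omega
  exact ⟨m, f, ⟨hm, hf, le_antisymm hle hge, h2⟩, rfl⟩

end H46.OE
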