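import Pool.Agent.H46.CZ.Unq

/-!
# Definitions for the sets L with exactly one even element 2 l (MP_d7aaae_co)

Cycles are cyclic sequences `f : ZMod m → V` (`IsCyc G f`); positions are natural numbers `j` (the
vertex is `f (j : ZMod m)`), so an arc may pass the position `m`. Hubs are the vertices of colour
`0`. A run is a path between two different hubs whose inner vertices are not hubs.
-/

namespace H46.OE

open Pool.Agent.H3.LC H46.CY H46.CZ

/-- runs have length `l`, even cycles have length `2 l`, all cycles have length at most `k` -/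
structure OE {V : Type} (G : SimpleGraph V) (c : V → ℕ) (l k : ℕ) : Prop where
  run : ∀ (x y : V) (s : List V), x ≠ y → c x = 0 → c y = 0 → PI G x y s → s ≠ [] →
    (∀ v ∈ s, c v ≠ 0) → s.length + 1 = l
  even : ∀ (m : ℕ) (f : ZMod m → V), 3 ≤ m → IsCyc G f → Even m → m = 2 * l
  max : ∀ (m : ℕ) (f : ZMod m → V), 3 ≤ m → IsCyc G f → m ≤ k

/-- the inner vertices of the arc from `f a` to `f b` -/
def seg {V : Type} {m : ℕ} (f : ZMod m → V) (a b : ℕ) : List V :=
  (List.range (b - a - 1)).map fun j => f ((a + 1 + j : ℕ) : ZMod m)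

/-- the number of runs which start in `[a, b)` -/
def rn {V : Type} (c : V → ℕ) {m : ℕ} (f : ZMod m → V) (a b : ℕ) : ℕ :=
  ((Finset.Ico a b).filter fun j : ℕ =>
    c (f (j : ZMod m)) = 0 ∧ c (f ((j + 1 : ℕ) : ZMod m)) ≠ 0).card

/-- the number of edges between hubs which start in `[a, b)` -/
def hn {V : Type} (c : V → ℕ) {m : ℕ} (f : ZMod m → V) (a b : ℕ) : ℕ :=
  ((Finset.Ico a b).filter fun j : ℕ =>
    c (f (j : ZMod m)) = 0 ∧ c (f ((j + 1 : ℕ) : ZMod m)) = 0).card

/-- a cycle with exactly `d` runs and at least two hubs -/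
structure DC {V : Type} (G : SimpleGraph V) (c : V → ℕ) (d : ℕ) {m : ℕ} (f : ZMod m → V) :
    Prop where
  three : 3 ≤ m
  cyc : IsCyc G f
  num : rn c f 0 m = d
  two : ∃ a b : ℕ, a < b ∧ b < a + m ∧ c (f (a : ZMod m)) = 0 ∧ c (f (b : ZMod m)) = 0

/-- the classes (pairs of ends) of the runs of `f` -/
def cls {V : Type} (c : V → ℕ) (l : ℕ) {m : ℕ} (f : ZMod m → V) : Set (Sym2 V) :=
  {e | ∃ q : ℕ, c (f (q : ZMod m)) = 0 ∧ c (f ((q + 1 : ℕ) : ZMod m)) ≠ 0 ∧
    e = s(f (q : ZMod m), f ((q + l : ℕ) : ZMod m))}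

/-- the positions `i < j` are the ends of an ear of `g` on `f`: the first edge is not an edge of
`f`, the inner vertices are not on `f` -/
structure CEar {V : Type} {m m' : ℕ} (f : ZMod m → V) (g : ZMod m' → V) (i j : ℕ) : Prop where
  lt : i < j
  le : j < i + m'
  fi : g (i : ZMod m') ∈ Set.range f
  fj : g (j : ZMod m') ∈ Set.range f
  out : ∀ t : ℕ, i < t → t < j → g (t : ZMod m') ∉ Set.range f
  edge : s(g (i : ZMod m'), g ((i + 1 : ℕ) : ZMod m')) ∉ cedges f

/-- `f` and `g` have the same vertices outside the hubs -/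
def Same {V : Type} (c : V → ℕ) {m m' : ℕ} (f : ZMod m → V) (g : ZMod m' → V) : Prop :=
  ∀ v, c v ≠ 0 → (v ∈ Set.range f ↔ v ∈ Set.range g)

/-- the ears of `g` at positions `i < j` (with `1 ≤ i`, `j ≤ m'`) which close up evenly across the
position `0` of `f`: the positions `P, Q` in `[1, m]` of the ends on `f` satisfy: `P + Q + i + j` is
odd -/
def OddE {V : Type} {m m' : ℕ} (f : ZMod m → V) (g : ZMod m' → V) (i j : ℕ) : Prop :=
  ∀ P Q : ℕ, 1 ≤ P → P ≤ m → 1 ≤ Q → Q ≤ m → f (P : ZMod m) = g (i : ZMod m') →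
    f (Q : ZMod m) = g (j : ZMod m') → Odd (P + Q + i + j)

/-- the sets of inner vertices of the runs -/
def Runs {V : Type} (G : SimpleGraph V) (c : V → ℕ) : Set (Set V) :=
  {S | ∃ (x y : V) (s : List V), x ≠ y ∧ c x = 0 ∧ c y = 0 ∧ PI G x y s ∧ s ≠ [] ∧
    (∀ v ∈ s, c v ≠ 0) ∧ S = {v | v ∈ s}}

end H46.OE
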