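import Pool.Agent.H46.OE.Seg

/-!
# OE.Fea : an edge of g which is not an edge of f is on an ear; a cycle contained in a cycle (about 130 lines)

`exists_ear`: `e = s(g t, g (t + 1))` with `t ≥ m'` (add `m'`). `i ≤ t`: the largest position with `g i ∈ range f`; `j ≥ t + 1` the smallest. They exist and `j < i + m'`, because in every interval of `m'` consecutive positions there are two different positions with vertices on `f` (`exists_idx` for `g a` and `g b`). `CEar.edge`: if `i = t` and `j = t + 1` it is `e`; if `i < t` or `j > t + 1`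
then `g (i + 1)` or `g i`... : if `i + 1 < j` then `g (i + 1)` is not on `f`, so `s(g i, g (i + 1))` is not an edge of `f`; if `i + 1 = j` then `t = i`.
`cedges_eq`: let `cedges g ⊆ cedges f`. Every vertex `g t` is on `f`, `g t = f x`; the two edges of `g` at `g t` are different (`3 ≤ m'`) edges of `f` at `f x`, so they are the two edges `s(f (x - 1), f x)`, `s(f x, f (x + 1))` of `f` at `f x`; so `f (x + 1) ∈ range g`; by induction all `f (x + j)` are in `range g` and all edges of `f` are edges of `g`.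
-/

namespace H46.OE

open Pool.Agent.H3.LC H46.CY H46.CZ

variable {V : Type} {G : SimpleGraph V} {m m' : ℕ} {f : ZMod m → V} {g : ZMod m' → V}

theorem exists_ear (hm' : 3 ≤ m') (hg : IsCyc G g) {a b : ℕ} (hab : a < b) (hb : b < a + m')
    (haf : g (a : ZMod m') ∈ Set.range f) (hbf : g (b : ZMod m') ∈ Set.range f) {e : Sym2 V}
    (he : e ∈ cedges g) (hef : e ∉ cedges f) :
    ∃ i j t : ℕ, CEar f g i j ∧ i ≤ t ∧ t < j ∧
      e = s(g (t : ZMod m'), g ((t + 1 : ℕ) : ZMod m')) := by
  classical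
  have : NeZero m' := ⟨by omega⟩
  obtain ⟨x, hx⟩ := he
  obtain ⟨t, ht⟩ : ∃ t : ℕ, t = x.val + m' := ⟨_, rfl⟩
  have htx : ((t : ℕ) : ZMod m') = x := by
    rw [ht, Nat.cast_add, ZMod.natCast_self, add_zero, ZMod.natCast_zmod_val]
  have het : e = s(g (t : ZMod m'), g ((t + 1 : ℕ) : ZMod m')) := by
    rw [Nat.cast_add t 1, htx, Nat.cast_one, hx]
  -- the two different vertices on `f`
  have hne : g (a : ZMod m') ≠ g (b : ZMod m') := by
    intro h0
    have := idx_inj hm' hg h0 (le_of_lt hab) hb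
    omega
  -- the largest position `i`
  obtain ⟨i0, hi1, hi2, hi3⟩ := exists_idx hm' (t + 1 - m') (Set.mem_range_self (a : ZMod m')
    : g (a : ZMod m') ∈ Set.range g)
  have hi4 : i0 ≤ t := by omega
  have hP : g (i0 : ZMod m') ∈ Set.range f := by rw [hi3]; exact haf
  set i : ℕ := Nat.findGreatest (fun i => g (i : ZMod m') ∈ Set.range f) t with hi
  have hif : g (i : ZMod m') ∈ Set.range f :=
    Nat.findGreatest_spec (P := fun i => g (i : ZMod m') ∈ Set.range f) hi4 hP
  have hit : i ≤ t := Nat.findGreatest_le _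
  have himax : ∀ s, i < s → s ≤ t → g (s : ZMod m') ∉ Set.range f := by
    intro s h1 h2
    exact Nat.findGreatest_is_greatest (P := fun i => g (i : ZMod m') ∈ Set.range f) h1 h2
  -- a position after `t`
  have hj0 : ∃ j, t + 1 ≤ j ∧ j < i + m' ∧ g (j : ZMod m') ∈ Set.range f := by
    have hu : ∃ u, u ∈ Set.range f ∧ u ∈ Set.range g ∧ u ≠ g (i : ZMod m') := by
      by_cases h1 : g (a : ZMod m') = g (i : ZMod m')
      · exact ⟨_, hbf, Set.mem_range_self _, fun h2 => hne (h1.trans h2.symm)⟩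
      · exact ⟨_, haf, Set.mem_range_self _, h1⟩
    obtain ⟨u, hu1, hu2, hu3⟩ := hu
    obtain ⟨j, hj1, hj2, hj3⟩ := exists_idx hm' (i + 1) hu2
    have hj4 : j ≠ i + m' := by
      intro h0
      apply hu3
      rw [← hj3, h0, cast_per g]
    have hj5 : g (j : ZMod m') ∈ Set.range f := by rw [hj3]; exact hu1
    refine ⟨j, ?_, by omega, hj5⟩
    by_contra h0
    exact himax j (by omega) (by omega) hj5
  have hj1 : ∃ j, t + 1 ≤ j ∧ g (j : ZMod m') ∈ Set.range f := by
    obtain ⟨j, h1, _, h3⟩ := hj0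
    exact ⟨j, h1, h3⟩
  obtain ⟨h1, h2⟩ := Nat.find_spec hj1
  have hjmin : ∀ s, t + 1 ≤ s → s < Nat.find hj1 → g (s : ZMod m') ∉ Set.range f := by
    intro s h3 h4 h5
    exact Nat.find_min hj1 h4 ⟨h3, h5⟩
  have hjle : Nat.find hj1 < i + m' := by
    obtain ⟨j, h3, h4, h5⟩ := hj0
    exact lt_of_le_of_lt (Nat.find_min' hj1 ⟨h3, h5⟩) h4
  have hout : ∀ s : ℕ, i < s → s < Nat.find hj1 → g (s : ZMod m') ∉ Set.range f := by
    intro s h3 h4
    by_cases h5 : s ≤ t
    · exact himax s h3 h5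
    · exact hjmin s (by omega) h4
  refine ⟨i, Nat.find hj1, t, ⟨by omega, hjle, hif, h2, hout, ?_⟩, hit, by omega, het⟩
  rintro ⟨y, hy⟩
  by_cases h3 : i + 1 < Nat.find hj1
  · apply hout (i + 1) (by omega) h3
    have h4 : g ((i + 1 : ℕ) : ZMod m') ∈ s(f y, f (y + 1)) := by
      rw [← hy]
      exact Sym2.mem_mk_right _ _
    rcases Sym2.mem_iff.1 h4 with h5 | h5
    · rw [h5]; exact Set.mem_range_self _
    · rw [h5]; exact Set.mem_range_self _
  · have h4 : i = t := by omega
    apply hef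
    rw [het]
    rw [h4] at hy
    exact ⟨y, hy⟩

/-- the successor of a vertex of `g` on `f` -/
theorem cedges_eq_step (hm' : 3 ≤ m') (hf : IsCyc G f) (hg : IsCyc G g)
    (h : cedges g ⊆ cedges f) (x : ZMod m) (hx : f x ∈ Set.range g) :
    s(f x, f (x + 1)) ∈ cedges g := by
  obtain ⟨y, hy⟩ := hx
  have e1 : s(g (y - 1), g y) ∈ cedges g := ⟨y - 1, by rw [sub_add_cancel]⟩
  have e2 : s(g y, g (y + 1)) ∈ cedges g := ⟨y, rfl⟩
  have key : ∀ e ∈ cedges g, f x ∈ e → e = s(f x, f (x + 1)) ∨ e = s(f (x - 1), f x) := by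
    intro e he hxe
    obtain ⟨u, hu⟩ := h he
    rw [hu] at hxe
    rcases Sym2.mem_iff.1 hxe with h1 | h1
    · left
      rw [hu, hf.1 h1]
    · right
      have h2 : x - 1 = u := by rw [hf.1 h1, add_sub_cancel_right]
      rw [hu, h2, ← hf.1 h1]
  have hne : s(g (y - 1), g y) ≠ s(g y, g (y + 1)) := by
    intro h0
    rw [Sym2.eq_swap, Sym2.congr_right] at h0
    have h1 := hg.1 h0
    have h2 : (2 : ZMod m') = 0 := by
      have : (y + 1) - (y - 1) = (0 : ZMod m') := by rw [← h1, sub_self]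
      rw [← this]
      ring
    have h3 : ((2 : ℕ) : ZMod m') = 0 := by exact_mod_cast h2
    rw [ZMod.natCast_eq_zero_iff] at h3
    have := Nat.le_of_dvd (by norm_num) h3
    omega
  rcases key _ e2 (by rw [← hy]; exact Sym2.mem_mk_left _ _) with h1 | h1
  · rw [← h1]; exact e2
  · rcases key _ e1 (by rw [← hy]; exact Sym2.mem_mk_right _ _) with h2 | h2
    · rw [← h2]; exact e1
    · exact absurd (h2.trans h1.symm) hne

theorem cedges_eq (hm : 3 ≤ m) (hm' : 3 ≤ m') (hf : IsCyc G f) (hg : IsCyc G g)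
    (h : cedges g ⊆ cedges f) : cedges g = cedges f := by
  have : NeZero m := ⟨by omega⟩
  refine Set.Subset.antisymm h ?_
  obtain ⟨x0, hx0⟩ := h (⟨0, rfl⟩ : s(g 0, g (0 + 1)) ∈ cedges g)
  have hstart : f x0 ∈ Set.range g := by
    have h1 : f x0 ∈ s(g 0, g (0 + 1)) := by rw [hx0]; exact Sym2.mem_mk_left _ _
    rcases Sym2.mem_iff.1 h1 with h2 | h2
    · rw [h2]; exact Set.mem_range_self _
    · rw [h2]; exact Set.mem_range_self _
  have hind : ∀ j : ℕ, f (x0 + (j : ZMod m)) ∈ Set.range g := by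
    intro j
    induction j with
    | zero => rw [Nat.cast_zero, add_zero]; exact hstart
    | succ j ih =>
      obtain ⟨u, hu⟩ := cedges_eq_step hm' hf hg h _ ih
      have h1 : f (x0 + (j : ZMod m) + 1) ∈ s(g u, g (u + 1)) := by
        rw [← hu]; exact Sym2.mem_mk_right _ _
      rw [Nat.cast_add, Nat.cast_one, ← add_assoc]
      rcases Sym2.mem_iff.1 h1 with h2 | h2
      · rw [h2]; exact Set.mem_range_self _
      · rw [h2]; exact Set.mem_range_self _
  rintro e ⟨x, hx⟩
  rw [hx]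
  apply cedges_eq_step hm' hf hg h
  have h1 := hind (x - x0).val
  rw [ZMod.natCast_zmod_val, add_sub_cancel] at h1
  exact h1

end H46.OE
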