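import Pool.Agent.H46.OE.Upp
import Pool.Agent.H46.CZ.Cls

/-!
# OE.Fin : the constants (about 90 lines)

`Gam L d` is the supremum of `(dcyc d G c).ncard / N ^ d`, `N = {v | c v ≠ 0}.ncard`, over the valid templates on `Fin N'` (`Valid` is `Compat` and the condition on the blow-ups). Upper bounds: `csSup_le` (the set is not empty: the graph without vertices) and `upp_two`, `upp_three`. Lower bounds: `Gam_pos` of CY.Pos for `d ≥ 3`. For `d = 2`: `CZ.Gam_two` for the set `{2 l}` and monotony: the values for `{2 l}` are values for `L`, and the set for `L` is bounded above by `upp_two` (`csSup_le_csSup`).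
-/

namespace H46.OE

open Pool.Agent.H3.LC H46.CY H46.CZ

variable {L : Finset ℕ} {l k d : ℕ}

/-- the set of the values of the valid templates -/
private def vls (L : Finset ℕ) (d : ℕ) : Set ℝ :=
  {r | ∃ (N : ℕ) (G : SimpleGraph (Fin N)) (c : Fin N → ℕ), Compat G c ∧
    (∀ M, IsLCycleGraph L (blow G c M)) ∧
    r = ((dcyc d G c).ncard : ℝ) / ({v | c v ≠ 0}.ncard : ℝ) ^ d}

private theorem Gam_vls (L : Finset ℕ) (d : ℕ) : Gam L d = sSup (vls L d) := rfl

private theorem vls_ne (L : Finset ℕ) (d : ℕ) : (vls L d).Nonempty := by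
  refine ⟨_, 0, ⊥, fun _ => 0, ?_, ?_, rfl⟩
  · intro u
    exact u.elim0
  · intro M
    rw [isLCycle_iff]
    intro m f _ _
    exact (f 0).1.1.elim0

private theorem vls_mono {L L' : Finset ℕ} (h : L ⊆ L') (d : ℕ) : vls L d ⊆ vls L' d := by
  rintro r ⟨N, G, c, hc, hv, rfl⟩
  refine ⟨N, G, c, hc, fun M => ?_, rfl⟩
  have := hv M
  rw [isLCycle_iff] at this ⊢
  intro m f hm hf
  exact h (this m f hm hf)

/-- from a bound for the numbers of cycles to a bound for the values -/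
private theorem vls_le {L : Finset ℕ} {d : ℕ} (hd : 1 ≤ d) {K : ℝ} (hK : 0 < K)
    (h : ∀ (N : ℕ) (G : SimpleGraph (Fin N)) (c : Fin N → ℕ), Valid L G c →
      ((dcyc d G c).ncard : ℝ) * K ≤ ({v | c v ≠ 0}.ncard : ℝ) ^ d) :
    ∀ r ∈ vls L d, r ≤ 1 / K := by
  rintro r ⟨N, G, c, hc, hv, rfl⟩
  have h1 := h N G c ⟨hc, hv⟩
  rcases Nat.eq_zero_or_pos {v | c v ≠ 0}.ncard with hp | hp
  · rw [hp]
    have : ((0 : ℕ) : ℝ) ^ d = 0 := by
      rw [Nat.cast_zero, zero_pow (by omega)]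
    rw [this, div_zero]
    positivity
  · have hp' : (0 : ℝ) < ({v | c v ≠ 0}.ncard : ℝ) ^ d := by
      have : (0 : ℝ) < {v | c v ≠ 0}.ncard := by exact_mod_cast hp
      positivity
    rw [div_le_div_iff₀ hp' hK, one_mul]
    exact h1

theorem Gam_one_two (hl : 2 ≤ l) (h2 : 2 * l ∈ L) (hev : ∀ x ∈ L, Even x → x = 2 * l)
    (hmax : ∀ x ∈ L, x < 3 * l) : Gam L 2 = 1 / (2 * ((l : ℝ) - 1) ^ 2) := by
  have hl' : (2 : ℝ) ≤ l := by exact_mod_cast hl
  have hK : (0 : ℝ) < 2 * ((l : ℝ) - 1) ^ 2 := by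
    have : (0 : ℝ) < (l : ℝ) - 1 := by linarith
    positivity
  have hup : ∀ r ∈ vls L 2, r ≤ 1 / (2 * ((l : ℝ) - 1) ^ 2) := by
    refine vls_le (by norm_num) hK fun N G c hV => ?_
    have h := upp_two (k := 3 * l - 1) hV hl hev (fun x hx => by
      have := hmax x hx
      omega) (by omega)
    have h4 : ((l - 1 : ℕ) : ℝ) = (l : ℝ) - 1 := by
      push_cast [Nat.cast_sub (show 1 ≤ l by omega)]
      ring
    have h5 : ((2 * (dcyc 2 G c).ncard * (l - 1) ^ 2 : ℕ) : ℝ) ≤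
        (({v | c v ≠ 0}.ncard ^ 2 : ℕ) : ℝ) := by exact_mod_cast h
    rw [Nat.cast_mul, Nat.cast_mul, Nat.cast_pow, Nat.cast_pow, h4] at h5
    calc ((dcyc 2 G c).ncard : ℝ) * (2 * ((l : ℝ) - 1) ^ 2)
        = ((2 : ℕ) : ℝ) * ((dcyc 2 G c).ncard : ℝ) * ((l : ℝ) - 1) ^ 2 := by
          push_cast
          ring
      _ ≤ _ := h5
  apply le_antisymm
  · rw [Gam_vls]
    exact csSup_le (vls_ne L 2) hup
  · have h := Gam_two (L := {2 * l}) hl (Finset.mem_singleton_self _)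
      (fun x hx _ => (Finset.mem_singleton.1 hx).symm.le) (fun x hx => (Finset.mem_singleton.1 hx).le)
    rw [← h, Gam_vls, Gam_vls]
    exact csSup_le_csSup ⟨_, hup⟩ (vls_ne _ 2)
      (vls_mono (Finset.singleton_subset_iff.2 h2) 2)

theorem Gam_one_three (hl : 2 ≤ l) (hd : 3 ≤ d) (h2 : 2 * l ∈ L)
    (hev : ∀ x ∈ L, Even x → x = 2 * l) (hk : k ∈ L) (hdk : d * l ≤ k)
    (hmax : ∀ x ∈ L, x < (d + 1) * l) : Gam L d = 1 / ((d : ℝ) * ((l : ℝ) - 1)) ^ d := by
  have hl' : (2 : ℝ) ≤ l := by exact_mod_cast hl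
  have hd' : (3 : ℝ) ≤ d := by exact_mod_cast hd
  have hK : (0 : ℝ) < ((d : ℝ) * ((l : ℝ) - 1)) ^ d := by
    have h1 : (0 : ℝ) < (l : ℝ) - 1 := by linarith
    have h3 : (0 : ℝ) < d := by linarith
    positivity
  have hup : ∀ r ∈ vls L d, r ≤ 1 / ((d : ℝ) * ((l : ℝ) - 1)) ^ d := by
    refine vls_le (by omega) hK fun N G c hV => ?_
    have hpos : 0 < (d + 1) * l := by positivity
    have h := upp_three (k := (d + 1) * l - 1) hV hl hd hev (fun x hx => by
      have := hmax x hx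
      omega) (by omega)
    have h4 : ((l - 1 : ℕ) : ℝ) = (l : ℝ) - 1 := by
      push_cast [Nat.cast_sub (show 1 ≤ l by omega)]
      ring
    have h5 : (((dcyc d G c).ncard * (d * (l - 1)) ^ d : ℕ) : ℝ) ≤
        (({v | c v ≠ 0}.ncard ^ d : ℕ) : ℝ) := by exact_mod_cast h
    rw [Nat.cast_mul, Nat.cast_pow, Nat.cast_pow, Nat.cast_mul, h4] at h5
    exact h5
  apply le_antisymm
  · rw [Gam_vls]
    exact csSup_le (vls_ne L d) hup
  · exact Gam_pos hl (by omega) h2 hk hdk (fun x hx he => (hev x hx he).symm.le) hmax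

end H46.OE
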