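import Pool.Agent.H46.OE.Len

/-!
# OE.Hea : a short ear (about 90 lines)

`δ = γ.length + 1 < l`. The numbers `q - p + δ` and `p + m - q + δ` have different parity (`m` is odd). The even one is the length of a cycle: `cyc_of_two` with `seg f p q` (or `seg f q (p + m)`, `cast_per`) and `γ`; they are disjoint by `hγf`; the two lists are not both empty: if `γ = []` and `q = p + 1` then `s(f p, f q)` is an edge of `f` (`edge_mem`); the same for
`q + 1 = p + m`. So it is `2 l` (`OE.even`, its length is `≥ 3`). By `len_eq` the arc has length `l * rn + hn` with `hn < l` (`hn_le`, `dc_small`): `rn = 0` gives a sum `< 2 l`, `rn ≥ 2` gives a sum `> 2 l`.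
-/

namespace H46.OE

open Pool.Agent.H3.LC H46.CY H46.CZ

variable {V : Type} {G : SimpleGraph V} {c : V → ℕ} {l k d m : ℕ} {f : ZMod m → V}

private theorem hea_key (h : OE G c l k) (hl : 2 ≤ l) (hk : k < (d + 1) * l) (hf : DC G c d f)
    {a b : ℕ} (hab : a < b) (hb : b < a + m) (ha0 : c (f (a : ZMod m)) = 0)
    (hb0 : c (f (b : ZMod m)) = 0) {γ : List V} (hγ : PI G (f (a : ZMod m)) (f (b : ZMod m)) γ)
    (hγf : ∀ v ∈ γ, v ∉ Set.range f) (hlen : γ.length + 1 < l)
    (he : γ = [] → s(f (a : ZMod m), f (b : ZMod m)) ∉ cedges f)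
    (hev : Even (b - a + (γ.length + 1))) :
    rn c f a b = 1 ∧ b - a + (γ.length + 1) = 2 * l := by
  have hm := hf.three
  have hs := seg_length (f := f) hab
  have hne : f (a : ZMod m) ≠ f (b : ZMod m) := fun e => by
    have := idx_inj hm hf.cyc e hab.le hb
    omega
  have h1 : 1 ≤ (seg f a b).length + γ.length := by
    by_contra hc
    have e1 : γ = [] := List.eq_nil_of_length_eq_zero (by omega)
    have e2 : b = a + 1 := by omega
    subst e2
    exact he e1 (edge_mem f a)
  obtain ⟨g, hg⟩ := cyc_of_two hne (seg_pi hm hf.cyc hab hb) hγ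
    (fun x hx hx' => hγf x hx' (by
      obtain ⟨j, -, -, hj⟩ := seg_mem.1 hx
      exact ⟨_, hj⟩)) h1
  have e3 : (seg f a b).length + γ.length + 2 = b - a + (γ.length + 1) := by omega
  have h2 := h.even _ g (by omega) hg (by rw [e3]; exact hev)
  have h3 := len_eq h hl hm hf.cyc hab hb ha0 hb0
  have h4 := hn_le (c := c) (f := f) hab.le hb.le
  have h5 := dc_small h hl hk hf
  refine ⟨?_, by omega⟩
  rcases Nat.lt_trichotomy (rn c f a b) 1 with h6 | h6 | h6
  · have h7 : rn c f a b = 0 := by omega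
    rw [h7] at h3
    omega
  · exact h6
  · have h7 : l * 2 ≤ l * rn c f a b := Nat.mul_le_mul_left l (by omega)
    omega

theorem ear_hub (h : OE G c l k) (hl : 2 ≤ l) (hk : k < (d + 1) * l) (hf : DC G c d f)
    (hmo : Odd m) {p q : ℕ} (hpq : p < q) (hq : q < p + m) (hp0 : c (f (p : ZMod m)) = 0)
    (hq0 : c (f (q : ZMod m)) = 0) {γ : List V} (hγ : PI G (f (p : ZMod m)) (f (q : ZMod m)) γ)
    (hγf : ∀ v ∈ γ, v ∉ Set.range f) (hlen : γ.length + 1 < l)
    (he : γ = [] → s(f (p : ZMod m), f (q : ZMod m)) ∉ cedges f) :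
    (rn c f p q = 1 ∧ q - p + (γ.length + 1) = 2 * l) ∨
      (rn c f q (p + m) = 1 ∧ p + m - q + (γ.length + 1) = 2 * l) := by
  rcases Nat.even_or_odd (q - p + (γ.length + 1)) with hev | hodd
  · exact Or.inl (hea_key h hl hk hf hpq hq hp0 hq0 hγ hγf hlen he hev)
  · right
    have hper : f ((p + m : ℕ) : ZMod m) = f (p : ZMod m) := cast_per f p
    have h1 : Even (p + m - q + (γ.reverse.length + 1)) := by
      rw [List.length_reverse]
      obtain ⟨s, hs⟩ := hmo
      obtain ⟨t, ht⟩ := hodd
      refine ⟨s + (γ.length + 1) - t, ?_⟩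
      omega
    have h2 := hea_key (a := q) (b := p + m) (γ := γ.reverse) h hl hk hf hq (by omega) hq0
      (by rw [hper]; exact hp0) (by rw [hper]; exact pi_rev hγ)
      (fun v hv => hγf v (List.mem_reverse.1 hv)) (by rw [List.length_reverse]; exact hlen)
      (fun e => by
        rw [hper, Sym2.eq_swap]
        exact he (List.reverse_eq_nil_iff.1 e)) h1
    rw [List.length_reverse] at h2
    exact h2

end H46.OE
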