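import Pool.Agent.H46.OE.Sam

/-!
# OE.Inj : the runs determine the cycle (about 90 lines)

Case `m` even: `OE.even` gives `m = 2 l`, `dc_len`: `2 l = l d + hn`, so `d = 2`, `hn c f 0 m = 0`: every edge of `f` has an end which is not a hub (an edge `s(f x, f (x + 1))` with both ends hubs is counted by `hn` at the position `x.val`), so by `edge_same` (roles changed, `Same` gives the vertex on `g`) `cedges f ⊆ cedges g`, and `cedges_eq`. Case `m'` even: the same. Case both odd:
if `cedges g ⊆ cedges f` use `cedges_eq`, otherwise `two_ears` and `same_run`.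
-/

namespace H46.OE

open Pool.Agent.H3.LC H46.CY H46.CZ

variable {V : Type} {L : Finset ℕ} {G : SimpleGraph V} {c : V → ℕ} {l k d m m' : ℕ}
  {f : ZMod m → V} {g : ZMod m' → V}

private theorem inj_even (hV : Valid L G c) (hl : 2 ≤ l) (hd : 2 ≤ d)
    (hev : ∀ x ∈ L, Even x → x = 2 * l) (hmax : ∀ x ∈ L, x ≤ k) (hf : DC G c d f)
    (hg : DC G c d g) (hs : Same c f g) (hm : Even m) : cedges f = cedges g := by
  have hO := oe_self hV hev hmax
  have h1 := hO.even m f hf.three hf.cyc hm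
  have h2 := dc_len hO hl hf
  have h3 : l * 2 ≤ l * d := Nat.mul_le_mul_left l hd
  have h4 : hn c f 0 m = 0 := by omega
  have : NeZero m := ⟨by have := hf.three; omega⟩
  unfold hn at h4
  rw [Finset.card_eq_zero] at h4
  refine cedges_eq hg.three hf.three hg.cyc hf.cyc fun e he => ?_
  obtain ⟨x, rfl⟩ := he
  by_cases hx : c (f x) = 0
  · by_cases hx' : c (f (x + 1)) = 0
    · exfalso
      have h5 : x.val ∈ ((Finset.Ico 0 m).filter fun j : ℕ =>
          c (f (j : ZMod m)) = 0 ∧ c (f ((j + 1 : ℕ) : ZMod m)) = 0) := by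
        rw [Finset.mem_filter, Finset.mem_Ico]
        refine ⟨⟨Nat.zero_le _, ZMod.val_lt x⟩, ?_, ?_⟩
        · rw [ZMod.natCast_zmod_val]
          exact hx
        · rw [Nat.cast_add, ZMod.natCast_zmod_val, Nat.cast_one]
          exact hx'
      rw [h4] at h5
      exact absurd h5 (Finset.notMem_empty _)
    · exact edge_same hV hl hev hmax hg hf hx' ((hs _ hx').1 ⟨_, rfl⟩) ⟨x, rfl⟩
        (Sym2.mem_mk_right _ _)
  · exact edge_same hV hl hev hmax hg hf hx ((hs _ hx).1 ⟨_, rfl⟩) ⟨x, rfl⟩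
      (Sym2.mem_mk_left _ _)

theorem cyc_eq (hV : Valid L G c) (hl : 2 ≤ l) (hd : 2 ≤ d) (hev : ∀ x ∈ L, Even x → x = 2 * l)
    (hmax : ∀ x ∈ L, x ≤ k) (hk : k < (d + 1) * l) (hf : DC G c d f) (hg : DC G c d g)
    (hs : Same c f g) : cedges f = cedges g := by
  rcases Nat.even_or_odd m with hm | hm
  · exact inj_even hV hl hd hev hmax hf hg hs hm
  · rcases Nat.even_or_odd m' with hm' | hm'
    · exact (inj_even hV hl hd hev hmax hg hf (fun v hv => (hs v hv).symm) hm').symm
    · by_cases hsub : cedges g ⊆ cedges f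
      · exact (cedges_eq hf.three hg.three hf.cyc hg.cyc hsub).symm
      · exfalso
        obtain ⟨f', g', hf', hg', hs', h0, h1, -, i₁, j₁, i₂, j₂, e₁, hi₁, hj₁, o₁, e₂, hi₂, hj₂,
          o₂, hne⟩ := two_ears hV hl hd hev hmax hk hf hg hm hm' hs hsub
        exact same_run hV hl hd hev hmax hk hf' hg' hm hs' h0 h1 e₁ hi₁ hj₁ o₁ e₂ hi₂ hj₂ o₂ hne

end H46.OE
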