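import Pool.Agent.H46.OE.Kea
import Pool.Agent.H46.OE.Blo

/-!
# OE.Kcl : two cycles with a common class have the same classes (about 170 lines)

By symmetry it is enough to prove `cls c l g ⊆ cls c l f`. In `W = blow G c 1` let `F = lf c 1 0 ∘ f`, `H = lf c 1 1 ∘ g` (`dc_lift`, `oe_blow`); a common vertex of `F` and `H` is a hub (`lf_inj`), and `F j = H j'` iff `f j = g j'` is a hub. The shared class `e = s(x, y)`, `x ≠ y` (`idx_inj`, `l < m`) gives two different hubs on both. Let `q` be a run start of `g`.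
Replace `q` by `q + m'` so that `q ≥ m'`. Let `a ≤ q` be the largest position with `H a ∈ range F` and `b ≥ q + l` the smallest with `H b ∈ range F`; they exist and `b < a + m'`: the inner vertices of the run are not on `F`, and `x`, `y` have positions in every interval of length `m'` (`exists_idx`); if `b ≥ a + m'` then all positions in `(a, a + m')` are not on `F`, but one
of the two different hubs has a position there. `H a`, `H b` are hubs. `ear_run` (colours `fun x => c x.1.1`; `rn ≥ 1` by `rn_pos` at `q`) gives `b = a + l`, so `a = q`, `b = q + l`, and a run of `F` with the same ends: project to `G`. The start `p` of that run: `rn c f p (p + l) = 1`, `hn = 0`, `c (f p) = 0`: then `c (f (p + 1)) ≠ 0` (otherwise the step `p` is counted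
by `hn`).
-/

namespace H46.OE

open Pool.Agent.H3.LC H46.CY H46.CZ

variable {V : Type} {L : Finset ℕ} {G : SimpleGraph V} {c : V → ℕ} {l k d m m' : ℕ}
  {f : ZMod m → V} {g : ZMod m' → V}

private theorem greatest_le {P : ℕ → Prop} {a₀ q : ℕ} (h : a₀ ≤ q) (hP : P a₀) :
    ∃ a, a₀ ≤ a ∧ a ≤ q ∧ P a ∧ ∀ j, a < j → j ≤ q → ¬ P j := by
  classical
  induction q with
  | zero =>
    refine ⟨a₀, le_refl _, h, hP, ?_⟩
    intro j h1 h2
    omega
  | succ q ih =>
    by_cases hq : P (q + 1)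
    · refine ⟨q + 1, h, le_refl _, hq, ?_⟩
      intro j h1 h2
      omega
    · have h' : a₀ ≤ q := by
        rcases Nat.lt_or_ge q a₀ with h1 | h1
        · have h2 : a₀ = q + 1 := by omega
          rw [h2] at hP
          exact absurd hP hq
        · exact h1
      obtain ⟨a, h1, h2, h3, h4⟩ := ih h'
      refine ⟨a, h1, by omega, h3, ?_⟩
      intro j h5 h6
      rcases Nat.lt_or_ge q j with h7 | h7
      · have h8 : j = q + 1 := by omega
        rw [h8]
        exact hq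
      · exact h4 j h5 h7

private theorem least_ge {P : ℕ → Prop} {b₀ q : ℕ} (h : q ≤ b₀) (hP : P b₀) :
    ∃ b, q ≤ b ∧ b ≤ b₀ ∧ P b ∧ ∀ j, q ≤ j → j < b → ¬ P j := by
  classical
  have hex : ∃ b, q ≤ b ∧ P b := ⟨b₀, h, hP⟩
  refine ⟨Nat.find hex, (Nat.find_spec hex).1, Nat.find_min' hex ⟨h, hP⟩,
    (Nat.find_spec hex).2, ?_⟩
  intro j h1 h2 h3
  exact Nat.find_min hex h2 ⟨h1, h3⟩

theorem cls_sub (hV : Valid L G c) (hl : 2 ≤ l) (hev : ∀ x ∈ L, Even x → x = 2 * l)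
    (hmax : ∀ x ∈ L, x ≤ k) (hk : k < (d + 1) * l) (hf : DC G c d f) (hg : DC G c d g)
    (hmo : Odd m) {e : Sym2 V} (he : e ∈ cls c l f) (he' : e ∈ cls c l g) :
    cls c l g ⊆ cls c l f := by
  have hS := oe_self hV hev hmax
  have hW := oe_blow hV hev hmax 1
  have hF := dc_lift hf (M := 1) 0
  have hH := dc_lift hg (M := 1) 1
  have hm := hf.three
  have hm' := hg.three
  -- the shared class
  obtain ⟨p₀, hp0, hp1, rfl⟩ := he
  obtain ⟨q₀, -, -, heq⟩ := he'
  obtain ⟨hpe, -, hplm⟩ := run_end hS hl hm hf.cyc hf.two hp0 hp1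
  have hxy : f (p₀ : ZMod m) ≠ f ((p₀ + l : ℕ) : ZMod m) := by
    intro h
    have := idx_inj hm hf.cyc h (by omega) (by omega)
    omega
  -- both ends are on both cycles
  have key : ∃ x y : V, x ≠ y ∧ c x = 0 ∧ c y = 0 ∧ x ∈ Set.range f ∧ y ∈ Set.range f ∧
      x ∈ Set.range g ∧ y ∈ Set.range g := by
    refine ⟨_, _, hxy, hp0, hpe, ⟨_, rfl⟩, ⟨_, rfl⟩, ?_, ?_⟩
    · rcases Sym2.eq_iff.1 heq with ⟨h1, -⟩ | ⟨h1, -⟩
      · exact ⟨_, h1.symm⟩
      · exact ⟨_, h1.symm⟩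
    · rcases Sym2.eq_iff.1 heq with ⟨-, h1⟩ | ⟨-, h1⟩
      · exact ⟨_, h1.symm⟩
      · exact ⟨_, h1.symm⟩
  obtain ⟨x, y, hne, hx0, hy0, hxf, hyf, hxg, hyg⟩ := key
  rintro e' ⟨q', hq0', hq1', rfl⟩
  obtain ⟨q, hqq⟩ : ∃ q : ℕ, q = q' + m' := ⟨_, rfl⟩
  have gper : ∀ t : ℕ, g ((q + t : ℕ) : ZMod m') = g ((q' + t : ℕ) : ZMod m') := by
    intro t
    rw [hqq, show q' + m' + t = (q' + t) + m' by omega]
    exact cast_per g _
  have gq : g (q : ZMod m') = g (q' : ZMod m') := by simpa using gper 0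
  have hq0 : c (g (q : ZMod m')) = 0 := by rw [gq]; exact hq0'
  have hq1 : c (g ((q + 1 : ℕ) : ZMod m')) ≠ 0 := by rw [gper 1]; exact hq1'
  obtain ⟨hqe, hqin, hqlm⟩ := run_end hS hl hm' hg.cyc hg.two hq0 hq1
  -- common vertices of the two lifts
  have hcom : ∀ j : ℕ, lf c 1 1 (g (j : ZMod m')) ∈ Set.range (fun i => lf c 1 0 (f i)) →
      c (g (j : ZMod m')) = 0 ∧ g (j : ZMod m') ∈ Set.range f := by
    rintro j ⟨i, hi⟩
    obtain ⟨h1, h2⟩ := lf_inj hi
    refine ⟨?_, ⟨i, h1⟩⟩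
    by_contra h3
    rw [← h1] at h3
    exact absurd (h2 h3) (by decide)
  have hcom' : ∀ j : ℕ, c (g (j : ZMod m')) = 0 → g (j : ZMod m') ∈ Set.range f →
      lf c 1 1 (g (j : ZMod m')) ∈ Set.range (fun i => lf c 1 0 (f i)) := by
    rintro j h0 ⟨i, hi⟩
    refine ⟨i, ?_⟩
    show lf c 1 0 (f i) = _
    rw [hi]
    exact lf_hub 0 1 h0
  -- the greatest common position `a ≤ q` and the least one `b ≥ q + l`
  obtain ⟨a₀, ha1, ha2, ha3⟩ := exists_idx hm' (q + 1 - m') hxg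
  obtain ⟨a, haa, haq, ⟨hPa, hPa'⟩, hamax⟩ := greatest_le
    (P := fun j : ℕ => c (g (j : ZMod m')) = 0 ∧ g (j : ZMod m') ∈ Set.range f) (a₀ := a₀) (q := q)
    (by omega) ⟨by rw [ha3]; exact hx0, by rw [ha3]; exact hxf⟩
  obtain ⟨b₀, hb1, hb2, hb3⟩ := exists_idx hm' (q + l) hxg
  obtain ⟨b, hbq, hbb, ⟨hPb, hPb'⟩, hbmin⟩ := least_ge
    (P := fun j : ℕ => c (g (j : ZMod m')) = 0 ∧ g (j : ZMod m') ∈ Set.range f) (b₀ := b₀)
    (q := q + l) hb1 ⟨by rw [hb3]; exact hx0, by rw [hb3]; exact hxf⟩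
  have hnot : ∀ j : ℕ, a < j → j < b →
      ¬ (c (g (j : ZMod m')) = 0 ∧ g (j : ZMod m') ∈ Set.range f) := by
    intro j h1 h2 h3
    rcases Nat.lt_or_ge q j with h4 | h4
    · rcases Nat.lt_or_ge j (q + l) with h5 | h5
      · exact hqin j h4 h5 h3.1
      · exact hbmin j h5 h2 h3
    · exact hamax j h1 h4 h3
  have hbam : b < a + m' := by
    by_contra hcon
    obtain ⟨jx, h1, h2, h3⟩ := exists_idx hm' a hxg
    obtain ⟨jy, h4, h5, h6⟩ := exists_idx hm' a hyg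
    have ex : jx = a := by
      by_contra h7
      exact hnot jx (by omega) (by omega) ⟨by rw [h3]; exact hx0, by rw [h3]; exact hxf⟩
    have ey : jy = a := by
      by_contra h7
      exact hnot jy (by omega) (by omega) ⟨by rw [h6]; exact hy0, by rw [h6]; exact hyf⟩
    apply hne
    rw [← h3, ← h6, ex, ey]
  obtain ⟨hba, p, -, hp2, hp3, hp4⟩ := ear_run hW hl hk hF hmo hm' hH.cyc (a := a) (b := b)
    (by omega) hbam (by show c (lf c 1 1 (g (a : ZMod m'))).1.1 = 0; rw [lf_fst]; exact hPa)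
    (by show c (lf c 1 1 (g (b : ZMod m'))).1.1 = 0; rw [lf_fst]; exact hPb)
    (hcom' a hPa hPa') (hcom' b hPb hPb') (fun j h1 h2 h3 => hnot j h1 h2 (hcom j h3))
    (rn_pos (j := q) haq (by omega)
      (by show c (lf c 1 1 (g (q : ZMod m'))).1.1 = 0; rw [lf_fst]; exact hq0)
      (by show c (lf c 1 1 (g ((q + 1 : ℕ) : ZMod m'))).1.1 ≠ 0; rw [lf_fst]; exact hq1))
  have haq' : a = q := by omega
  have hbq' : b = q + l := by omega
  have hp3' : c (f (p : ZMod m)) = 0 := by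
    have h : c (lf c 1 0 (f (p : ZMod m))).1.1 = 0 := hp3
    rwa [lf_fst] at h
  have hp5 : c (f ((p + 1 : ℕ) : ZMod m)) ≠ 0 := by
    intro h
    unfold hn at hp2
    rw [Finset.card_eq_zero] at hp2
    have h1 : p ∈ (∅ : Finset ℕ) := by
      rw [← hp2, Finset.mem_filter, Finset.mem_Ico]
      refine ⟨⟨le_refl _, by omega⟩, hp3, ?_⟩
      show c (lf c 1 0 (f ((p + 1 : ℕ) : ZMod m))).1.1 = 0
      rw [lf_fst]
      exact h
    exact absurd h1 (Finset.notMem_empty _)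
  refine ⟨p, hp3', hp5, ?_⟩
  rw [haq', hbq'] at hp4
  rw [← gq, ← gper l]
  rcases hp4 with ⟨h1, h2⟩ | ⟨h1, h2⟩
  · rw [(lf_inj h1).1, (lf_inj h2).1]
  · rw [(lf_inj h1).1, (lf_inj h2).1]
    exact Sym2.eq_swap

end H46.OE
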