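import Pool.Agent.H46.OE.Len

/-!
# OE.Kea : an ear with a run is a run parallel to a run of f (about 110 lines)

Let `p` be a position of `g a` on `f` and `q` one of `g b` with `p < q < p + m` (`exists_idx (p + 1)`; `q ≠ p + m` because `g a ≠ g b` by `idx_inj`). `seg g a b` is disjoint from `range f` (`hnot`). `τ = b - a = l * rn_g + hn_g` (`len_eq`), `rn_g ≥ 1`. The arcs of `f`: `q - p = l * rn c f p q + hn c f p q` and `p + m - q = l * rn c f q (p + m) + hn ...`.
The numbers `q - p + τ` and `p + m - q + τ` are lengths of cycles (`cyc_of_two` with `seg f p q`, `seg g a b`, and with `seg f q (p + m)`, from `f q` to `f (p + m) = f p`; use `pi_rev` for `seg g a b`), so both are `≤ k` and an even one is `2 l` (`OE`). As `m` is odd one of them is even, say the first: `q - p + τ = 2 l`, so `rn c f p q ≤ 1`; if it is `0` then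
`rn c f q (p + m) = d` (`rn_add`, `rn_per`) and `p + m - q + τ ≥ l d + l > k`, a contradiction. So it is `1`, `rn_g = 1`, both `hn` are `0`: `q = p + l`, `b = a + l`. In the other case the roles of the arcs change: the run goes from `f q = g b` to `f (q + l) = f (p + m) = g a`.
-/

namespace H46.OE

open Pool.Agent.H3.LC H46.CY H46.CZ

variable {V : Type} {G : SimpleGraph V} {c : V → ℕ} {l k d m m' : ℕ} {f : ZMod m → V}
  {g : ZMod m' → V}

theorem ear_run (h : OE G c l k) (hl : 2 ≤ l) (hk : k < (d + 1) * l) (hf : DC G c d f)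
    (hmo : Odd m) (hm' : 3 ≤ m') (hg : IsCyc G g) {a b : ℕ} (hab : a < b) (hb : b < a + m')
    (ha0 : c (g (a : ZMod m')) = 0) (hb0 : c (g (b : ZMod m')) = 0)
    (haf : g (a : ZMod m') ∈ Set.range f) (hbf : g (b : ZMod m') ∈ Set.range f)
    (hnot : ∀ j : ℕ, a < j → j < b → g (j : ZMod m') ∉ Set.range f) (hr : 1 ≤ rn c g a b) :
    b = a + l ∧ ∃ p : ℕ, rn c f p (p + l) = 1 ∧ hn c f p (p + l) = 0 ∧
      c (f (p : ZMod m)) = 0 ∧
      ((f (p : ZMod m) = g (a : ZMod m') ∧ f ((p + l : ℕ) : ZMod m) = g (b : ZMod m')) ∨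
        (f (p : ZMod m) = g (b : ZMod m') ∧ f ((p + l : ℕ) : ZMod m) = g (a : ZMod m'))) := by
  have hm := hf.three
  have hne : g (a : ZMod m') ≠ g (b : ZMod m') := by
    intro e
    have := idx_inj hm' hg e hab.le hb
    omega
  obtain ⟨p, -, -, hp⟩ := exists_idx (f := f) hm 0 haf
  obtain ⟨q, hq1, hq2, hq⟩ := exists_idx (f := f) hm (p + 1) hbf
  have hqp : q ≠ p + m := by
    intro e
    rw [e, cast_per f p, hp] at hq
    exact hne hq
  have hpq : p < q := by omega
  have hqm : q < p + m := by omega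
  have hpp : f ((p + m : ℕ) : ZMod m) = f (p : ZMod m) := cast_per f p
  have cp : c (f (p : ZMod m)) = 0 := by rw [hp]; exact ha0
  have cq : c (f (q : ZMod m)) = 0 := by rw [hq]; exact hb0
  have cpm : c (f ((p + m : ℕ) : ZMod m)) = 0 := by rw [hpp]; exact cp
  have l1 := len_eq h hl hm hf.cyc hpq hqm cp cq
  have l2 := len_eq h hl hm hf.cyc hqm (by omega : p + m < q + m) cq cpm
  have lg := len_eq h hl hm' hg hab hb ha0 hb0
  have ra : rn c f p q + rn c f q (p + m) = d := by
    rw [rn_add hpq.le hqm.le, rn_per, hf.num]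
  have sg := seg_length (f := g) hab
  have s1 := seg_length (f := f) hpq
  have s2 := seg_length (f := f) hqm
  have Pg : PI G (g (a : ZMod m')) (g (b : ZMod m')) (seg g a b) := seg_pi hm' hg hab hb
  have P1 : PI G (f (p : ZMod m)) (f (q : ZMod m)) (seg f p q) := seg_pi hm hf.cyc hpq hqm
  have P2 : PI G (f (q : ZMod m)) (f ((p + m : ℕ) : ZMod m)) (seg f q (p + m)) :=
    seg_pi hm hf.cyc hqm (by omega)
  have hgl : l ≤ b - a := by
    rw [lg]
    calc l = l * 1 := (mul_one l).symm
      _ ≤ l * rn c g a b := Nat.mul_le_mul_left l hr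
      _ ≤ _ := Nat.le_add_right _ _
  have nog : ∀ x ∈ seg g a b, x ∉ Set.range f := by
    intro x hx
    obtain ⟨j, j1, j2, rfl⟩ := seg_mem.1 hx
    exact hnot j j1 j2
  have inr : ∀ {u v : ℕ} (x : V), x ∈ seg f u v → x ∈ Set.range f := by
    intro u v x hx
    obtain ⟨j, -, -, rfl⟩ := seg_mem.1 hx
    exact ⟨_, rfl⟩
  have n1 : q - p + (b - a) ≤ k ∧ (Even (q - p + (b - a)) → q - p + (b - a) = 2 * l) := by
    rw [← hp, ← hq] at Pg
    obtain ⟨F, hF⟩ := cyc_of_two (by rw [hp, hq]; exact hne) P1 Pg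
      (fun x hx hx' => nog x hx' (inr x hx)) (by omega)
    have e : (seg f p q).length + (seg g a b).length + 2 = q - p + (b - a) := by omega
    have h3 : 3 ≤ (seg f p q).length + (seg g a b).length + 2 := by omega
    refine ⟨?_, fun he => ?_⟩
    · rw [← e]; exact h.max _ F h3 hF
    · rw [← e] at he ⊢
      exact h.even _ F h3 hF he
  have n2 : p + m - q + (b - a) ≤ k ∧
      (Even (p + m - q + (b - a)) → p + m - q + (b - a) = 2 * l) := by
    have Pg' := pi_rev Pg
    rw [← hp, ← hq, ← hpp] at Pg'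
    obtain ⟨F, hF⟩ := cyc_of_two (by rw [hpp, hp, hq]; exact hne.symm) P2 Pg'
      (fun x hx hx' => nog x (List.mem_reverse.1 hx') (inr x hx)) (by
        rw [List.length_reverse]; omega)
    have e : (seg f q (p + m)).length + (seg g a b).reverse.length + 2 =
        p + m - q + (b - a) := by rw [List.length_reverse]; omega
    have h3 : 3 ≤ (seg f q (p + m)).length + (seg g a b).reverse.length + 2 := by
      rw [List.length_reverse]; omega
    refine ⟨?_, fun he => ?_⟩
    · rw [← e]; exact h.max _ F h3 hF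
    · rw [← e] at he ⊢
      exact h.even _ F h3 hF he
  obtain ⟨n1k, n1e⟩ := n1
  obtain ⟨n2k, n2e⟩ := n2
  have hpar : Even (q - p + (b - a)) ∨ Even (p + m - q + (b - a)) := by
    by_contra hcon
    rw [not_or, Nat.not_even_iff_odd, Nat.not_even_iff_odd] at hcon
    obtain ⟨⟨u, hu⟩, ⟨v, hv⟩⟩ := hcon
    obtain ⟨w, hw⟩ := hmo
    omega
  generalize hr1 : rn c f p q = r1 at *
  generalize hr2 : rn c f q (p + m) = r2 at *
  generalize hrg : rn c g a b = rg at *
  generalize hh1 : hn c f p q = h1 at *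
  generalize hh2 : hn c f q (p + m) = h2 at *
  generalize hhg : hn c g a b = hG at *
  have key : ∀ {r s x y z : ℕ}, r + s = d → l * r + x + (l * rg + hG) = 2 * l →
      l * s + y + (l * rg + hG) ≤ k → r = 1 ∧ rg = 1 ∧ x = 0 ∧ hG = 0 := by
    intro r s x y z e1 e2 e3
    have r0 : r ≠ 0 := by
      intro r0
      subst r0
      have e4 : s = d := by omega
      subst e4
      have e5 : (s + 1) * l = l * s + l := by ring
      have e6 : l ≤ l * rg := by
        calc l = l * 1 := (mul_one l).symm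
          _ ≤ l * rg := Nat.mul_le_mul_left l hr
      omega
    have e7 : l * (r + rg) ≤ l * 2 := by
      rw [Nat.mul_add]; omega
    have e8 : r + rg ≤ 2 := Nat.le_of_mul_le_mul_left e7 (by omega)
    have e9 : r = 1 := by omega
    have e10 : rg = 1 := by omega
    subst e9
    subst e10
    refine ⟨rfl, rfl, ?_, ?_⟩ <;> omega
  rcases hpar with he | he
  · have e0 := n1e he
    rw [l1, lg] at e0
    rw [l2, lg] at n2k
    obtain ⟨k1, k2, k3, k4⟩ := key (z := 0) ra e0 n2k
    subst k1 k2 k3 k4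
    have eq1 : q = p + l := by omega
    have eq2 : b = a + l := by omega
    refine ⟨eq2, p, ?_, ?_, cp, Or.inl ⟨hp, ?_⟩⟩
    · rw [← eq1]; exact hr1
    · rw [← eq1]; exact hh1
    · rw [← eq1]; exact hq
  · have e0 := n2e he
    rw [l2, lg] at e0
    rw [l1, lg] at n1k
    obtain ⟨k1, k2, k3, k4⟩ := key (z := 0) ((Nat.add_comm _ _).trans ra) e0 n1k
    subst k1 k2 k3 k4
    have eq1 : p + m = q + l := by omega
    have eq2 : b = a + l := by omega
    refine ⟨eq2, q, ?_, ?_, cq, Or.inr ⟨hq, ?_⟩⟩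
    · rw [← eq1]; exact hr2
    · rw [← eq1]; exact hh2
    · rw [← eq1, hpp]; exact hp

end H46.OE
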