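import Pool.Agent.H46.OE.Cnt

/-!
# OE.Len : lengths of arcs and cycles (about 150 lines)

`len_eq`: strong induction on `b - a`. Let `e > a` be the first position with a hub (`Nat.find`, `e ≤ b`). If `e = a + 1`: the step `a` is counted by `hn`. Otherwise `seg f a e` is not empty, its members are not hubs, its ends are different hubs (`idx_inj`), `OE.run` gives `e - a = l`; the step `a` is counted by `rn`, the steps `a < j < e` are not counted. Then `rn_add`, `hn_add`
and the induction hypothesis for `e, b` (if `e < b`). `len_tot`: with the two hubs `a < b < a + m` use `len_eq` for `a, b` and for `b, a + m` (`cast_per`), `rn_add`, `rn_per`. `run_end`: there is another hub `e` with `q < e < q + m` (shift the hubs `a, b` by a multiple of `m`: `exists_idx (q + 1)` for both vertices, at least one of the positions is not `q + m`);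
the first hub after `q` is at `q + l` (as in `len_eq`). `dc_len`, `dc_small`: `len_tot` and `OE.max`: `m = l d + hn ≤ k < (d + 1) l`.
-/

namespace H46.OE

open Pool.Agent.H3.LC H46.CY H46.CZ

variable {V : Type} {G : SimpleGraph V} {c : V → ℕ} {l k d m : ℕ} {f : ZMod m → V}

private theorem first_hub {a b : ℕ} (hab : a < b) (hcb : c (f (b : ZMod m)) = 0) :
    ∃ e : ℕ, a < e ∧ e ≤ b ∧ c (f (e : ZMod m)) = 0 ∧
      ∀ j, a < j → j < e → c (f (j : ZMod m)) ≠ 0 := by
  classical
  have hex : ∃ e : ℕ, a < e ∧ c (f (e : ZMod m)) = 0 := ⟨b, hab, hcb⟩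
  refine ⟨Nat.find hex, (Nat.find_spec hex).1, Nat.find_min' hex ⟨hab, hcb⟩, (Nat.find_spec hex).2, ?_⟩
  intro j h1 h2 h3
  exact Nat.find_min hex h2 ⟨h1, h3⟩

private theorem step (h : OE G c l k) (hm : 3 ≤ m) (hf : IsCyc G f) {a e : ℕ} (hae : a < e)
    (he : e < a + m) (ha : c (f (a : ZMod m)) = 0) (hce : c (f (e : ZMod m)) = 0)
    (hn' : ∀ j, a < j → j < e → c (f (j : ZMod m)) ≠ 0) (h1 : e ≠ a + 1) : e - a = l := by
  have hne : f (a : ZMod m) ≠ f (e : ZMod m) := by
    intro h2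
    have := idx_inj hm hf h2 (by omega) he
    omega
  have h3 := h.run _ _ (seg f a e) hne ha hce (seg_pi hm hf hae he) ?_ ?_
  · rw [seg_length hae] at h3
    exact h3
  · intro h4
    have h5 : f ((a + 1 : ℕ) : ZMod m) ∈ seg f a e := seg_mem.2 ⟨a + 1, by omega, by omega, rfl⟩
    rw [h4] at h5
    exact List.not_mem_nil h5
  · intro v hv
    obtain ⟨j, h4, h5, rfl⟩ := seg_mem.1 hv
    exact hn' j h4 h5

private theorem step_cnt (h : OE G c l k) (hm : 3 ≤ m) (hf : IsCyc G f) {a e : ℕ}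
    (hae : a < e) (he : e < a + m) (ha : c (f (a : ZMod m)) = 0) (hce : c (f (e : ZMod m)) = 0)
    (hn' : ∀ j, a < j → j < e → c (f (j : ZMod m)) ≠ 0) :
    e - a = l * rn c f a e + hn c f a e := by
  by_cases h1 : e = a + 1
  · obtain ⟨h2, h3⟩ := hn_eq_len (c := c) (f := f) (a := a) (b := e) (by
      intro j h4 h5
      rcases (show j = a ∨ j = e by omega) with rfl | rfl
      · exact ha
      · exact hce)
    rw [h2, h3]
    omega
  · have h2 := step h hm hf hae he ha hce hn' h1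
    have h3 : rn c f a e = 1 := by
      unfold rn
      rw [Finset.card_eq_one]
      refine ⟨a, ?_⟩
      ext j
      rw [Finset.mem_filter, Finset.mem_Ico, Finset.mem_singleton]
      constructor
      · rintro ⟨⟨h3, h4⟩, h5, -⟩
        by_contra h6
        exact hn' j (by omega) h4 h5
      · rintro rfl
        exact ⟨⟨le_rfl, hae⟩, ha, hn' (j + 1) (by omega) (by omega)⟩
    have h4 : hn c f a e = 0 := by
      unfold hn
      rw [Finset.card_eq_zero, Finset.filter_eq_empty_iff]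
      rintro j hj ⟨h4, h5⟩
      rw [Finset.mem_Ico] at hj
      by_cases h6 : j = a
      · exact hn' (j + 1) (by omega) (by omega) h5
      · exact hn' j (by omega) hj.2 h4
    rw [h3, h4]
    omega

theorem len_eq (h : OE G c l k) (hl : 2 ≤ l) (hm : 3 ≤ m) (hf : IsCyc G f) {a b : ℕ}
    (hab : a < b) (hb : b < a + m) (ha : c (f (a : ZMod m)) = 0) (hcb : c (f (b : ZMod m)) = 0) :
    b - a = l * rn c f a b + hn c f a b := by
  have _ := hl
  obtain ⟨n, hn0⟩ : ∃ n, n = b - a := ⟨_, rfl⟩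
  induction n using Nat.strong_induction_on generalizing a with
  | _ n ih =>
    obtain ⟨e, h1, h2, h3, h4⟩ := first_hub (c := c) (f := f) hab hcb
    have h5 := step_cnt h hm hf h1 (by omega) ha h3 h4
    rcases h2.eq_or_lt with rfl | h2
    · exact h5
    · have h6 := ih (b - e) (by omega) h2 (by omega) h3 rfl
      have h7 := rn_add (c := c) (f := f) h1.le h2.le
      have h8 := hn_add (c := c) (f := f) h1.le h2.le
      rw [← h7, ← h8, Nat.mul_add]
      omega

theorem len_tot (h : OE G c l k) (hl : 2 ≤ l) (hm : 3 ≤ m) (hf : IsCyc G f)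
    (h2 : ∃ a b : ℕ, a < b ∧ b < a + m ∧ c (f (a : ZMod m)) = 0 ∧ c (f (b : ZMod m)) = 0) :
    m = l * rn c f 0 m + hn c f 0 m := by
  obtain ⟨a, b, hab, hb, ha, hcb⟩ := h2
  have h3 := len_eq h hl hm hf hab hb ha hcb
  have h4 := len_eq h hl hm hf hb (show a + m < b + m by omega) hcb (by rw [cast_per f]; exact ha)
  have h5 := rn_add (c := c) (f := f) hab.le hb.le
  have h6 := hn_add (c := c) (f := f) hab.le hb.le
  rw [rn_per] at h5
  rw [hn_per] at h6
  rw [← h5, ← h6, Nat.mul_add]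
  omega

theorem run_end (h : OE G c l k) (hl : 2 ≤ l) (hm : 3 ≤ m) (hf : IsCyc G f)
    (h2 : ∃ a b : ℕ, a < b ∧ b < a + m ∧ c (f (a : ZMod m)) = 0 ∧ c (f (b : ZMod m)) = 0)
    {q : ℕ} (h0 : c (f (q : ZMod m)) = 0) (h1 : c (f ((q + 1 : ℕ) : ZMod m)) ≠ 0) :
    c (f ((q + l : ℕ) : ZMod m)) = 0 ∧ (∀ j, q < j → j < q + l → c (f (j : ZMod m)) ≠ 0) ∧
      l < m := by
  have _ := hl
  obtain ⟨a, b, hab, hb, ha, hcb⟩ := h2
  obtain ⟨e, he1, he2, he3⟩ : ∃ e : ℕ, q < e ∧ e < q + m ∧ c (f (e : ZMod m)) = 0 := by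
    obtain ⟨i, i1, i2, i3⟩ := exists_idx (f := f) hm (q + 1) (Set.mem_range_self (a : ZMod m))
    obtain ⟨j, j1, j2, j3⟩ := exists_idx (f := f) hm (q + 1) (Set.mem_range_self (b : ZMod m))
    by_cases h3 : i = q + m
    · refine ⟨j, by omega, ?_, by rw [j3]; exact hcb⟩
      by_contra h4
      have h5 : i = j := by omega
      rw [h5] at i3
      rw [i3] at j3
      have := idx_inj hm hf j3 (by omega) hb
      omega
    · exact ⟨i, by omega, by omega, by rw [i3]; exact ha⟩
  obtain ⟨t, t1, t2, t3, t4⟩ := first_hub (c := c) (f := f) he1 he3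
  have h5 : t ≠ q + 1 := by
    rintro rfl
    exact h1 t3
  have h6 := step h hm hf t1 (by omega) h0 t3 t4 h5
  obtain rfl : t = q + l := by omega
  exact ⟨t3, t4, by omega⟩

/-- every vertex outside the hubs is on a run -/
theorem run_start (h : OE G c l k) (hl : 2 ≤ l) (hm : 3 ≤ m) (hf : IsCyc G f)
    (h2 : ∃ a b : ℕ, a < b ∧ b < a + m ∧ c (f (a : ZMod m)) = 0 ∧ c (f (b : ZMod m)) = 0)
    {v : V} (hv : v ∈ Set.range f) (hcv : c v ≠ 0) :
    ∃ q j : ℕ, c (f (q : ZMod m)) = 0 ∧ c (f ((q + 1 : ℕ) : ZMod m)) ≠ 0 ∧ q < j ∧ j < q + l ∧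
      f (j : ZMod m) = v := by
  classical
  have h2' := h2
  obtain ⟨a, b, hab, hb, ha, hcb⟩ := h2'
  obtain ⟨j, j1, j2, j3⟩ := exists_idx (f := f) hm a hv
  have h3 : a ≠ j := by
    rintro rfl
    rw [j3] at ha
    exact hcv ha
  have h4 := Nat.findGreatest_spec (P := fun q : ℕ => c (f (q : ZMod m)) = 0) j1 ha
  have h5 := Nat.findGreatest_le (P := fun q : ℕ => c (f (q : ZMod m)) = 0) j
  have h6 : ∀ i, Nat.findGreatest (fun q : ℕ => c (f (q : ZMod m)) = 0) j < i → i ≤ j →
      ¬ c (f (i : ZMod m)) = 0 := fun i => Nat.findGreatest_is_greatest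
  obtain ⟨q, hq⟩ : ∃ q, q = Nat.findGreatest (fun q : ℕ => c (f (q : ZMod m)) = 0) j := ⟨_, rfl⟩
  rw [← hq] at h4 h5 h6
  have h7 : q ≠ j := by
    rintro rfl
    rw [j3] at h4
    exact hcv h4
  have h8 : c (f ((q + 1 : ℕ) : ZMod m)) ≠ 0 := h6 (q + 1) (by omega) (by omega)
  obtain ⟨r1, r2, r3⟩ := run_end h hl hm hf h2 h4 h8
  refine ⟨q, j, h4, h8, by omega, ?_, j3⟩
  by_contra h9
  exact h6 (q + l) (by omega) (by omega) r1

theorem dc_len (h : OE G c l k) (hl : 2 ≤ l) (hf : DC G c d f) : m = l * d + hn c f 0 m := by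
  have h1 := len_tot h hl hf.three hf.cyc hf.two
  rwa [hf.num] at h1

theorem dc_small (h : OE G c l k) (hl : 2 ≤ l) (hk : k < (d + 1) * l) (hf : DC G c d f) :
    hn c f 0 m < l := by
  have h1 := dc_len h hl hf
  have h2 := h.max m f hf.three hf.cyc
  rw [Nat.add_mul, Nat.one_mul, Nat.mul_comm] at hk
  omega

end H46.OE
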