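import Pool.Agent.H46.OE.Req

/-!
# OE.Mat : runs of two cycles with a common vertex (about 150 lines)

`run_match`: `oe_self` for `G`; `run_start` for `g` and the vertex `v = f (a + 1)` gives a run start `b'` of `g` with `v` among `g (b' + 1), ..., g (b' + l - 1)`; `run_end` for both; `run_eq` for the lists `seg f a (a + l)` and `seg g b' (b' + l)` (`seg_pi`, ends different by `idx_inj`, `l < m`): either the same ends and the same list, or reversed. In both cases compare the members
(`List.ext_getElem` backwards: member number `t` of `seg f a (a + l)` is `f (a + 1 + t)`).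
`edge_same`: `v ∈ e`, `v` not a hub, on `f` and on `g`. `run_start` for `f` and `v`: `v = f j`, `a < j < a + l`, and `run_match` (the vertex `f (a + 1)` is on `g`, because of the run of `g` through `v`: first use `run_eq` as above; it may be easier to prove `run_match` for an arbitrary inner vertex of the run, the hypothesis `hin` is only used for this).
The edge `e` is `s(g t, g (t + 1))` with `v` one of the two; positions `g (b + t)` or `g (b + l - t)`, both neighbours of `v` on `g` are the neighbours on `f`. `ear_hub_all`: the inner vertices of an ear are not on `f`, so they are hubs by `Same`; the ends: the first and the last edge of the ear are not edges of `f` (`CEar.edge`; if `i + 1 < j` the last edge has an end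
which is not on `f`), so by `edge_same` the ends are hubs.
-/

namespace H46.OE

open Pool.Agent.H3.LC H46.CY H46.CZ

variable {V : Type} {L : Finset ℕ} {G : SimpleGraph V} {c : V → ℕ} {l k d d' m m' : ℕ}
  {f : ZMod m → V} {g : ZMod m' → V}

private theorem seg_get {V' : Type} {n : ℕ} (h : ZMod n → V') (a l : ℕ) {t : ℕ} (ht : 0 < t)
    (htl : t < l) : (seg h a (a + l))[t - 1]? = some (h ((a + t : ℕ) : ZMod n)) := by
  unfold seg
  rw [List.getElem?_map, List.getElem?_range (by omega), Option.map_some,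
    show a + 1 + (t - 1) = a + t by omega]

private theorem seg_len {V' : Type} {n : ℕ} (h : ZMod n → V') (a l : ℕ) :
    (seg h a (a + l)).length = l - 1 := by
  unfold seg
  rw [List.length_map, List.length_range]
  omega

theorem run_match (hV : Valid L G c) (hl : 2 ≤ l) (hev : ∀ x ∈ L, Even x → x = 2 * l)
    (hmax : ∀ x ∈ L, x ≤ k) (hf : DC G c d f) (hg : DC G c d' g) {a j : ℕ}
    (h0 : c (f (a : ZMod m)) = 0) (h1 : c (f ((a + 1 : ℕ) : ZMod m)) ≠ 0) (haj : a < j)
    (hjl : j < a + l) (hin : f (j : ZMod m) ∈ Set.range g) :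
    ∃ b : ℕ, c (g (b : ZMod m')) = 0 ∧ c (g ((b + 1 : ℕ) : ZMod m')) ≠ 0 ∧
      ((∀ t ≤ l, f ((a + t : ℕ) : ZMod m) = g ((b + t : ℕ) : ZMod m')) ∨
        ∀ t ≤ l, f ((a + t : ℕ) : ZMod m) = g ((b + (l - t) : ℕ) : ZMod m')) := by
  have h := oe_self hV hev hmax
  obtain ⟨ha1, ha2, ha3⟩ := run_end h hl hf.three hf.cyc hf.two h0 h1
  have hcv := ha2 j haj hjl
  obtain ⟨b, j', hb0, hb1, hbj, hjb, hgj⟩ := run_start h hl hg.three hg.cyc hg.two hin hcv
  obtain ⟨hc1, hc2, hc3⟩ := run_end h hl hg.three hg.cyc hg.two hb0 hb1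
  have hfne : f (a : ZMod m) ≠ f ((a + l : ℕ) : ZMod m) := by
    intro he
    have := idx_inj hf.three hf.cyc he (by omega) (by omega)
    omega
  have hgne : g (b : ZMod m') ≠ g ((b + l : ℕ) : ZMod m') := by
    intro he
    have := idx_inj hg.three hg.cyc he (by omega) (by omega)
    omega
  have hsf := seg_pi hf.three hf.cyc (a := a) (b := a + l) (by omega) (by omega)
  have hsg := seg_pi hg.three hg.cyc (a := b) (b := b + l) (by omega) (by omega)
  have hcf : ∀ v ∈ seg f a (a + l), c v ≠ 0 := by
    intro v hv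
    obtain ⟨i, hi1, hi2, rfl⟩ := seg_mem.1 hv
    exact ha2 i hi1 hi2
  have hcg : ∀ v ∈ seg g b (b + l), c v ≠ 0 := by
    intro v hv
    obtain ⟨i, hi1, hi2, rfl⟩ := seg_mem.1 hv
    exact hc2 i hi1 hi2
  have hmf : f (j : ZMod m) ∈ seg f a (a + l) := seg_mem.2 ⟨j, haj, hjl, rfl⟩
  have hmg : f (j : ZMod m) ∈ seg g b (b + l) := seg_mem.2 ⟨j', hbj, hjb, hgj⟩
  refine ⟨b, hb0, hb1, ?_⟩
  rcases run_eq hV hl hev hfne h0 ha1 hsf hcf hgne hb0 hc1 hsg hcg hmf hmg with
    ⟨e1, e2, e3⟩ | ⟨e1, e2, e3⟩
  · left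
    intro t ht
    rcases Nat.eq_zero_or_pos t with rfl | ht0
    · exact e1.symm
    · rcases Nat.lt_or_ge t l with htl | htl
      · have h2 := congrArg (fun s => s[t - 1]?) e3
        simp only [seg_get g b l ht0 htl, seg_get f a l ht0 htl, Option.some.injEq] at h2
        exact h2.symm
      · have : t = l := by omega
        subst this
        exact e2.symm
  · right
    have key : ∀ t, 0 < t → t < l → g ((b + t : ℕ) : ZMod m') = f ((a + (l - t) : ℕ) : ZMod m) := by
      intro t ht0 htl
      have h2 := congrArg (fun s => s[t - 1]?) e3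
      simp only [seg_get g b l ht0 htl] at h2
      rw [List.getElem?_reverse (by rw [seg_len]; omega), seg_len,
        show l - 1 - 1 - (t - 1) = (l - t) - 1 by omega,
        seg_get f a l (t := l - t) (by omega) (by omega), Option.some.injEq] at h2
      exact h2
    intro t ht
    rcases Nat.eq_zero_or_pos t with rfl | ht0
    · exact e2.symm
    · rcases Nat.lt_or_ge t l with htl | htl
      · have h2 := key (l - t) (by omega) (by omega)
        rw [show l - (l - t) = t by omega] at h2
        exact h2.symm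
      · have : t = l := by omega
        subst this
        rw [Nat.sub_self]
        exact e1.symm

private theorem edge_at {V' : Type} {n : ℕ} {h : ZMod n → V'} (hinj : Function.Injective h)
    {v : V'} {e : Sym2 V'} (he : e ∈ cedges h) (hve : v ∈ e) {N : ℕ} (hN : 1 ≤ N)
    (hv : v = h (N : ZMod n)) :
    e = s(h (N : ZMod n), h ((N + 1 : ℕ) : ZMod n)) ∨
      e = s(h ((N - 1 : ℕ) : ZMod n), h (N : ZMod n)) := by
  obtain ⟨i, rfl⟩ := he
  rcases Sym2.mem_iff.1 hve with h1 | h1
  · left
    have h2 : i = (N : ZMod n) := hinj (h1.symm.trans hv)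
    rw [h2, Nat.cast_add, Nat.cast_one]
  · right
    have h2 : i + 1 = (N : ZMod n) := hinj (h1.symm.trans hv)
    have h3 : i = ((N - 1 : ℕ) : ZMod n) := by
      rw [Nat.cast_sub hN, Nat.cast_one, ← h2, add_sub_cancel_right]
    rw [← h2, h3]

theorem edge_same (hV : Valid L G c) (hl : 2 ≤ l) (hev : ∀ x ∈ L, Even x → x = 2 * l)
    (hmax : ∀ x ∈ L, x ≤ k) (hf : DC G c d f) (hg : DC G c d' g) {v : V} (hcv : c v ≠ 0)
    (hvf : v ∈ Set.range f) {e : Sym2 V} (he : e ∈ cedges g) (hve : v ∈ e) : e ∈ cedges f := by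
  have h := oe_self hV hev hmax
  have hvg : v ∈ Set.range g := by
    obtain ⟨i, rfl⟩ := he
    rcases Sym2.mem_iff.1 hve with h1 | h1
    · exact ⟨i, h1.symm⟩
    · exact ⟨i + 1, h1.symm⟩
  obtain ⟨q, j, hq0, hq1, hqj, hjq, hfj⟩ := run_start h hl hf.three hf.cyc hf.two hvf hcv
  obtain ⟨b, -, -, hb⟩ := run_match hV hl hev hmax hf hg hq0 hq1 hqj hjq (by rw [hfj]; exact hvg)
  obtain ⟨t, rfl⟩ : ∃ t, j = q + t := ⟨j - q, by omega⟩
  have ht0 : 0 < t := by omega
  have htl : t < l := by omega
  rcases hb with hb | hb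
  · have hvt : v = g ((b + t : ℕ) : ZMod m') := by rw [← hfj, hb t htl.le]
    rcases edge_at hg.cyc.1 he hve (N := b + t) (by omega) hvt with h2 | h2
    · rw [h2, show b + t + 1 = b + (t + 1) by omega, ← hb t htl.le, ← hb (t + 1) htl,
        show q + (t + 1) = q + t + 1 by omega]
      exact edge_mem f (q + t)
    · rw [h2, show b + t - 1 = b + (t - 1) by omega, ← hb t htl.le, ← hb (t - 1) (by omega)]
      have h3 := edge_mem f (q + (t - 1))
      rwa [show q + (t - 1) + 1 = q + t by omega] at h3
  · have hvt : v = g ((b + (l - t) : ℕ) : ZMod m') := by rw [← hfj, hb t htl.le]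
    rcases edge_at hg.cyc.1 he hve (N := b + (l - t)) (by omega) hvt with h2 | h2
    · rw [h2, show b + (l - t) + 1 = b + (l - (t - 1)) by omega, ← hb t htl.le,
        ← hb (t - 1) (by omega), Sym2.eq_swap]
      have h3 := edge_mem f (q + (t - 1))
      rwa [show q + (t - 1) + 1 = q + t by omega] at h3
    · rw [h2, show b + (l - t) - 1 = b + (l - (t + 1)) by omega, ← hb t htl.le,
        ← hb (t + 1) htl, Sym2.eq_swap, show q + (t + 1) = q + t + 1 by omega]
      exact edge_mem f (q + t)

theorem ear_hub_all (hV : Valid L G c) (hl : 2 ≤ l) (hev : ∀ x ∈ L, Even x → x = 2 * l)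
    (hmax : ∀ x ∈ L, x ≤ k) (hf : DC G c d f) (hg : DC G c d' g) (hs : Same c f g) {i j : ℕ}
    (he : CEar f g i j) : ∀ t, i ≤ t → t ≤ j → c (g (t : ZMod m')) = 0 := by
  intro t hit htj
  by_contra hne
  rcases Nat.eq_or_lt_of_le hit with h1 | h1
  · subst h1
    exact he.edge (edge_same hV hl hev hmax hf hg hne he.fi (edge_mem g i) (Sym2.mem_mk_left _ _))
  · rcases Nat.eq_or_lt_of_le htj with h2 | h2
    · subst h2
      have h3 := edge_mem g (t - 1)
      rw [show t - 1 + 1 = t by omega] at h3
      have h4 := edge_same hV hl hev hmax hf hg hne he.fj h3 (Sym2.mem_mk_right _ _)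
      rcases Nat.eq_or_lt_of_le (Nat.le_sub_one_of_lt h1) with h5 | h5
      · apply he.edge
        have e1 : t - 1 = i := h5.symm
        have e2 : i + 1 = t := by omega
        rw [e1] at h4
        rw [e2]
        exact h4
      · apply he.out (t - 1) h5 (by omega)
        obtain ⟨x, hx⟩ := h4
        have h6 : g ((t - 1 : ℕ) : ZMod m') ∈ s(f x, f (x + 1)) := by
          rw [← hx]
          exact Sym2.mem_mk_left _ _
        rcases Sym2.mem_iff.1 h6 with h7 | h7
        · exact ⟨x, h7.symm⟩
        · exact ⟨x + 1, h7.symm⟩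
    · exact he.out t h1 h2 ((hs _ hne).2 ⟨_, rfl⟩)

end H46.OE
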