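import Pool.Agent.H46.OE.Mat

/-!
# OE.Nor : cutting both cycles at the same run (about 200 lines)

`a` is a run start of `f`; by `Same` the vertex `f (a + 1)` is on `g`, `run_match` gives `b` with `f (a + t) = g (b + t)` for all `t ≤ l` (first case) or `f (a + t) = g (b + (l - t))` (second case). `f' x = f (a + x)`; in the first case `g' x = g (b + x)`, in the second case `g' x = g (b + l - x)` (`cyc_rot`, `cyc_ref`, `cedges_rot`, `cedges_ref`; the numbers of runs: for the rotation
`rn_congr` and `rn_per`; for the reflection the number of runs is the same because `len_tot` gives `m' = l * rn + hn` for both and `hn` counts the edges of the cycle with both ends hubs, which does not depend on the orientation).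
-/

namespace H46.OE

open Pool.Agent.H3.LC H46.CY H46.CZ

variable {V : Type} {L : Finset ℕ} {G : SimpleGraph V} {c : V → ℕ} {l k d m m' : ℕ}
  {f : ZMod m → V} {g : ZMod m' → V}

private theorem two_iff (hm : 3 ≤ m) (f : ZMod m → V) :
    (∃ a b : ℕ, a < b ∧ b < a + m ∧ c (f (a : ZMod m)) = 0 ∧ c (f (b : ZMod m)) = 0) ↔
      ∃ x y : ZMod m, x ≠ y ∧ c (f x) = 0 ∧ c (f y) = 0 := by
  have : NeZero m := ⟨by omega⟩
  constructor
  · rintro ⟨a, b, hab, hb, ha, hcb⟩
    refine ⟨a, b, ?_, ha, hcb⟩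
    intro h2
    have h3 := (Nat.modEq_iff_dvd' hab.le).1 ((ZMod.natCast_eq_natCast_iff a b m).1 h2)
    have h4 := Nat.eq_zero_of_dvd_of_lt h3 (by omega)
    omega
  · rintro ⟨x, y, hxy, hx, hy⟩
    have h1 := ZMod.val_lt x
    have h2 := ZMod.val_lt y
    have h3 : x.val ≠ y.val := fun h => hxy (ZMod.val_injective m h)
    rcases lt_or_gt_of_ne h3 with h4 | h4
    · exact ⟨x.val, y.val, h4, by omega, by rw [ZMod.natCast_zmod_val]; exact hx,
        by rw [ZMod.natCast_zmod_val]; exact hy⟩
    · exact ⟨y.val, x.val, h4, by omega, by rw [ZMod.natCast_zmod_val]; exact hy,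
        by rw [ZMod.natCast_zmod_val]; exact hx⟩

private theorem hn_univ [NeZero m] (f : ZMod m → V) :
    hn c f 0 m = (Finset.univ.filter fun x : ZMod m => c (f x) = 0 ∧ c (f (x + 1)) = 0).card := by
  unfold hn
  refine Finset.card_nbij' (fun j => (j : ZMod m)) (fun x => x.val) ?_ ?_ ?_ ?_
  · intro j hj
    simp only [Finset.coe_filter, Finset.mem_Ico, Set.mem_ofPred_eq, Finset.mem_univ,
      true_and] at hj ⊢
    have h2 := hj.2
    rw [Nat.cast_add, Nat.cast_one] at h2
    exact h2
  · intro x hx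
    simp only [Finset.coe_filter, Finset.mem_Ico, Set.mem_ofPred_eq, Finset.mem_univ,
      true_and] at hx ⊢
    refine ⟨⟨Nat.zero_le _, ZMod.val_lt x⟩, ?_⟩
    rw [Nat.cast_add, Nat.cast_one, ZMod.natCast_zmod_val]
    exact hx
  · intro j hj
    simp only [Finset.coe_filter, Finset.mem_Ico, Set.mem_ofPred_eq] at hj
    exact ZMod.val_cast_of_lt hj.1.2
  · intro x _
    exact ZMod.natCast_zmod_val x

private theorem dc_rot (hf : DC G c d f) (p : ℕ) : DC G c d fun i => f ((p : ZMod m) + i) := by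
  refine ⟨hf.three, cyc_rot hf.cyc _, ?_, ?_⟩
  · rw [rn_congr (c := c) (f := fun i => f ((p : ZMod m) + i)) (c' := c) (g := f) (t := p)
      (fun j _ _ => by rw [Nat.cast_add]), Nat.add_zero, rn_per, hf.num]
  · have h1 := (two_iff (c := c) hf.three f).1 hf.two
    obtain ⟨x, y, hxy, hx, hy⟩ := h1
    refine (two_iff (c := c) hf.three fun i => f ((p : ZMod m) + i)).2
      ⟨x - p, y - p, fun h => hxy (sub_left_injective h), ?_, ?_⟩
    · rw [add_sub_cancel]; exact hx
    · rw [add_sub_cancel]; exact hy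

private theorem dc_ref (hE : OE G c l k) (hl : 2 ≤ l) (hf : DC G c d f) (p : ZMod m) :
    DC G c d fun i => f (p - i) := by
  have : NeZero m := ⟨by have := hf.three; omega⟩
  have h2 : ∃ a b : ℕ, a < b ∧ b < a + m ∧ c ((fun i => f (p - i)) (a : ZMod m)) = 0 ∧
      c ((fun i => f (p - i)) (b : ZMod m)) = 0 := by
    obtain ⟨x, y, hxy, hx, hy⟩ := (two_iff (c := c) hf.three f).1 hf.two
    refine (two_iff hf.three fun i => f (p - i)).2
      ⟨p - x, p - y, fun h => hxy (sub_right_injective h), ?_, ?_⟩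
    · rw [sub_sub_cancel]; exact hx
    · rw [sub_sub_cancel]; exact hy
  refine ⟨hf.three, cyc_ref hf.cyc _, ?_, h2⟩
  have h3 := len_tot hE hl hf.three (cyc_ref hf.cyc p) h2
  have h4 := len_tot hE hl hf.three hf.cyc hf.two
  have h5 : hn c (fun i => f (p - i)) 0 m = hn c f 0 m := by
    rw [hn_univ, hn_univ]
    refine Finset.card_nbij' (fun x => p - x - 1) (fun x => p - x - 1) ?_ ?_ ?_ ?_
    · intro x hx
      simp only [Finset.coe_filter, Finset.mem_univ, true_and, Set.mem_ofPred_eq] at hx ⊢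
      refine ⟨?_, ?_⟩
      · rw [sub_sub]; exact hx.2
      · rw [sub_add_cancel]; exact hx.1
    · intro x hx
      simp only [Finset.coe_filter, Finset.mem_univ, true_and, Set.mem_ofPred_eq] at hx ⊢
      refine ⟨?_, ?_⟩
      · rw [show p - (p - x - 1) = x + 1 by ring]; exact hx.2
      · rw [show p - (p - x - 1 + 1) = x by ring]; exact hx.1
    · intro x _
      change p - (p - x - 1) - 1 = x
      ring
    · intro x _
      change p - (p - x - 1) - 1 = x
      ring
  rw [← hf.num]
  rw [h5] at h3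
  have h6 : l * rn c (fun i => f (p - i)) 0 m = l * rn c f 0 m := by omega
  exact Nat.eq_of_mul_eq_mul_left (by omega) h6

private theorem ear_pos {i j : ℕ} (he : CEar f g i j) (hi : i < m')
    (h0 : s(g ((0 : ℕ) : ZMod m'), g ((1 : ℕ) : ZMod m')) ∈ cedges f) : 1 ≤ i ∧ j ≤ m' := by
  constructor
  · by_contra h
    have h1 : i = 0 := by omega
    subst h1
    exact he.edge h0
  · by_contra h
    apply he.out m' hi (by omega)
    rw [ZMod.natCast_self, ← Nat.cast_zero]
    obtain ⟨x, hx⟩ := h0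
    have h1 : g ((0 : ℕ) : ZMod m') ∈ s(f x, f (x + 1)) := by
      rw [← hx]
      exact Sym2.mem_mk_left _ _
    rcases Sym2.mem_iff.1 h1 with h2 | h2
    · exact ⟨x, h2.symm⟩
    · exact ⟨x + 1, h2.symm⟩

private theorem last_edge {i j : ℕ} (he : CEar f g i j) :
    s(g (j : ZMod m'), g ((j - 1 : ℕ) : ZMod m')) ∉ cedges f := by
  have hlt := he.lt
  rcases Nat.eq_or_lt_of_le (Nat.le_sub_one_of_lt hlt) with h1 | h1
  · have h2 := he.edge
    rw [← h1, Sym2.eq_swap, show j = i + 1 by omega]
    exact h2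
  · rintro ⟨x, hx⟩
    apply he.out (j - 1) h1 (by omega)
    have h6 : g ((j - 1 : ℕ) : ZMod m') ∈ s(f x, f (x + 1)) := by
      rw [← hx]
      exact Sym2.mem_mk_right _ _
    rcases Sym2.mem_iff.1 h6 with h7 | h7
    · exact ⟨x, h7.symm⟩
    · exact ⟨x + 1, h7.symm⟩

private theorem range_rot (f : ZMod m → V) (p : ZMod m) :
    Set.range (fun i => f (p + i)) = Set.range f := by
  ext v
  constructor
  · rintro ⟨x, rfl⟩
    exact ⟨_, rfl⟩
  · rintro ⟨x, rfl⟩
    exact ⟨x - p, by change f (p + (x - p)) = f x; rw [add_sub_cancel]⟩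

private theorem range_ref (f : ZMod m → V) (p : ZMod m) :
    Set.range (fun i => f (p - i)) = Set.range f := by
  ext v
  constructor
  · rintro ⟨x, rfl⟩
    exact ⟨_, rfl⟩
  · rintro ⟨x, rfl⟩
    exact ⟨p - x, by change f (p - (p - x)) = f x; rw [sub_sub_cancel]⟩

theorem normal (hV : Valid L G c) (hl : 2 ≤ l) (hev : ∀ x ∈ L, Even x → x = 2 * l)
    (hmax : ∀ x ∈ L, x ≤ k) (hf : DC G c d f) (hg : DC G c d g) (hs : Same c f g) {i j : ℕ}
    (he : CEar f g i j) {a : ℕ} (h0 : c (f (a : ZMod m)) = 0)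
    (h1 : c (f ((a + 1 : ℕ) : ZMod m)) ≠ 0) :
    ∃ (f' : ZMod m → V) (g' : ZMod m' → V), DC G c d f' ∧ DC G c d g' ∧ cedges f' = cedges f ∧
      cedges g' = cedges g ∧ (∀ t : ℕ, f' (t : ZMod m) = f ((a + t : ℕ) : ZMod m)) ∧
      (∀ t : ℕ, t ≤ l → f' (t : ZMod m) = g' (t : ZMod m')) ∧ Same c f' g' ∧
      ∃ i' j' : ℕ, CEar f' g' i' j' ∧ 1 ≤ i' ∧ j' ≤ m' ∧ j' - i' = j - i ∧
        ((g' (i' : ZMod m') = g (i : ZMod m') ∧ g' (j' : ZMod m') = g (j : ZMod m')) ∨
          (g' (i' : ZMod m') = g (j : ZMod m') ∧ g' (j' : ZMod m') = g (i : ZMod m'))) := by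
  have hE := oe_self hV hev hmax
  have : NeZero m' := ⟨by have := hg.three; omega⟩
  have hlt := he.lt
  obtain ⟨b, -, -, hb⟩ := run_match hV hl hev hmax hf hg h0 h1 (Nat.lt_succ_self a) (by omega)
    ((hs _ h1).1 ⟨_, rfl⟩)
  have hea : s(f (a : ZMod m), f ((a + 1 : ℕ) : ZMod m)) ∈ cedges f := edge_mem f a
  rcases hb with hb | hb
  · obtain ⟨i', hi', hlt'⟩ : ∃ i' : ℕ, (i' : ZMod m') = (i : ZMod m') - b ∧ i' < m' :=
      ⟨((i : ZMod m') - b).val, ZMod.natCast_zmod_val _, ZMod.val_lt _⟩
    have key : ∀ s : ℕ, (b : ZMod m') + ((i' + s : ℕ) : ZMod m') = ((i + s : ℕ) : ZMod m') := by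
      intro s
      rw [Nat.cast_add, Nat.cast_add, hi']
      ring
    have hear : CEar (fun x => f ((a : ZMod m) + x)) (fun x => g ((b : ZMod m') + x)) i'
        (i' + (j - i)) := by
      refine ⟨by omega, by have := he.le; omega, ?_, ?_, ?_, ?_⟩
      · rw [range_rot]
        have := key 0
        simp only [Nat.add_zero] at this
        change g ((b : ZMod m') + (i' : ZMod m')) ∈ _
        rw [this]
        exact he.fi
      · rw [range_rot]
        change g ((b : ZMod m') + ((i' + (j - i) : ℕ) : ZMod m')) ∈ _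
        rw [key, show i + (j - i) = j by omega]
        exact he.fj
      · intro t ht1 ht2
        obtain ⟨s, rfl⟩ : ∃ s, t = i' + s := ⟨t - i', by omega⟩
        rw [range_rot]
        change g ((b : ZMod m') + ((i' + s : ℕ) : ZMod m')) ∉ _
        rw [key]
        exact he.out _ (by omega) (by omega)
      · rw [cedges_rot]
        have h2 := key 0
        simp only [Nat.add_zero] at h2
        change s(g ((b : ZMod m') + (i' : ZMod m')), g ((b : ZMod m') + ((i' + 1 : ℕ) : ZMod m')))
          ∉ _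
        rw [h2, key]
        exact he.edge
    have hst : s(g ((b : ZMod m') + ((0 : ℕ) : ZMod m')), g ((b : ZMod m') + ((1 : ℕ) : ZMod m')))
        ∈ cedges (fun x => f ((a : ZMod m) + x)) := by
      rw [cedges_rot]
      have e0 := hb 0 (by omega)
      have e1 := hb 1 (by omega)
      rw [← Nat.cast_add, ← Nat.cast_add, ← e0, ← e1]
      exact hea
    obtain ⟨p1, p2⟩ := ear_pos hear hlt' hst
    refine ⟨fun x => f ((a : ZMod m) + x), fun x => g ((b : ZMod m') + x), dc_rot hf a,
      dc_rot hg b, cedges_rot f _, cedges_rot g _, ?_, ?_, ?_, i', i' + (j - i), hear, p1, p2,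
      by omega, Or.inl ⟨?_, ?_⟩⟩
    · intro t
      rw [Nat.cast_add]
    · intro t ht
      change f ((a : ZMod m) + (t : ZMod m)) = g ((b : ZMod m') + (t : ZMod m'))
      rw [← Nat.cast_add, ← Nat.cast_add]
      exact hb t ht
    · intro v hv
      rw [range_rot, range_rot]
      exact hs v hv
    · change g ((b : ZMod m') + (i' : ZMod m')) = _
      have := key 0
      simp only [Nat.add_zero] at this
      rw [this]
    · change g ((b : ZMod m') + ((i' + (j - i) : ℕ) : ZMod m')) = _
      rw [key, show i + (j - i) = j by omega]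
  · obtain ⟨i', hi', hlt'⟩ : ∃ i' : ℕ, (i' : ZMod m') = ((b + l : ℕ) : ZMod m') - j ∧ i' < m' :=
      ⟨(((b + l : ℕ) : ZMod m') - j).val, ZMod.natCast_zmod_val _, ZMod.val_lt _⟩
    have key : ∀ s : ℕ, s ≤ j → ((b + l : ℕ) : ZMod m') - ((i' + s : ℕ) : ZMod m') =
        ((j - s : ℕ) : ZMod m') := by
      intro s hs
      rw [Nat.cast_add i' s, hi', Nat.cast_sub hs]
      ring
    have key0 : ((b + l : ℕ) : ZMod m') - (i' : ZMod m') = (j : ZMod m') := by
      rw [hi', sub_sub_cancel]
    have hear : CEar (fun x => f ((a : ZMod m) + x)) (fun x => g (((b + l : ℕ) : ZMod m') - x)) i'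
        (i' + (j - i)) := by
      refine ⟨by omega, by have := he.le; omega, ?_, ?_, ?_, ?_⟩
      · rw [range_rot]
        change g (((b + l : ℕ) : ZMod m') - (i' : ZMod m')) ∈ _
        rw [key0]
        exact he.fj
      · rw [range_rot]
        change g (((b + l : ℕ) : ZMod m') - ((i' + (j - i) : ℕ) : ZMod m')) ∈ _
        rw [key _ (by omega), show j - (j - i) = i by omega]
        exact he.fi
      · intro t ht1 ht2
        obtain ⟨s, rfl⟩ : ∃ s, t = i' + s := ⟨t - i', by omega⟩
        rw [range_rot]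
        change g (((b + l : ℕ) : ZMod m') - ((i' + s : ℕ) : ZMod m')) ∉ _
        rw [key _ (by omega)]
        exact he.out _ (by omega) (by omega)
      · rw [cedges_rot]
        change s(g (((b + l : ℕ) : ZMod m') - (i' : ZMod m')),
          g (((b + l : ℕ) : ZMod m') - ((i' + 1 : ℕ) : ZMod m'))) ∉ _
        rw [key0, key 1 (by omega)]
        exact last_edge he
    have hst : s(g (((b + l : ℕ) : ZMod m') - ((0 : ℕ) : ZMod m')),
        g (((b + l : ℕ) : ZMod m') - ((1 : ℕ) : ZMod m'))) ∈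
        cedges (fun x => f ((a : ZMod m) + x)) := by
      rw [cedges_rot]
      have e0 := hb 0 (by omega)
      have e1 := hb 1 (by omega)
      rw [← Nat.cast_sub (Nat.zero_le _), ← Nat.cast_sub (by omega : 1 ≤ b + l),
        show b + l - 0 = b + (l - 0) by omega, show b + l - 1 = b + (l - 1) by omega, ← e0, ← e1]
      exact hea
    obtain ⟨p1, p2⟩ := ear_pos hear hlt' hst
    refine ⟨fun x => f ((a : ZMod m) + x), fun x => g (((b + l : ℕ) : ZMod m') - x), dc_rot hf a,
      dc_ref hE hl hg _, cedges_rot f _, cedges_ref g _, ?_, ?_, ?_, i', i' + (j - i), hear, p1,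
      p2, by omega, Or.inr ⟨?_, ?_⟩⟩
    · intro t
      rw [Nat.cast_add]
    · intro t ht
      change f ((a : ZMod m) + (t : ZMod m)) = g (((b + l : ℕ) : ZMod m') - (t : ZMod m'))
      rw [← Nat.cast_add, ← Nat.cast_sub (by omega), show b + l - t = b + (l - t) by omega]
      exact hb t ht
    · intro v hv
      rw [range_rot, range_ref]
      exact hs v hv
    · change g (((b + l : ℕ) : ZMod m') - (i' : ZMod m')) = _
      rw [key0]
    · change g (((b + l : ℕ) : ZMod m') - ((i' + (j - i) : ℕ) : ZMod m')) = _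
      rw [key _ (by omega), show j - (j - i) = i by omega]

end H46.OE
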