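import Pool.Agent.H46.OE.Seg

/-!
# OE.Par : parity of the positions (about 150 lines)

Only injectivity is used. Claim A: if `1 ≤ t ≤ i₀`, `g t ∈ range f`, `1 ≤ P ≤ m`, `f P = g t` then `P + t` is even. Strong induction on `t`. `t = 1`: `g 1 = f 1`, `P = 1`. Let `t ≥ 2` and let `t' < t` be the largest position `≥ 1` with `g t' ∈ range f` (`1` is one), `P'` its position in `[1, m]`. If `t' = t - 1` and `s(g t', g t) ∈ cedges f`: `edge_idx` for the smaller and the
larger of `P, P'`: they differ by one (then `P + P'` is odd), or `{P, P'} = {1, m}`: then `g t', g t` are `f 1 = g 1` and `f m = f 0 = g 0`, impossible as `2 ≤ t ≤ i₀ < m'` (`idx_inj`). Otherwise `CEar f g t' t` (if `t' < t - 1` then `g (t' + 1)` is not on `f`), `(t', t) ≠ (i₀, j₀)` because `t ≤ i₀ < j₀`, and `hall`. Claim B: the same for `j₀ ≤ t ≤ m'`, by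
induction on `m' - t`: `t = m'`: `g m' = g 0 = f 0 = f m`, `P = m`, `m + m'` is even. Step: the smallest position `t' > t` with `g t' ∈ range f`. Then `P + i₀` and `Q + j₀` are even.
-/

namespace H46.OE

open Pool.Agent.H3.LC H46.CY H46.CZ

variable {V : Type} {G : SimpleGraph V} {m m' : ℕ} {f : ZMod m → V} {g : ZMod m' → V}

private theorem not_edge {x y : V} (h : y ∉ Set.range f) : s(x, y) ∉ cedges f := by
  rintro ⟨i, hi⟩
  rw [Sym2.eq_iff] at hi
  rcases hi with ⟨-, h2⟩ | ⟨-, h2⟩
  · exact h ⟨i + 1, h2.symm⟩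
  · exact h ⟨i, h2.symm⟩

private theorem par_aux (hm : 3 ≤ m) (hf : IsCyc G f) {x y : V} {P P' : ℕ} (hP : 1 ≤ P)
    (hPm : P ≤ m) (hP' : 1 ≤ P') (hPm' : P' ≤ m) (hPx : f (P : ZMod m) = x)
    (hPy : f (P' : ZMod m) = y) (hxy : x ≠ y) (he : s(x, y) ∈ cedges f) (hx0 : x = f 0 → y ≠ f 1)
    (hy0 : y = f 0 → x ≠ f 1) : P = P' + 1 ∨ P' = P + 1 := by
  have hm0 : f ((m : ℕ) : ZMod m) = f 0 := by rw [ZMod.natCast_self]
  have hm1 : f ((1 : ℕ) : ZMod m) = f 1 := by rw [Nat.cast_one]
  have hne : P ≠ P' := by
    rintro rfl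
    exact hxy (hPx.symm.trans hPy)
  rcases Nat.lt_or_gt_of_ne hne with h | h
  · rw [← hPx, ← hPy] at he
    rcases edge_idx hm hf h (by omega) he with h1 | h1
    · exact Or.inr h1
    · exfalso
      have h2 : P' = m := by omega
      have h3 : P = 1 := by omega
      subst h2 h3
      exact hy0 (hPy.symm.trans hm0) (hPx.symm.trans hm1)
  · rw [Sym2.eq_swap, ← hPx, ← hPy] at he
    rcases edge_idx hm hf h (by omega) he with h1 | h1
    · exact Or.inl h1
    · exfalso
      have h2 : P = m := by omega
      have h3 : P' = 1 := by omega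
      subst h2 h3
      exact hx0 (hPx.symm.trans hm0) (hPy.symm.trans hm1)

theorem par (hm : 3 ≤ m) (hm' : 3 ≤ m') (hf : IsCyc G f) (hg : IsCyc G g) (hmo : Odd m)
    (hmo' : Odd m') (h0 : f 0 = g 0) (h1 : f 1 = g 1) {i₀ j₀ : ℕ} (hi₀ : 1 ≤ i₀) (hj₀ : j₀ ≤ m')
    (he : CEar f g i₀ j₀)
    (hall : ∀ i j P Q : ℕ, CEar f g i j → 1 ≤ i → j ≤ m' → (i, j) ≠ (i₀, j₀) → 1 ≤ P → P ≤ m →
      1 ≤ Q → Q ≤ m → f (P : ZMod m) = g (i : ZMod m') → f (Q : ZMod m) = g (j : ZMod m') →
      Even (P + Q + i + j)) {P Q : ℕ} (hP : 1 ≤ P) (hPm : P ≤ m) (hQ : 1 ≤ Q) (hQm : Q ≤ m)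
    (hPi : f (P : ZMod m) = g (i₀ : ZMod m')) (hQj : f (Q : ZMod m) = g (j₀ : ZMod m')) :
    Even (P + Q + i₀ + j₀) := by
  classical
  have hlt := he.lt
  have hg0 : g ((0 : ℕ) : ZMod m') = f 0 := by rw [Nat.cast_zero, h0]
  have hg1 : g ((1 : ℕ) : ZMod m') = f 1 := by rw [Nat.cast_one, h1]
  have hgm : g ((m' : ℕ) : ZMod m') = f 0 := by rw [ZMod.natCast_self, h0]
  have A : ∀ t : ℕ, 1 ≤ t → t ≤ i₀ → ∀ P : ℕ, 1 ≤ P → P ≤ m →
      f (P : ZMod m) = g (t : ZMod m') → Even (P + t) := by
    intro t
    induction t using Nat.strong_induction_on with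
    | _ t ih =>
      intro ht1 hti P hP hPm hPt
      rcases Nat.lt_or_ge t 2 with ht | ht
      · have ht' : t = 1 := by omega
        subst ht'
        have h2 : f ((1 : ℕ) : ZMod m) = f (P : ZMod m) := by rw [hPt, hg1, Nat.cast_one]
        have h3 := idx_inj hm hf h2 hP (by omega)
        rw [← h3]
        exact ⟨1, rfl⟩
      · set t' := Nat.findGreatest (fun s => g (s : ZMod m') ∈ Set.range f) (t - 1) with ht'
        have hin1 : g ((1 : ℕ) : ZMod m') ∈ Set.range f := ⟨1, hg1.symm⟩
        have k1 : 1 ≤ t' := Nat.le_findGreatest (by omega) hin1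
        have k2 : t' ≤ t - 1 := Nat.findGreatest_le _
        have k3 : g (t' : ZMod m') ∈ Set.range f :=
          Nat.findGreatest_spec (P := fun s : ℕ => g (s : ZMod m') ∈ Set.range f)
            (show 1 ≤ t - 1 by omega) hin1
        have k4 : ∀ s : ℕ, t' < s → s < t → g (s : ZMod m') ∉ Set.range f := by
          intro s hs hst
          exact Nat.findGreatest_is_greatest (P := fun s : ℕ => g (s : ZMod m') ∈ Set.range f) hs
            (by omega)
        obtain ⟨P', hP'1, hP'm, hP't⟩ := exists_idx hm 1 k3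
        have hev := ih t' (by omega) k1 (by omega) P' hP'1 (by omega) hP't
        have hne : g (t : ZMod m') ≠ g (t' : ZMod m') := by
          intro h
          have := idx_inj hm' hg h.symm (by omega) (by omega)
          omega
        by_cases hc : t' + 1 = t ∧ s(g (t' : ZMod m'), g (t : ZMod m')) ∈ cedges f
        · have h5 := par_aux hm hf hP hPm hP'1 (by omega) hPt hP't hne
            (by rw [Sym2.eq_swap]; exact hc.2) (fun h _ => by
              rw [← hg0] at h
              have := idx_inj hm' hg h.symm (by omega) (by omega)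
              omega) (fun h _ => by
              rw [← hg0] at h
              have := idx_inj hm' hg h.symm (by omega) (by omega)
              omega)
          rw [Nat.even_iff] at hev ⊢
          omega
        · have hear : CEar f g t' t := by
            refine ⟨by omega, by omega, k3, ⟨_, hPt⟩, k4, ?_⟩
            by_cases h6 : t' + 1 = t
            · rw [h6]
              exact fun h7 => hc ⟨h6, h7⟩
            · exact not_edge (k4 (t' + 1) (by omega) (by omega))
          have h8 := hall t' t P' P hear k1 (by omega) (fun h => by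
            have h9 := congrArg Prod.snd h
            change t = j₀ at h9
            omega) hP'1 (by omega) hP hPm hP't hPt
          rw [Nat.even_iff] at hev h8 ⊢
          omega
  have B : ∀ d t : ℕ, t + d = m' → j₀ ≤ t → ∀ P : ℕ, 1 ≤ P → P ≤ m →
      f (P : ZMod m) = g (t : ZMod m') → Even (P + t) := by
    intro d
    induction d using Nat.strong_induction_on with
    | _ d ih =>
      intro t htd htj P hP hPm hPt
      rcases Nat.eq_zero_or_pos d with hd | hd
      · have ht : t = m' := by omega
        subst ht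
        have h2 : f (P : ZMod m) = f ((m : ℕ) : ZMod m) := by rw [hPt, hgm, ZMod.natCast_self]
        have h3 := idx_inj hm hf h2 hPm (by omega)
        rw [h3]
        exact hmo.add_odd hmo'
      · have hex : ∃ s : ℕ, t < s ∧ g (s : ZMod m') ∈ Set.range f := ⟨m', by omega, 0, hgm.symm⟩
        set t' := Nat.find hex with ht'
        obtain ⟨k1, k3⟩ := Nat.find_spec hex
        rw [← ht'] at k1 k3
        have k2 : t' ≤ m' := Nat.find_min' hex ⟨by omega, 0, hgm.symm⟩
        have k4 : ∀ s : ℕ, t < s → s < t' → g (s : ZMod m') ∉ Set.range f := by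
          intro s hs hst h
          exact Nat.find_min hex hst ⟨hs, h⟩
        obtain ⟨P', hP'1, hP'm, hP't⟩ := exists_idx hm 1 k3
        have hev := ih (m' - t') (by omega) t' (by omega) (by omega) P' hP'1 (by omega) hP't
        have hne : g (t : ZMod m') ≠ g (t' : ZMod m') := by
          intro h
          have := idx_inj hm' hg h (by omega) (by omega)
          omega
        by_cases hc : t + 1 = t' ∧ s(g (t : ZMod m'), g (t' : ZMod m')) ∈ cedges f
        · have h5 := par_aux hm hf hP hPm hP'1 (by omega) hPt hP't hne hc.2 (fun h _ => by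
              rw [← hgm] at h
              have := idx_inj hm' hg h (by omega) (by omega)
              omega) (fun _ h => by
              rw [← hg1] at h
              have := idx_inj hm' hg h.symm (by omega) (by omega)
              omega)
          rw [Nat.even_iff] at hev ⊢
          omega
        · have hear : CEar f g t t' := by
            refine ⟨by omega, by omega, ⟨_, hPt⟩, k3, k4, ?_⟩
            by_cases h6 : t + 1 = t'
            · rw [h6]
              exact fun h7 => hc ⟨h6, h7⟩
            · exact not_edge (k4 (t + 1) (by omega) (by omega))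
          have h8 := hall t t' P P' hear (by omega) k2 (fun h => by
            have h9 := congrArg Prod.fst h
            change t = i₀ at h9
            omega) hP hPm hP'1 (by omega) hPt hP't
          rw [Nat.even_iff] at hev h8 ⊢
          omega
  have e1 := A i₀ hi₀ le_rfl P hP hPm hPi
  have e2 := B (m' - j₀) j₀ (by omega) le_rfl Q hQ hQm hQj
  rw [Nat.even_iff] at e1 e2 ⊢
  omega

end H46.OE
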