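import Pool.Agent.H46.OE.Blo

/-!
# OE.Req : two runs with a common vertex are equal (about 130 lines)

Let `v` be in `s` and in `s'`. Claim: `x' ∈ {x, y}` and `y' ∈ {x, y}`. Suppose the hub `z = x'` (or `y'`; reverse `s'`) is not in `{x, y}`. `branch_paths` (CZ.Brn) with `s`, `u` a neighbour of `z` in `s'` and `Con G c v u` (`s'` is a chain of non-hubs containing `u` and `v`) gives `e, ρ` and paths `x z` of length `e + ρ`, `z y` of length `l' - e + ρ`, `l' = s.length + 1`.
`twin_mem` and `hev` for these two and for `s` (all lengths are `l`), and `tri_mem` for `x, z, y`: `3 l ∈ L`. From `e + ρ = l = l - e + ρ` follows `l = 2 e`, so `3 l` is even, `3 l = 2 l`, a contradiction. So `{x', y'} = {x, y}`. After reversing `s'` if necessary (`pi_rev`) both are paths from `x` to `y`, both have length `l` (`twin_mem`), constant colours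
(`Compat`, `chain` of non-hubs: `blk_col` is similar), so they are in `LP l G c x y (c v)`: `two_eq` (CZ.Unq).
-/

namespace H46.OE

open Pool.Agent.H3.LC H46.CY H46.CZ

variable {V : Type} {L : Finset ℕ} {G : SimpleGraph V} {c : V → ℕ} {l : ℕ}

private theorem rq_cons {a : V} {t : List V} (h : (a :: t).IsChain G.Adj)
    (hc : ∀ v ∈ a :: t, c v ≠ 0) : ∀ v ∈ a :: t, Con G c a v := by
  induction t generalizing a with
  | nil =>
    intro v hv
    rw [List.mem_singleton] at hv
    rw [hv]
    exact Relation.ReflTransGen.refl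
  | cons b t ih =>
    intro v hv
    rw [List.isChain_cons_cons] at h
    rcases List.mem_cons.1 hv with rfl | hv
    · exact Relation.ReflTransGen.refl
    · exact Relation.ReflTransGen.head ⟨h.1, hc _ (by simp), hc b (by simp)⟩
        (ih h.2 (fun w hw => hc w (List.mem_cons_of_mem _ hw)) v hv)

private theorem rq_symm {u v : V} (h : Con G c u v) : Con G c v u := by
  induction h with
  | refl => exact Relation.ReflTransGen.refl
  | tail _ h2 ih => exact Relation.ReflTransGen.head ⟨h2.1.symm, h2.2.2, h2.2.1⟩ ih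

private theorem rq_col (hc : Compat G c) {u v : V} (h : Con G c u v) : c u = c v := by
  induction h with
  | refl => rfl
  | tail _ h2 ih => exact ih.trans (hc _ _ h2.1 h2.2.1 h2.2.2)

private theorem rq_mid {x y : V} {s : List V} (hs : PI G x y s) : s.IsChain G.Adj := by
  have h1 := hs.1
  have h2 : (s ++ [y]).IsChain G.Adj := h1.tail
  exact (List.isChain_append.1 h2).1

private theorem rq_mem {x y : V} {s : List V} (hs : PI G x y s) (hc : ∀ v ∈ s, c v ≠ 0) {u v : V}
    (hu : u ∈ s) (hv : v ∈ s) : Con G c u v := by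
  have h := rq_mid hs
  cases s with
  | nil => exact absurd hu List.not_mem_nil
  | cons a t =>
    exact (rq_symm (rq_cons h hc u hu)).trans (rq_cons h hc v hv)

private theorem rq_first {x y : V} {s : List V} (hs : PI G x y s) (hne : s ≠ []) :
    ∃ u ∈ s, G.Adj u x := by
  cases s with
  | nil => exact absurd rfl hne
  | cons a t =>
    have h1 := hs.1
    rw [List.cons_append, List.isChain_cons_cons] at h1
    exact ⟨a, by simp, h1.1.symm⟩

private theorem rq_len (hV : Valid L G c) (hev : ∀ x ∈ L, Even x → x = 2 * l) {x y : V}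
    {s : List V} (hxy : x ≠ y) (hx : c x = 0) (hy : c y = 0) (hs : PI G x y s) (hne : s ≠ [])
    (hc : ∀ v ∈ s, c v ≠ 0) : s.length + 1 = l := by
  have h := hev _ (twin_mem hV hxy hx hy hs hne hc) (even_two_mul _)
  omega

private theorem rq_third (hV : Valid L G c) (hl : 2 ≤ l) (hev : ∀ x ∈ L, Even x → x = 2 * l)
    {x y z u v : V} {s : List V} (hxy : x ≠ y) (hx : c x = 0) (hy : c y = 0) (hs : PI G x y s)
    (hc : ∀ v ∈ s, c v ≠ 0) (hv : v ∈ s) (hu : Con G c v u) (huz : G.Adj u z) (hz : c z = 0)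
    (hzx : z ≠ x) (hzy : z ≠ y) : False := by
  have hne : s ≠ [] := List.ne_nil_of_mem hv
  have h0 := rq_len hV hev hxy hx hy hs hne hc
  obtain ⟨e, ρ, s', s'', R, he1, he2, -, p1, l1, n1, c1, p2, l2, n2, c2, -, -, -⟩ :=
    branch_paths hs hc hv hu huz hx hy hz hzx hzy
  have h1 := rq_len hV hev hzx.symm hx hz p1 n1 c1
  have h2 := rq_len hV hev hzy hz hy p2 n2 c2
  have h3 := tri_mem hV hzx.symm hzy hxy.symm hx hz hy p1 p2 (pi_rev hs) n1 n2
    (by simpa using hne) c1 c2 (fun w hw => hc w (List.mem_reverse.1 hw))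
  rw [List.length_reverse, h0, h1, h2] at h3
  have h4 : Even (l + l + l) := by
    have : l = 2 * e := by omega
    exact ⟨3 * e, by omega⟩
  have h5 := hev _ h3 h4
  omega

theorem run_eq (hV : Valid L G c) (hl : 2 ≤ l) (hev : ∀ x ∈ L, Even x → x = 2 * l)
    {x y x' y' : V} {s s' : List V} (hxy : x ≠ y) (hx : c x = 0) (hy : c y = 0) (hs : PI G x y s)
    (hc : ∀ v ∈ s, c v ≠ 0) (hxy' : x' ≠ y') (hx' : c x' = 0) (hy' : c y' = 0)
    (hs' : PI G x' y' s') (hc' : ∀ v ∈ s', c v ≠ 0) {v : V} (hv : v ∈ s) (hv' : v ∈ s') :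
    (x' = x ∧ y' = y ∧ s' = s) ∨ (x' = y ∧ y' = x ∧ s' = s.reverse) := by
  have hne : s ≠ [] := List.ne_nil_of_mem hv
  have hne' : s' ≠ [] := List.ne_nil_of_mem hv'
  have hrc : ∀ w ∈ s'.reverse, c w ≠ 0 := fun w hw => hc' w (List.mem_reverse.1 hw)
  have hrv : v ∈ s'.reverse := List.mem_reverse.2 hv'
  have h1 : x' = x ∨ x' = y := by
    by_contra h
    rw [not_or] at h
    obtain ⟨u, hu, hux⟩ := rq_first hs' hne'
    exact rq_third hV hl hev hxy hx hy hs hc hv (rq_mem hs' hc' hv' hu) hux hx' h.1 h.2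
  have h2 : y' = x ∨ y' = y := by
    by_contra h
    rw [not_or] at h
    obtain ⟨u, hu, hux⟩ := rq_first (pi_rev hs') (by simpa using hne')
    exact rq_third hV hl hev hxy hx hy hs hc hv (rq_mem (pi_rev hs') hrc hrv hu) hux hy' h.1 h.2
  have hev' : ∀ x ∈ L, Even x → 2 * l ≤ x := fun x hx he => (hev x hx he).ge
  have hcv : c v ≠ 0 := hc v hv
  have m1 : s ∈ LP l G c x y (c v) :=
    ⟨hs, rq_len hV hev hxy hx hy hs hne hc, fun w hw => rq_col hV.1 (rq_mem hs hc hw hv)⟩
  rcases h1 with rfl | rfl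
  · rcases h2 with rfl | rfl
    · exact absurd rfl hxy'
    · have m2 : s' ∈ LP l G c x' y' (c v) :=
        ⟨hs', rq_len hV hev hxy' hx' hy' hs' hne' hc',
          fun w hw => rq_col hV.1 (rq_mem hs' hc' hw hv')⟩
      exact Or.inl ⟨rfl, rfl, (two_eq hV hl hev' hxy' hx' hy' hcv hcv m1 m2 hv hv').symm⟩
  · rcases h2 with rfl | rfl
    · have m2 : s'.reverse ∈ LP l G c y' x' (c v) :=
        ⟨pi_rev hs', by
          rw [List.length_reverse]
          exact rq_len hV hev hxy' hx' hy' hs' hne' hc',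
          fun w hw => rq_col hV.1 (rq_mem (pi_rev hs') hrc hw hrv)⟩
      have h := two_eq hV hl hev' hxy hx hy hcv hcv m1 m2 hv hrv
      exact Or.inr ⟨rfl, rfl, by rw [h, List.reverse_reverse]⟩
    · exact absurd rfl hxy'

end H46.OE
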