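import Pool.Agent.H46.OE.Mat

/-!
# OE.Rns : the set of runs (about 170 lines)

`runs_disj`, `runs_card` from `run_eq`, `OE.run` (`oe_self`). `runs_ncard`: the runs are pairwise disjoint sets with `l - 1` elements of the set of non-hubs (`Set.ncard_iUnion`-like or via `Finset`). `exists_cl`: the two ends of a run are determined by the set (`run_eq`; if `S` is not a run put anything). `dc_runs`: the sets of `Runs` contained in `range f`: exactly `d`; the map
`q ↦ {f (q + 1), ..., f (q + l - 1)}` from the run starts in `[0, m)` onto them is injective (disjointness inside `f`: `idx_inj`) and surjective (`run_match`-like: a run contained in `range f` has an inner vertex on `f`, `run_start`, `run_eq`). `dc_cover`: the non-hubs of `f` are covered by the runs contained in `range f` (`run_start`). `dc_cls`: the classes of these runs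
are `cls c l f`. `dc_inj`: if `m > 2 l` then different runs of `f` have different classes: if `{f q, f (q + l)} = {f q', f (q' + l)}` with `q, q'` in `[0, m)` then `q = q'`, or `f q' = f (q + l)` and `f (q' + l) = f q`; then `2 l` is congruent to `0` mod `m`.
-/

namespace H46.OE

open Pool.Agent.H3.LC H46.CY H46.CZ

variable {V : Type} {L : Finset ℕ} {G : SimpleGraph V} {c : V → ℕ} {l k d m : ℕ} {f : ZMod m → V}

/-- the list of a run start -/
theorem start_run (hE : OE G c l k) (hl : 2 ≤ l) (hf : DC G c d f) {q : ℕ}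
    (h0 : c (f (q : ZMod m)) = 0) (h1 : c (f ((q + 1 : ℕ) : ZMod m)) ≠ 0) :
    f (q : ZMod m) ≠ f ((q + l : ℕ) : ZMod m) ∧ c (f ((q + l : ℕ) : ZMod m)) = 0 ∧
      PI G (f (q : ZMod m)) (f ((q + l : ℕ) : ZMod m)) (seg f q (q + l)) ∧
      seg f q (q + l) ≠ [] ∧ (∀ v ∈ seg f q (q + l), c v ≠ 0) ∧ l < m := by
  obtain ⟨e0, e1, e2⟩ := run_end hE hl hf.three hf.cyc hf.two h0 h1
  refine ⟨?_, e0, seg_pi hf.three hf.cyc (by omega) (by omega), ?_, ?_, e2⟩
  · intro h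
    have := idx_inj hf.three hf.cyc h (by omega) (by omega)
    omega
  · intro h
    have h3 := seg_length (f := f) (a := q) (b := q + l) (by omega)
    rw [h] at h3
    simp at h3
    omega
  · intro v hv
    obtain ⟨j, j1, j2, j3⟩ := seg_mem.1 hv
    rw [← j3]
    exact e1 j j1 j2

theorem start_mem (hE : OE G c l k) (hl : 2 ≤ l) (hf : DC G c d f) {q : ℕ}
    (h0 : c (f (q : ZMod m)) = 0) (h1 : c (f ((q + 1 : ℕ) : ZMod m)) ≠ 0) :
    {v | v ∈ seg f q (q + l)} ∈ Runs G c ∧ {v | v ∈ seg f q (q + l)} ⊆ Set.range f := by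
  obtain ⟨a1, a2, a3, a4, a5, -⟩ := start_run hE hl hf h0 h1
  refine ⟨⟨_, _, _, a1, h0, a2, a3, a4, a5, rfl⟩, ?_⟩
  intro v hv
  obtain ⟨j, -, -, j3⟩ := seg_mem.1 hv
  exact ⟨_, j3⟩

theorem seg_mod (f : ZMod m → V) (q : ℕ) : seg f (q % m) (q % m + l) = seg f q (q + l) := by
  unfold seg
  have h1 : q % m + l - q % m - 1 = l - 1 := by omega
  have h2 : q + l - q - 1 = l - 1 := by omega
  rw [h1, h2]
  apply List.map_congr_left
  intro j _
  congr 1
  push_cast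
  rw [ZMod.natCast_mod]

theorem cast_mod (f : ZMod m → V) (q t : ℕ) :
    f ((q % m + t : ℕ) : ZMod m) = f ((q + t : ℕ) : ZMod m) := by
  congr 1
  push_cast
  rw [ZMod.natCast_mod]

theorem start_exists (hE : OE G c l k) (hl : 2 ≤ l) (hf : DC G c d f) {v : V}
    (hv : v ∈ Set.range f) (hcv : c v ≠ 0) :
    ∃ q < m, c (f (q : ZMod m)) = 0 ∧ c (f ((q + 1 : ℕ) : ZMod m)) ≠ 0 ∧
      v ∈ seg f q (q + l) := by
  obtain ⟨q, j, q0, q1, qj, jl, hj⟩ := run_start hE hl hf.three hf.cyc hf.two hv hcv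
  have hm := hf.three
  refine ⟨q % m, Nat.mod_lt _ (by omega), ?_, ?_, ?_⟩
  · have := cast_mod f q 0
    simp only [Nat.add_zero] at this
    rw [this]; exact q0
  · rw [cast_mod f q 1]; exact q1
  · rw [seg_mod]; exact seg_mem.2 ⟨j, qj, jl, hj⟩

/-- two run starts in `[0, m)` whose runs have a common vertex are equal -/
theorem start_unique (hE : OE G c l k) (hl : 2 ≤ l) (hf : DC G c d f) {q q' : ℕ} (hq : q < m)
    (hq' : q' < m) (h0 : c (f (q : ZMod m)) = 0) (h1 : c (f ((q + 1 : ℕ) : ZMod m)) ≠ 0)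
    (h0' : c (f (q' : ZMod m)) = 0) (h1' : c (f ((q' + 1 : ℕ) : ZMod m)) ≠ 0) {v : V}
    (hv : v ∈ seg f q (q + l)) (hv' : v ∈ seg f q' (q' + l)) : q = q' := by
  obtain ⟨e0, e1, e2⟩ := run_end hE hl hf.three hf.cyc hf.two h0 h1
  obtain ⟨e0', e1', -⟩ := run_end hE hl hf.three hf.cyc hf.two h0' h1'
  obtain ⟨j, j1, j2, j3⟩ := seg_mem.1 hv
  obtain ⟨j', j1', j2', j3'⟩ := seg_mem.1 hv'
  have key : ∀ (a a' i i' : ℕ), a < m → a' < m → c (f (a : ZMod m)) = 0 →
      c (f (a' : ZMod m)) = 0 → (∀ t, a < t → t < a + l → c (f (t : ZMod m)) ≠ 0) →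
      (∀ t, a' < t → t < a' + l → c (f (t : ZMod m)) ≠ 0) → a < i → i < a + l → a' < i' →
      i' < a' + l → f (i : ZMod m) = f (i' : ZMod m) → i ≤ i' → a = a' := by
    intro a a' i i' ha ha' hc hc' hn hn' b1 b2 b3 b4 hii hle
    by_cases h : i' < i + m
    · have := idx_inj hf.three hf.cyc hii hle h
      subst this
      rcases lt_trichotomy a a' with g | g | g
      · exact absurd hc' (hn a' g (by omega))
      · exact g
      · exact absurd hc (hn' a g (by omega))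
    · have h2 : f ((i + m : ℕ) : ZMod m) = f (i' : ZMod m) := by
        rw [cast_per f i]; exact hii
      have := idx_inj hf.three hf.cyc h2 (by omega) (by omega)
      subst this
      exfalso
      have h3 : c (f ((a + m : ℕ) : ZMod m)) ≠ 0 := hn' (a + m) (by omega) (by omega)
      rw [cast_per f a] at h3
      exact h3 hc
  rcases le_total j j' with h | h
  · exact key q q' j j' hq hq' h0 h0' e1 e1' j1 j2 j1' j2' (j3.trans j3'.symm) h
  · exact (key q' q j' j hq' hq h0' h0 e1' e1 j1' j2' j1 j2 (j3'.trans j3.symm) h).symm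

/-- a run contained in `range f` is the run of a run start -/
theorem run_of_sub (hV : Valid L G c) (hE : OE G c l k) (hl : 2 ≤ l)
    (hev : ∀ x ∈ L, Even x → x = 2 * l) (hf : DC G c d f) {S : Set V} (hS : S ∈ Runs G c)
    (hSf : S ⊆ Set.range f) : ∃ q < m, c (f (q : ZMod m)) = 0 ∧
      c (f ((q + 1 : ℕ) : ZMod m)) ≠ 0 ∧ S = {v | v ∈ seg f q (q + l)} := by
  obtain ⟨x, y, s, hxy, hx, hy, hs, hne, hc, rfl⟩ := hS
  obtain ⟨v, hv⟩ := List.exists_mem_of_ne_nil s hne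
  obtain ⟨q, hq, q0, q1, hvq⟩ := start_exists hE hl hf (hSf hv) (hc v hv)
  obtain ⟨a1, a2, a3, a4, a5, -⟩ := start_run hE hl hf q0 q1
  refine ⟨q, hq, q0, q1, ?_⟩
  rcases run_eq hV hl hev a1 q0 a2 a3 a5 hxy hx hy hs hc hvq hv with ⟨-, -, h⟩ | ⟨-, -, h⟩
  · rw [h]
  · rw [h]; ext w; simp

theorem runs_ncard [Finite V] (hV : Valid L G c) (hl : 2 ≤ l)
    (hev : ∀ x ∈ L, Even x → x = 2 * l) :
    (Runs G c).ncard * (l - 1) ≤ {v | c v ≠ 0}.ncard := by
  classical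
  have hE : OE G c l (L.sup id) := oe_self hV hev (fun x hx => Finset.le_sup (f := id) hx)
  have hR : (Runs G c).Finite := Set.toFinite _
  have hdisj : ∀ S ∈ hR.toFinset, ∀ T ∈ hR.toFinset, S ≠ T →
      Disjoint (Set.toFinite S).toFinset (Set.toFinite T).toFinset := by
    intro S hS T hT hne
    rw [Set.Finite.mem_toFinset] at hS hT
    obtain ⟨x, y, s, hxy, hx, hy, hs, -, hc, rfl⟩ := hS
    obtain ⟨x', y', s', hxy', hx', hy', hs', -, hc', rfl⟩ := hT
    rw [Finset.disjoint_left]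
    intro v hv hv'
    rw [Set.Finite.mem_toFinset] at hv hv'
    apply hne
    rcases run_eq hV hl hev hxy hx hy hs hc hxy' hx' hy' hs' hc' hv hv' with ⟨-, -, h⟩ | ⟨-, -, h⟩
    · rw [h]
    · rw [h]; ext w; simp
  have hcard : ∀ S ∈ hR.toFinset, (Set.toFinite S).toFinset.card = l - 1 := by
    intro S hS
    rw [Set.Finite.mem_toFinset] at hS
    obtain ⟨x, y, s, hxy, hx, hy, hs, hne, hc, rfl⟩ := hS
    have h1 : (Set.toFinite {v | v ∈ s}).toFinset = s.toFinset := by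
      ext w; simp
    rw [h1, List.toFinset_card_of_nodup hs.2.1]
    have := hE.run x y s hxy hx hy hs hne hc
    omega
  have hsum : (hR.toFinset.biUnion fun S => (Set.toFinite S).toFinset).card =
      hR.toFinset.card * (l - 1) := by
    rw [Finset.card_biUnion hdisj, Finset.sum_congr rfl hcard, Finset.sum_const, smul_eq_mul]
  rw [Set.ncard_eq_toFinset_card _ hR, ← hsum,
    Set.ncard_eq_toFinset_card _ (Set.toFinite {v | c v ≠ 0})]
  apply Finset.card_le_card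
  intro v hv
  rw [Finset.mem_biUnion] at hv
  obtain ⟨S, hS, hvS⟩ := hv
  rw [Set.Finite.mem_toFinset] at hS hvS ⊢
  obtain ⟨x, y, s, hxy, hx, hy, hs, hne, hc, rfl⟩ := hS
  exact hc v hvS

/-- there is a map giving the pair of ends of every run -/
theorem exists_cl [Nonempty V] (hV : Valid L G c) (hl : 2 ≤ l)
    (hev : ∀ x ∈ L, Even x → x = 2 * l) :
    ∃ cl : Set V → Sym2 V, ∀ (x y : V) (s : List V), x ≠ y → c x = 0 → c y = 0 → PI G x y s →
      s ≠ [] → (∀ v ∈ s, c v ≠ 0) → cl {v | v ∈ s} = s(x, y) := by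
  classical
  obtain ⟨v₀⟩ := ‹Nonempty V›
  let P : Set V → Sym2 V → Prop := fun S e => ∃ (x y : V) (s : List V), x ≠ y ∧ c x = 0 ∧
    c y = 0 ∧ PI G x y s ∧ s ≠ [] ∧ (∀ v ∈ s, c v ≠ 0) ∧ S = {v | v ∈ s} ∧ e = s(x, y)
  refine ⟨fun S => if h : ∃ e, P S e then h.choose else s(v₀, v₀), ?_⟩
  intro x y s hxy hx hy hs hne hc
  have h : ∃ e, P {v | v ∈ s} e := ⟨_, x, y, s, hxy, hx, hy, hs, hne, hc, rfl, rfl⟩
  simp only [dif_pos h]
  obtain ⟨x', y', s', hxy', hx', hy', hs', hne', hc', hS, he⟩ := h.choose_spec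
  rw [he]
  obtain ⟨v, hv⟩ := List.exists_mem_of_ne_nil s hne
  have hv' : v ∈ s' := by
    have : v ∈ {v | v ∈ s} := hv
    rw [hS] at this
    exact this
  rcases run_eq hV hl hev hxy hx hy hs hc hxy' hx' hy' hs' hc' hv hv' with
    ⟨h1, h2, -⟩ | ⟨h1, h2, -⟩
  · rw [h1, h2]
  · rw [h1, h2]; exact Sym2.eq_swap

theorem dc_runs (hV : Valid L G c) (hl : 2 ≤ l) (hev : ∀ x ∈ L, Even x → x = 2 * l)
    (hmax : ∀ x ∈ L, x ≤ k) (hf : DC G c d f) :
    {S | S ∈ Runs G c ∧ S ⊆ Set.range f}.ncard = d := by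
  have hE : OE G c l k := oe_self hV hev hmax
  have himg : {S | S ∈ Runs G c ∧ S ⊆ Set.range f} =
      (fun q : ℕ => {v | v ∈ seg f q (q + l)}) '' ↑((Finset.Ico 0 m).filter fun j : ℕ =>
        c (f (j : ZMod m)) = 0 ∧ c (f ((j + 1 : ℕ) : ZMod m)) ≠ 0) := by
    ext S
    constructor
    · rintro ⟨hS, hSf⟩
      obtain ⟨q, hq, q0, q1, rfl⟩ := run_of_sub hV hE hl hev hf hS hSf
      refine ⟨q, ?_, rfl⟩
      simp only [Finset.coe_filter, Finset.mem_Ico, Set.mem_setOf_eq]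
      exact ⟨⟨by omega, hq⟩, q0, q1⟩
    · rintro ⟨q, hq, rfl⟩
      simp only [Finset.coe_filter, Finset.mem_Ico, Set.mem_setOf_eq] at hq
      exact start_mem hE hl hf hq.2.1 hq.2.2
  rw [himg, Set.InjOn.ncard_image, Set.ncard_coe_finset]
  · exact hf.num
  · intro q hq q' hq' h
    simp only [Finset.coe_filter, Finset.mem_Ico, Set.mem_setOf_eq] at hq hq'
    obtain ⟨a1, a2, a3, a4, a5, -⟩ := start_run hE hl hf hq.2.1 hq.2.2
    obtain ⟨v, hv⟩ := List.exists_mem_of_ne_nil _ a4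
    have hv' : v ∈ seg f q' (q' + l) := by
      have : v ∈ {v | v ∈ seg f q (q + l)} := hv
      rw [show {v | v ∈ seg f q (q + l)} = {v | v ∈ seg f q' (q' + l)} from h] at this
      exact this
    exact start_unique hE hl hf hq.1.2 hq'.1.2 hq.2.1 hq.2.2 hq'.2.1 hq'.2.2 hv hv'

theorem dc_cover (hV : Valid L G c) (hl : 2 ≤ l) (hev : ∀ x ∈ L, Even x → x = 2 * l)
    (hmax : ∀ x ∈ L, x ≤ k) (hf : DC G c d f) {v : V} (hv : v ∈ Set.range f) (hcv : c v ≠ 0) :
    ∃ S ∈ Runs G c, S ⊆ Set.range f ∧ v ∈ S := by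
  have hE : OE G c l k := oe_self hV hev hmax
  obtain ⟨q, hq, q0, q1, hvq⟩ := start_exists hE hl hf hv hcv
  obtain ⟨h1, h2⟩ := start_mem hE hl hf q0 q1
  exact ⟨_, h1, h2, hvq⟩

theorem dc_cls (hV : Valid L G c) (hl : 2 ≤ l) (hev : ∀ x ∈ L, Even x → x = 2 * l)
    (hmax : ∀ x ∈ L, x ≤ k) (hf : DC G c d f) {cl : Set V → Sym2 V}
    (hcl : ∀ (x y : V) (s : List V), x ≠ y → c x = 0 → c y = 0 → PI G x y s →
      s ≠ [] → (∀ v ∈ s, c v ≠ 0) → cl {v | v ∈ s} = s(x, y)) :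
    cl '' {S | S ∈ Runs G c ∧ S ⊆ Set.range f} = cls c l f := by
  have hE : OE G c l k := oe_self hV hev hmax
  ext e
  constructor
  · rintro ⟨S, ⟨hS, hSf⟩, rfl⟩
    obtain ⟨q, hq, q0, q1, rfl⟩ := run_of_sub hV hE hl hev hf hS hSf
    obtain ⟨a1, a2, a3, a4, a5, -⟩ := start_run hE hl hf q0 q1
    exact ⟨q, q0, q1, hcl _ _ _ a1 q0 a2 a3 a4 a5⟩
  · rintro ⟨q, q0, q1, rfl⟩
    obtain ⟨a1, a2, a3, a4, a5, -⟩ := start_run hE hl hf q0 q1
    exact ⟨_, start_mem hE hl hf q0 q1, hcl _ _ _ a1 q0 a2 a3 a4 a5⟩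

theorem dc_inj (hV : Valid L G c) (hl : 2 ≤ l) (hev : ∀ x ∈ L, Even x → x = 2 * l)
    (hmax : ∀ x ∈ L, x ≤ k) (hf : DC G c d f) (hm2 : 2 * l < m) {cl : Set V → Sym2 V}
    (hcl : ∀ (x y : V) (s : List V), x ≠ y → c x = 0 → c y = 0 → PI G x y s →
      s ≠ [] → (∀ v ∈ s, c v ≠ 0) → cl {v | v ∈ s} = s(x, y)) :
    Set.InjOn cl {S | S ∈ Runs G c ∧ S ⊆ Set.range f} := by
  have hE : OE G c l k := oe_self hV hev hmax
  rintro S ⟨hS, hSf⟩ T ⟨hT, hTf⟩ hST
  obtain ⟨q, hq, q0, q1, rfl⟩ := run_of_sub hV hE hl hev hf hS hSf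
  obtain ⟨q', hq', q0', q1', rfl⟩ := run_of_sub hV hE hl hev hf hT hTf
  obtain ⟨a1, a2, a3, a4, a5, -⟩ := start_run hE hl hf q0 q1
  obtain ⟨b1, b2, b3, b4, b5, -⟩ := start_run hE hl hf q0' q1'
  rw [hcl _ _ _ a1 q0 a2 a3 a4 a5, hcl _ _ _ b1 q0' b2 b3 b4 b5, Sym2.eq_iff] at hST
  rcases hST with ⟨h, -⟩ | ⟨h, h'⟩
  · have : q = q' := by
      rcases le_total q q' with g | g
      · exact idx_inj hf.three hf.cyc h g (by omega)
      · exact (idx_inj hf.three hf.cyc h.symm g (by omega)).symm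
    subst this
    rfl
  · exfalso
    have e1 := hf.cyc.1 h
    have e2 := hf.cyc.1 h'
    push_cast at e1 e2
    have e3 : ((2 * l : ℕ) : ZMod m) = 0 := by
      push_cast
      linear_combination e2 - e1
    rw [ZMod.natCast_eq_zero_iff] at e3
    have := Nat.le_of_dvd (by omega) e3
    omega

end H46.OE
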