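import Pool.Agent.H46.OE.Two

/-!
# OE.Sam : two ears across the same run are impossible (about 200 lines)

Let `P₁, Q₁` and `P₂, Q₂` be the positions in `[1, m]` of the ends of the two ears, `p_r = min P_r Q_r`, `q_r = max P_r Q_r`, `δ_r = j_r - i_r`. By `typ` (the second case, the sums are odd): `rn c f q_r (p_r + m) = 1`, `p_r + m - q_r + δ_r = 2 l`. The position `m` is a run start in `[q_r, p_r + m)`, the only one (`rn_one_unique`), so all vertices at the positions `[q_r, m]` are hubs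
(`rn_add`, `rn_pos`, `hub_of_rn_zero`), and `p_r ≥ l` (positions `1, ..., l - 1` are not hubs: `run_end` at `q = 0`; the ends of ears are hubs: `ear_hub_all`) and the vertices at the positions `[l, p_r]` are hubs. `p_r < q_s` for all `r, s`: otherwise `[l, q_s]` and `[q_s, m]` consist of hubs and `rn c f 0 m = 1` (`rn c f 0 l = 1`), but `d ≥ 2`.
The two ears have disjoint positions: `j₁ ≤ i₂` or `j₂ ≤ i₁` (an end of one ear is on `f`, so it is not strictly inside the other one; they are different). So `δ₁ + δ₂ ≤ hn c g 0 m' < l` (`hn_eq_len`, `hn_add`, `hn_le`, `dc_small`), and `|p₁ - p₂| + |q₁ - q₂| ≤ hn c f 0 m < l`. The cycle: from `f p₁` to `f q₁` through the first ear; and from `f p₁` along `f` to `f p₂` (nothing if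
`p₁ = p₂`), through the second ear to `f q₂`, along `f` to `f q₁` (nothing if `q₁ = q₂`): `pi_app`, `pi_rev`, `cyc_of_two` (by symmetry assume `p₁ ≤ p₂` or treat four cases with a small lemma: for hubs positions `u ≤ v` in `[l, m]`...). The ears are disjoint from `range f` inside, disjoint from each other (`idx_inj` for `g`). Both lists are not empty: if both are empty then
`p₁ = p₂`, `q₁ = q₂`, `δ₁ = δ₂ = 1` and the two edges `s(g i₁, g (i₁ + 1))`, `s(g i₂, g (i₂ + 1))` have the same ends, so `i₁ = i₂`. The length is `δ₁ + δ₂ + |p₁ - p₂| + |q₁ - q₂|`, smaller than `2 l`; it is even because `δ_r = 2 l + q_r - p_r - m`. This contradicts `OE.even` (`oe_self`).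
-/

namespace H46.OE

open Pool.Agent.H3.LC H46.CY H46.CZ

variable {V : Type} {L : Finset ℕ} {G : SimpleGraph V} {c : V → ℕ} {l k d m m' : ℕ}
  {f : ZMod m → V} {g : ZMod m' → V}

/-- walk along `f` from `f u` to `f v` and continue with `t` -/
private theorem walk_pre (hm : 3 ≤ m) (hf : IsCyc G f) {u v : ℕ} (huv : u < v + m)
    (hvu : v < u + m) {b : V} {t : List V} (ht : PI G (f (v : ZMod m)) b t)
    (hout : ∀ j : ℕ, min u v ≤ j → j ≤ max u v → f (j : ZMod m) ∉ t ∧ f (j : ZMod m) ≠ b) :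
    ∃ s : List V, PI G (f (u : ZMod m)) b s ∧ s.length = t.length + (max u v - min u v) ∧
      ∀ x ∈ s, x ∈ t ∨ ∃ j : ℕ, min u v ≤ j ∧ j ≤ max u v ∧ f (j : ZMod m) = x := by
  have hvb := (hout v (min_le_right _ _) (le_max_right _ _)).2
  rcases lt_trichotomy u v with h | h | h
  · have hmin : min u v = u := min_eq_left h.le
    have hmax : max u v = v := max_eq_right h.le
    rw [hmin, hmax] at hout
    have hs := seg_pi hm hf h hvu
    refine ⟨seg f u v ++ f (v : ZMod m) :: t, pi_app hs ht ?_ hvb ?_ ?_ ?_, ?_, ?_⟩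
    · intro he
      have := idx_inj hm hf he h.le hvu
      omega
    · intro x hx
      obtain ⟨j, h1, h2, h3⟩ := seg_mem.1 hx
      rw [← h3]
      exact (hout j h1.le h2.le).1
    · exact (hout u le_rfl h.le).1
    · intro hx
      obtain ⟨j, h1, h2, h3⟩ := seg_mem.1 hx
      exact (hout j h1.le h2.le).2 h3
    · have := seg_length (f := f) h
      rw [List.length_append, List.length_cons, hmin, hmax]
      omega
    · intro x hx
      rw [hmin, hmax]
      rw [List.mem_append, List.mem_cons] at hx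
      rcases hx with hx | hx | hx
      · obtain ⟨j, h1, h2, h3⟩ := seg_mem.1 hx
        exact Or.inr ⟨j, h1.le, h2.le, h3⟩
      · exact Or.inr ⟨v, h.le, le_rfl, hx.symm⟩
      · exact Or.inl hx
  · subst h
    exact ⟨t, ht, by simp, fun x hx => Or.inl hx⟩
  · have hmin : min u v = v := min_eq_right h.le
    have hmax : max u v = u := max_eq_left h.le
    rw [hmin, hmax] at hout
    have hs := pi_rev (seg_pi hm hf h huv)
    refine ⟨(seg f v u).reverse ++ f (v : ZMod m) :: t, pi_app hs ht ?_ hvb ?_ ?_ ?_, ?_, ?_⟩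
    · intro he
      have := idx_inj hm hf he.symm h.le huv
      omega
    · intro x hx
      rw [List.mem_reverse] at hx
      obtain ⟨j, h1, h2, h3⟩ := seg_mem.1 hx
      rw [← h3]
      exact (hout j h1.le h2.le).1
    · exact (hout u h.le le_rfl).1
    · intro hx
      rw [List.mem_reverse] at hx
      obtain ⟨j, h1, h2, h3⟩ := seg_mem.1 hx
      exact (hout j h1.le h2.le).2 h3
    · have := seg_length (f := f) h
      rw [List.length_append, List.length_cons, List.length_reverse, hmin, hmax]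
      omega
    · intro x hx
      rw [hmin, hmax]
      rw [List.mem_append, List.mem_cons, List.mem_reverse] at hx
      rcases hx with hx | hx | hx
      · obtain ⟨j, h1, h2, h3⟩ := seg_mem.1 hx
        exact Or.inr ⟨j, h1.le, h2.le, h3⟩
      · exact Or.inr ⟨v, le_rfl, h.le, hx.symm⟩
      · exact Or.inl hx

/-- an ear across the position `m` of `f` -/
private theorem ear_data (hV : Valid L G c) (hl : 2 ≤ l)
    (hev : ∀ x ∈ L, Even x → x = 2 * l) (hmax : ∀ x ∈ L, x ≤ k) (hk : k < (d + 1) * l)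
    (hf : DC G c d f) (hg : DC G c d g) (hmo : Odd m) (hs : Same c f g) {i j : ℕ}
    (e : CEar f g i j) (hi : 1 ≤ i) (hj : j ≤ m') (o : OddE f g i j) :
    ∃ (p q : ℕ) (γ : List V), 1 ≤ p ∧ p < q ∧ q ≤ m ∧
      PI G (f (p : ZMod m)) (f (q : ZMod m)) γ ∧ γ.length + 1 = j - i ∧
      (∀ v ∈ γ, ∃ t : ℕ, i < t ∧ t < j ∧ g (t : ZMod m') = v) ∧ rn c f q (p + m) = 1 ∧
      p + m - q + (j - i) = 2 * l ∧ c (f (p : ZMod m)) = 0 ∧ c (f (q : ZMod m)) = 0 ∧
      ((f (p : ZMod m) = g (i : ZMod m') ∧ f (q : ZMod m) = g (j : ZMod m')) ∨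
        (f (p : ZMod m) = g (j : ZMod m') ∧ f (q : ZMod m) = g (i : ZMod m'))) := by
  obtain ⟨P, hP, hPm, hPi⟩ := exists_idx hf.three 1 e.fi
  obtain ⟨Q, hQ, hQm, hQj⟩ := exists_idx hf.three 1 e.fj
  have hhub := ear_hub_all hV hl hev hmax hf hg hs e
  have hci := hhub i le_rfl e.lt.le
  have hcj := hhub j e.lt.le le_rfl
  have hodd := o P Q hP (by omega) hQ (by omega) hPi hQj
  have ht := typ hV hl hev hmax hk hf hg hmo hs e hi hj hP (by omega) hQ (by omega) hPi hQj
  obtain ⟨-, hrn, hlen⟩ := ht.resolve_left fun h => by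
    exact (Nat.not_even_iff_odd.2 hodd) h.1
  have hγ := seg_pi hg.three hg.cyc e.lt e.le
  have hγl := seg_length (f := g) e.lt
  rcases lt_trichotomy P Q with h | h | h
  · rw [min_eq_left h.le, max_eq_right h.le] at hrn hlen
    refine ⟨P, Q, seg g i j, hP, h, by omega, ?_, hγl, ?_, hrn, hlen, ?_, ?_, Or.inl ⟨hPi, hQj⟩⟩
    · rw [hPi, hQj]
      exact hγ
    · intro v hv
      exact seg_mem.1 hv
    · rw [hPi]
      exact hci
    · rw [hQj]
      exact hcj
  · exfalso
    subst h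
    have := idx_inj hg.three hg.cyc (hPi.symm.trans hQj) e.lt.le e.le
    have := e.lt
    omega
  · rw [min_eq_right h.le, max_eq_left h.le] at hrn hlen
    refine ⟨Q, P, (seg g i j).reverse, hQ, h, by omega, ?_, ?_, ?_, hrn, hlen, ?_, ?_,
      Or.inr ⟨hQj, hPi⟩⟩
    · rw [hPi, hQj]
      exact pi_rev hγ
    · rw [List.length_reverse]
      exact hγl
    · intro v hv
      rw [List.mem_reverse] at hv
      exact seg_mem.1 hv
    · rw [hQj]
      exact hcj
    · rw [hPi]
      exact hci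

private theorem ear_hubs (hO : OE G c l k) (hl : 2 ≤ l) (hf : DC G c d f) (h0 : c (f 0) = 0)
    (h1 : c (f 1) ≠ 0) {p q : ℕ} (hp : 1 ≤ p) (hqm : q ≤ m) (hcp : c (f (p : ZMod m)) = 0)
    (hcq : c (f (q : ZMod m)) = 0) (hrn : rn c f q (p + m) = 1) :
    (∀ j, q ≤ j → j ≤ m → c (f (j : ZMod m)) = 0) ∧
      (∀ j, l ≤ j → j ≤ p → c (f (j : ZMod m)) = 0) ∧ l ≤ p ∧ rn c f 0 p = 1 ∧
        rn c f q m = 0 := by
  have h0' : c (f ((0 : ℕ) : ZMod m)) = 0 := by rw [Nat.cast_zero]; exact h0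
  have h1' : c (f ((0 + 1 : ℕ) : ZMod m)) ≠ 0 := by
    rw [Nat.zero_add, Nat.cast_one]; exact h1
  have hm0 : c (f ((m : ℕ) : ZMod m)) = 0 := by rw [ZMod.natCast_self]; exact h0
  have hm1 : c (f ((m + 1 : ℕ) : ZMod m)) ≠ 0 := by
    rw [Nat.cast_add, ZMod.natCast_self, zero_add, Nat.cast_one]; exact h1
  have a1 := rn_add (c := c) (f := f) hqm (show m ≤ p + m by omega)
  have a2 := rn_pos (c := c) (f := f) (a := m) (b := p + m) le_rfl (by omega) hm0 hm1
  have hz : rn c f q m = 0 := by omega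
  have a3 : rn c f m (p + m) = 1 := by omega
  have a4 : rn c f 0 p = 1 := by
    have := rn_shift (c := c) (f := f) 0 p
    rw [Nat.zero_add] at this
    omega
  obtain ⟨b1, b2, b3⟩ := run_end hO hl hf.three hf.cyc hf.two h0' h1'
  rw [Nat.zero_add] at b1
  have hlp : l ≤ p := by
    by_contra hlt
    exact b2 p (by omega) (by omega) hcp
  have a5 := rn_add (c := c) (f := f) (Nat.zero_le 1) hp
  have a6 := rn_pos (c := c) (f := f) (a := 0) (b := 1) le_rfl (by omega) h0' h1'
  have a7 := rn_add (c := c) (f := f) (show 1 ≤ l by omega) hlp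
  refine ⟨hub_of_rn_zero hz hcq, hub_of_rn_zero (by omega) b1, hlp, a4, hz⟩

theorem same_run (hV : Valid L G c) (hl : 2 ≤ l) (hd : 2 ≤ d)
    (hev : ∀ x ∈ L, Even x → x = 2 * l) (hmax : ∀ x ∈ L, x ≤ k) (hk : k < (d + 1) * l)
    (hf : DC G c d f) (hg : DC G c d g) (hmo : Odd m) (hs : Same c f g) (h0 : c (f 0) = 0)
    (h1 : c (f 1) ≠ 0) {i₁ j₁ i₂ j₂ : ℕ} (e₁ : CEar f g i₁ j₁) (hi₁ : 1 ≤ i₁) (hj₁ : j₁ ≤ m')
    (o₁ : OddE f g i₁ j₁) (e₂ : CEar f g i₂ j₂) (hi₂ : 1 ≤ i₂) (hj₂ : j₂ ≤ m')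
    (o₂ : OddE f g i₂ j₂) (hne : (i₁, j₁) ≠ (i₂, j₂)) : False := by
  have hO := oe_self hV hev hmax
  obtain ⟨p₁, q₁, γ₁, hp₁, hpq₁, hqm₁, hγ₁, hl₁, hmem₁, hrn₁, hlen₁, hcp₁, hcq₁, hends₁⟩ :=
    ear_data hV hl hev hmax hk hf hg hmo hs e₁ hi₁ hj₁ o₁
  obtain ⟨p₂, q₂, γ₂, hp₂, hpq₂, hqm₂, hγ₂, hl₂, hmem₂, hrn₂, hlen₂, hcp₂, hcq₂, hends₂⟩ :=
    ear_data hV hl hev hmax hk hf hg hmo hs e₂ hi₂ hj₂ o₂
  obtain ⟨A₁, B₁, hlp₁, hr₁, hz₁⟩ := ear_hubs hO hl hf h0 h1 hp₁ hqm₁ hcp₁ hcq₁ hrn₁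
  obtain ⟨A₂, B₂, hlp₂, hr₂, hz₂⟩ := ear_hubs hO hl hf h0 h1 hp₂ hqm₂ hcp₂ hcq₂ hrn₂
  have hnum := hf.num
  -- `p r < q s`
  have c12 : p₁ < q₂ := by
    by_contra hle
    have a1 := rn_add (c := c) (f := f) (show q₂ ≤ p₁ by omega) (show p₁ ≤ m by omega)
    have a2 := rn_add (c := c) (f := f) (Nat.zero_le p₁) (show p₁ ≤ m by omega)
    omega
  have c21 : p₂ < q₁ := by
    by_contra hle
    have a1 := rn_add (c := c) (f := f) (show q₁ ≤ p₂ by omega) (show p₂ ≤ m by omega)
    have a2 := rn_add (c := c) (f := f) (Nat.zero_le p₂) (show p₂ ≤ m by omega)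
    omega
  have lt₁ := e₁.lt
  have lt₂ := e₂.lt
  have le₁ := e₁.le
  have le₂ := e₂.le
  -- the ears are disjoint
  have hdis : j₁ ≤ i₂ ∨ j₂ ≤ i₁ := by
    rcases lt_trichotomy i₁ i₂ with h | h | h
    · left
      by_contra hh
      exact e₁.out i₂ h (by omega) e₂.fi
    · exfalso
      subst h
      rcases lt_trichotomy j₁ j₂ with h' | h' | h'
      · exact e₂.out j₁ lt₁ h' e₁.fj
      · exact hne (by rw [h'])
      · exact e₁.out j₂ lt₂ h' e₂.fj
    · right
      by_contra hh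
      exact e₂.out i₁ h (by omega) e₁.fi
  -- the ears are short
  have hgs := dc_small hO hl hk hg
  have hfs := dc_small hO hl hk hf
  have n₁ := (hn_eq_len (ear_hub_all hV hl hev hmax hf hg hs e₁)).1
  have n₂ := (hn_eq_len (ear_hub_all hV hl hev hmax hf hg hs e₂)).1
  have hsum : (j₁ - i₁) + (j₂ - i₂) < l := by
    rcases hdis with h | h
    · have a1 := hn_add (c := c) (f := g) (Nat.zero_le i₁) lt₁.le
      have a2 := hn_add (c := c) (f := g) (Nat.zero_le j₁) h
      have a3 := hn_add (c := c) (f := g) (Nat.zero_le i₂) lt₂.le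
      have a4 := hn_add (c := c) (f := g) (Nat.zero_le j₂) hj₂
      omega
    · have a1 := hn_add (c := c) (f := g) (Nat.zero_le i₂) lt₂.le
      have a2 := hn_add (c := c) (f := g) (Nat.zero_le j₂) h
      have a3 := hn_add (c := c) (f := g) (Nat.zero_le i₁) lt₁.le
      have a4 := hn_add (c := c) (f := g) (Nat.zero_le j₁) hj₁
      omega
  -- the arcs are short
  have hpn : hn c f (min p₁ p₂) (max p₁ p₂) = max p₁ p₂ - min p₁ p₂ := by
    refine (hn_eq_len fun j hj hj' => ?_).1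
    rcases le_total p₁ p₂ with h | h
    · rw [max_eq_right h] at hj'
      exact B₂ j (by rw [min_eq_left h] at hj; omega) hj'
    · rw [max_eq_left h] at hj'
      exact B₁ j (by rw [min_eq_right h] at hj; omega) hj'
  have hqn : hn c f (min q₁ q₂) (max q₁ q₂) = max q₁ q₂ - min q₁ q₂ := by
    refine (hn_eq_len fun j hj hj' => ?_).1
    rcases le_total q₁ q₂ with h | h
    · rw [min_eq_left h] at hj
      exact A₁ j hj (by rw [max_eq_right h] at hj'; omega)
    · rw [min_eq_right h] at hj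
      exact A₂ j hj (by rw [max_eq_left h] at hj'; omega)
  have hpq : max p₁ p₂ < min q₁ q₂ := by
    rw [max_lt_iff, lt_min_iff, lt_min_iff]
    exact ⟨⟨hpq₁, c12⟩, ⟨c21, hpq₂⟩⟩
  have hqm : max q₁ q₂ ≤ m := max_le hqm₁ hqm₂
  have hsum2 : (max p₁ p₂ - min p₁ p₂) + (max q₁ q₂ - min q₁ q₂) < l := by
    have a1 := hn_add (c := c) (f := f) (Nat.zero_le (min p₁ p₂))
      (show min p₁ p₂ ≤ max p₁ p₂ from min_le_max)
    have a2 := hn_add (c := c) (f := f) (Nat.zero_le (max p₁ p₂)) hpq.le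
    have a3 := hn_add (c := c) (f := f) (Nat.zero_le (min q₁ q₂))
      (show min q₁ q₂ ≤ max q₁ q₂ from min_le_max)
    have a4 := hn_add (c := c) (f := f) (Nat.zero_le (max q₁ q₂)) hqm
    omega
  -- inner vertices of the ears are not on `f`
  have out₁ : ∀ v ∈ γ₁, v ∉ Set.range f := by
    intro v hv
    obtain ⟨t, ht1, ht2, rfl⟩ := hmem₁ v hv
    exact e₁.out t ht1 ht2
  have out₂ : ∀ v ∈ γ₂, v ∉ Set.range f := by
    intro v hv
    obtain ⟨t, ht1, ht2, rfl⟩ := hmem₂ v hv
    exact e₂.out t ht1 ht2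
  have inj : ∀ a b : ℕ, 1 ≤ a → a ≤ m → 1 ≤ b → b ≤ m → f (a : ZMod m) = f (b : ZMod m) →
      a = b := by
    intro a b ha ham hb hbm hab
    rcases le_total a b with h | h
    · exact idx_inj hf.three hf.cyc hab h (by omega)
    · exact (idx_inj hf.three hf.cyc hab.symm h (by omega)).symm
  have inj' : ∀ a b : ℕ, 1 ≤ a → a ≤ m' → 1 ≤ b → b ≤ m' →
      g (a : ZMod m') = g (b : ZMod m') → a = b := by
    intro a b ha ham hb hbm hab
    rcases le_total a b with h | h
    · exact idx_inj hg.three hg.cyc hab h (by omega)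
    · exact (idx_inj hg.three hg.cyc hab.symm h (by omega)).symm
  -- the second path
  obtain ⟨s, hs1, hs2, hs3⟩ := walk_pre hf.three hf.cyc (u := p₁) (v := p₂) (by omega) (by omega)
    hγ₂ (by
      intro j hj hj'
      refine ⟨fun hx => out₂ _ hx ⟨_, rfl⟩, fun hx => ?_⟩
      have := inj j q₂ (by omega) (by omega) (by omega) hqm₂ hx
      omega)
  obtain ⟨s', hs1', hs2', hs3'⟩ := walk_pre hf.three hf.cyc (u := q₁) (v := q₂) (by omega)
    (by omega) (pi_rev hs1) (by
      intro j hj hj'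
      refine ⟨fun hx => ?_, fun hx => ?_⟩
      · rw [List.mem_reverse] at hx
        rcases hs3 _ hx with hx | ⟨j', hj1, hj2, hx⟩
        · exact out₂ _ hx ⟨_, rfl⟩
        · have := inj j' j (by omega) (by omega) (by omega) (by omega) hx
          omega
      · have := inj j p₁ (by omega) (by omega) (by omega) (by omega) hx
        omega)
  rw [List.length_reverse] at hs2'
  have hneq : f (p₁ : ZMod m) ≠ f (q₁ : ZMod m) := by
    intro hx
    have := inj p₁ q₁ (by omega) (by omega) (by omega) (by omega) hx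
    omega
  have hdj : ∀ x ∈ γ₁, x ∉ s'.reverse := by
    intro x hx hx'
    rw [List.mem_reverse] at hx'
    rcases hs3' _ hx' with h | ⟨j, -, -, h⟩
    · rw [List.mem_reverse] at h
      rcases hs3 _ h with h | ⟨j, -, -, h⟩
      · obtain ⟨t, ht1, ht2, ht⟩ := hmem₁ x hx
        obtain ⟨t', ht1', ht2', ht'⟩ := hmem₂ x h
        have := inj' t t' (by omega) (by omega) (by omega) (by omega) (ht.trans ht'.symm)
        omega
      · exact out₁ x hx ⟨_, h⟩
    · exact out₁ x hx ⟨_, h⟩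
  by_cases hem : 1 ≤ γ₁.length + s'.reverse.length
  · obtain ⟨F, hF⟩ := cyc_of_two hneq hγ₁ (pi_rev hs1') hdj hem
    have hrl : s'.reverse.length = s'.length := List.length_reverse
    have hm2 := Nat.odd_iff.1 hmo
    have := hO.even _ F (by omega) hF (by
      rw [Nat.even_iff]
      omega)
    omega
  · rw [List.length_reverse] at hem
    have hpe : p₁ = p₂ := by omega
    have hqe : q₁ = q₂ := by omega
    subst hpe
    subst hqe
    have key : (i₁ = i₂ ∨ i₁ = j₂) ∧ (j₁ = i₂ ∨ j₁ = j₂) := by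
      rcases hends₁ with ⟨u1, u2⟩ | ⟨u1, u2⟩ <;> rcases hends₂ with ⟨v1, v2⟩ | ⟨v1, v2⟩
      · exact ⟨Or.inl (inj' _ _ (by omega) (by omega) (by omega) (by omega) (u1.symm.trans v1)),
          Or.inr (inj' _ _ (by omega) (by omega) (by omega) (by omega) (u2.symm.trans v2))⟩
      · exact ⟨Or.inr (inj' _ _ (by omega) (by omega) (by omega) (by omega) (u1.symm.trans v1)),
          Or.inl (inj' _ _ (by omega) (by omega) (by omega) (by omega) (u2.symm.trans v2))⟩
      · exact ⟨Or.inr (inj' _ _ (by omega) (by omega) (by omega) (by omega) (u2.symm.trans v2)),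
          Or.inl (inj' _ _ (by omega) (by omega) (by omega) (by omega) (u1.symm.trans v1))⟩
      · exact ⟨Or.inl (inj' _ _ (by omega) (by omega) (by omega) (by omega) (u2.symm.trans v2)),
          Or.inr (inj' _ _ (by omega) (by omega) (by omega) (by omega) (u1.symm.trans v1))⟩
    omega

end H46.OE
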