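import Pool.Agent.H46.OE.Defs

/-!
# OE.Seg : arcs of cyclic sequences
-/

namespace H46.OE

open Pool.Agent.H3.LC H46.CY H46.CZ

variable {V : Type} {G : SimpleGraph V} {c : V → ℕ} {m : ℕ} {f : ZMod m → V}

theorem idx_inj (hm : 3 ≤ m) (hf : IsCyc G f) {i j : ℕ} (h : f (i : ZMod m) = f (j : ZMod m))
    (hij : i ≤ j) (hj : j < i + m) : i = j := by
  have _ := hm
  have h1 := hf.1 h
  have h2 := (ZMod.natCast_eq_natCast_iff i j m).1 h1
  have h3 := (Nat.modEq_iff_dvd' hij).1 h2
  have h4 := Nat.eq_zero_of_dvd_of_lt h3 (by omega)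
  omega

theorem seg_length {a b : ℕ} (hab : a < b) : (seg f a b).length + 1 = b - a := by
  unfold seg
  rw [List.length_map, List.length_range]
  omega

theorem seg_mem {a b : ℕ} {v : V} :
    v ∈ seg f a b ↔ ∃ j : ℕ, a < j ∧ j < b ∧ f (j : ZMod m) = v := by
  unfold seg
  rw [List.mem_map]
  constructor
  · rintro ⟨j, hj, rfl⟩
    rw [List.mem_range] at hj
    exact ⟨a + 1 + j, by omega, by omega, rfl⟩
  · rintro ⟨j, h1, h2, rfl⟩
    refine ⟨j - a - 1, ?_, ?_⟩
    · rw [List.mem_range]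
      omega
    · rw [show a + 1 + (j - a - 1) = j by omega]

private theorem adj_nat (hf : IsCyc G f) (j : ℕ) : G.Adj (f (j : ZMod m)) (f ((j + 1 : ℕ) : ZMod m)) := by
  rw [Nat.cast_add, Nat.cast_one]
  exact hf.2 _

theorem seg_pi (hm : 3 ≤ m) (hf : IsCyc G f) {a b : ℕ} (hab : a < b) (hb : b < a + m) :
    PI G (f (a : ZMod m)) (f (b : ZMod m)) (seg f a b) := by
  have hlen := seg_length (f := f) hab
  have hget : ∀ (k : ℕ) (hk : k < (f a :: (seg f a b ++ [f b])).length),
      (f (a : ZMod m) :: (seg f a b ++ [f (b : ZMod m)]))[k] = f ((a + k : ℕ) : ZMod m) := by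
    intro k hk
    rw [List.length_cons, List.length_append, List.length_singleton] at hk
    rcases Nat.eq_zero_or_pos k with rfl | hpos
    · simp
    · obtain ⟨j, rfl⟩ : ∃ j, k = j + 1 := ⟨k - 1, by omega⟩
      rw [List.getElem_cons_succ]
      rcases Nat.lt_or_ge j (b - a - 1) with hj | hj
      · rw [List.getElem_append_left (by omega)]
        unfold seg
        rw [List.getElem_map, List.getElem_range]
        congr 2
        omega
      · rw [List.getElem_append_right (by omega)]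
        have e1 : a + (j + 1) = b := by omega
        rw [e1]
        simp
  refine ⟨?_, ?_, ?_, ?_⟩
  · rw [List.isChain_iff_getElem]
    intro k hk
    rw [hget k (by omega), hget (k + 1) hk]
    exact adj_nat hf (a + k)
  · unfold seg
    refine List.Nodup.map_on ?_ List.nodup_range
    intro i hi j hj h
    rw [List.mem_range] at hi hj
    rcases le_total i j with hij | hij
    · have := idx_inj hm hf h (by omega) (by omega)
      omega
    · have := idx_inj hm hf h.symm (by omega) (by omega)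
      omega
  · rw [seg_mem]
    rintro ⟨j, h1, h2, h3⟩
    have := idx_inj hm hf h3.symm (by omega) (by omega)
    omega
  · rw [seg_mem]
    rintro ⟨j, h1, h2, h3⟩
    have := idx_inj hm hf h3 (by omega) (by omega)
    omega

theorem exists_idx (hm : 3 ≤ m) (p : ℕ) {v : V} (hv : v ∈ Set.range f) :
    ∃ j : ℕ, p ≤ j ∧ j < p + m ∧ f (j : ZMod m) = v := by
  have : NeZero m := ⟨by omega⟩
  obtain ⟨x, rfl⟩ := hv
  refine ⟨p + (x - (p : ZMod m)).val, by omega, ?_, ?_⟩
  · have := ZMod.val_lt (x - (p : ZMod m))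
    omega
  · rw [Nat.cast_add, ZMod.natCast_zmod_val, add_sub_cancel]

theorem cast_per (f : ZMod m → V) (j : ℕ) : f ((j + m : ℕ) : ZMod m) = f (j : ZMod m) := by
  rw [Nat.cast_add, ZMod.natCast_self, add_zero]

theorem cyc_rot (hf : IsCyc G f) (p : ZMod m) : IsCyc G fun i => f (p + i) := by
  refine ⟨fun i j h => add_left_cancel (hf.1 h), fun i => ?_⟩
  have := hf.2 (p + i)
  rwa [add_assoc] at this

theorem cyc_ref (hf : IsCyc G f) (p : ZMod m) : IsCyc G fun i => f (p - i) := by
  refine ⟨fun i j h => sub_right_injective (hf.1 h), fun i => ?_⟩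
  have := (hf.2 (p - (i + 1))).symm
  rwa [sub_add_eq_add_sub, add_sub_add_right_eq_sub] at this

theorem cedges_rot (f : ZMod m → V) (p : ZMod m) : cedges (fun i => f (p + i)) = cedges f := by
  ext e
  constructor
  · rintro ⟨i, rfl⟩
    refine ⟨p + i, ?_⟩
    rw [add_assoc]
  · rintro ⟨i, rfl⟩
    refine ⟨i - p, ?_⟩
    change _ = s(f (p + (i - p)), f (p + (i - p + 1)))
    rw [← add_assoc, add_sub_cancel]

theorem cedges_ref (f : ZMod m → V) (p : ZMod m) : cedges (fun i => f (p - i)) = cedges f := by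
  ext e
  constructor
  · rintro ⟨i, rfl⟩
    refine ⟨p - (i + 1), ?_⟩
    rw [sub_add_eq_add_sub, add_sub_add_right_eq_sub]
    exact Sym2.eq_swap
  · rintro ⟨i, rfl⟩
    refine ⟨p - (i + 1), ?_⟩
    change _ = s(f (p - (p - (i + 1))), f (p - (p - (i + 1) + 1)))
    rw [sub_sub_cancel, sub_add_eq_add_sub, add_sub_add_right_eq_sub, sub_sub_cancel]
    exact Sym2.eq_swap

theorem cyc_lift (hf : IsCyc G f) {M : ℕ} (i : Fin (M + 1)) :
    IsCyc (blow G c M) fun j => lf c M i (f j) :=
  ⟨fun _ _ h => hf.1 (lf_inj h).1, fun j => lf_adj (hf.2 j)⟩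

/-- consecutive positions: the edge number `j` -/
theorem edge_mem (f : ZMod m → V) (j : ℕ) :
    s(f (j : ZMod m), f ((j + 1 : ℕ) : ZMod m)) ∈ cedges f := by
  refine ⟨(j : ZMod m), ?_⟩
  rw [Nat.cast_add, Nat.cast_one]

/-- an edge of `f` between the positions `i` and `j` -/
theorem edge_idx (hm : 3 ≤ m) (hf : IsCyc G f) {i j : ℕ} (hij : i < j) (hj : j < i + m)
    (h : s(f (i : ZMod m), f (j : ZMod m)) ∈ cedges f) : j = i + 1 ∨ j + 1 = i + m := by
  obtain ⟨x, hx⟩ := h
  rw [Sym2.eq_iff] at hx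
  rcases hx with ⟨h1, h2⟩ | ⟨h1, h2⟩
  · left
    have h3 := hf.1 h1
    have h4 : f ((i + 1 : ℕ) : ZMod m) = f (j : ZMod m) := by
      rw [h2, Nat.cast_add, Nat.cast_one, h3]
    have := idx_inj hm hf h4 (by omega) (by omega)
    omega
  · right
    have h3 := hf.1 h2
    have h4 : f ((j + 1 : ℕ) : ZMod m) = f ((i + m : ℕ) : ZMod m) := by
      rw [cast_per f, h1, Nat.cast_add, Nat.cast_one, h3]
    have := idx_inj hm hf h4 (by omega) (by omega)
    omega

end H46.OE
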