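import Pool.Agent.H46.OE.Nor
import Pool.Agent.H46.OE.Par
import Pool.Agent.H46.OE.Hea
import Pool.Agent.H46.OE.Fea

/-!
# OE.Two : two ears across the same run (about 170 lines)

`typ`: for an ear `(i, j)`, `1 ≤ i`, `j ≤ m'`, of `g` on `f` with ends at the positions `P, Q ∈ [1, m]` of `f`: the ear consists of hubs (`ear_hub_all`), `j - i ≤ hn c g 0 m' < l` (`hn_eq_len`, `hn_le`, `dc_small`). `ear_hub` with `p = min P Q`, `q = max P Q` and `γ = seg g i j` (or reversed) gives: `rn c f p q = 1` and `q - p + (j - i) = 2 l` (then `P + Q + i + j` is even),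
or `rn c f q (p + m) = 1` and `p + m - q + (j - i) = 2 l` (then it is odd, as `m` is odd).
`two_ears`: `exists_ear` (two common vertices: `Same` and a run of `g`, `l ≥ 2`... if `l = 2` a run has only one inner vertex: use the ends: the run of `g` through it is a run of `f` by `run_match`, so both its ends are common) gives an ear `(i, j)` of `g` on `f`; positions `p < q < p + m` of its ends on `f`; `ear_hub`: one of the arcs, from `P₀` to `Q₀` (naturals, `P₀ < Q₀ < P₀ + m`),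
has `rn = 1`, `Q₀ - P₀ + (j - i) = 2 l`. Let `a ∈ [P₀, Q₀)` be the run start (`exists_of_rn`). `normal` with `a`: `f' t = f (a + t)`, the ends of the ear have the positions `P₀ + m - a` and `Q₀ - a` on `f'` (both in `[1, m]`), their sum plus `j' - i'` is `2 l + m` mod `2`, odd. So the ear `(i', j')` satisfies `OddE` (positions in `[1, m]` are unique by `idx_inj`). If all other ears of
`g'` on `f'` had even sums then `par` would give an even sum for `(i', j')`. So there is an ear `(i₂, j₂) ≠ (i', j')`, `1 ≤ i₂`, `j₂ ≤ m'` with an odd sum.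
-/

namespace H46.OE

open Pool.Agent.H3.LC H46.CY H46.CZ

variable {V : Type} {L : Finset ℕ} {G : SimpleGraph V} {c : V → ℕ} {l k d m m' : ℕ}
  {f : ZMod m → V} {g : ZMod m' → V}

/-- the arcs between the ends of an ear -/
private theorem typ0 (hV : Valid L G c) (hl : 2 ≤ l) (hev : ∀ x ∈ L, Even x → x = 2 * l)
    (hmax : ∀ x ∈ L, x ≤ k) (hk : k < (d + 1) * l) (hf : DC G c d f) (hg : DC G c d g)
    (hmo : Odd m) (hs : Same c f g) {i j p q : ℕ} (he : CEar f g i j) (hpq : p < q)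
    (hq : q < p + m)
    (hends : (f (p : ZMod m) = g (i : ZMod m') ∧ f (q : ZMod m) = g (j : ZMod m')) ∨
      (f (p : ZMod m) = g (j : ZMod m') ∧ f (q : ZMod m) = g (i : ZMod m'))) :
    (rn c f p q = 1 ∧ q - p + (j - i) = 2 * l) ∨
      (rn c f q (p + m) = 1 ∧ p + m - q + (j - i) = 2 * l) := by
  have hOE := oe_self hV hev hmax
  have hhub := ear_hub_all hV hl hev hmax hf hg hs he
  have hi0 : c (g (i : ZMod m')) = 0 := hhub i le_rfl he.lt.le
  have hj0 : c (g (j : ZMod m')) = 0 := hhub j he.lt.le le_rfl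
  have hlen : (seg g i j).length + 1 = j - i := seg_length he.lt
  have hsmall : j - i < l := by
    have h1 := (hn_eq_len (c := c) (f := g) hhub).1
    have h2 := hn_le (c := c) (f := g) he.lt.le he.le.le
    have h3 := dc_small hOE hl hk hg
    omega
  have hout : ∀ v ∈ seg g i j, v ∉ Set.range f := by
    intro v hv
    obtain ⟨t, h1, h2, rfl⟩ := seg_mem.1 hv
    exact he.out t h1 h2
  have hpi : PI G (g (i : ZMod m')) (g (j : ZMod m')) (seg g i j) :=
    seg_pi hg.three hg.cyc he.lt he.le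
  have hedge : (seg g i j).length = 0 → s(g (i : ZMod m'), g (j : ZMod m')) ∉ cedges f := by
    intro h1
    have h2 : j = i + 1 := by
      have := he.lt
      omega
    rw [h2]
    exact he.edge
  rcases hends with ⟨h1, h2⟩ | ⟨h1, h2⟩
  · rw [← hlen]
    refine ear_hub hOE hl hk hf hmo hpq hq (by rw [h1]; exact hi0) (by rw [h2]; exact hj0)
      (by rw [h1, h2]; exact hpi) hout (by rw [hlen]; exact hsmall) ?_
    intro h3
    rw [h1, h2]
    exact hedge (by rw [h3]; rfl)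
  · have h4 : (seg g i j).reverse.length + 1 = j - i := by
      rw [List.length_reverse]
      exact hlen
    rw [← h4]
    refine ear_hub hOE hl hk hf hmo hpq hq (by rw [h1]; exact hj0) (by rw [h2]; exact hi0)
      (by rw [h1, h2]; exact pi_rev hpi) (fun v hv => hout v (List.mem_reverse.1 hv))
      (by rw [h4]; exact hsmall) ?_
    intro h3
    rw [h1, h2, Sym2.eq_swap]
    exact hedge (by rw [← List.length_reverse, h3]; rfl)

theorem typ (hV : Valid L G c) (hl : 2 ≤ l) (hev : ∀ x ∈ L, Even x → x = 2 * l)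
    (hmax : ∀ x ∈ L, x ≤ k) (hk : k < (d + 1) * l) (hf : DC G c d f) (hg : DC G c d g)
    (hmo : Odd m) (hs : Same c f g) {i j P Q : ℕ} (he : CEar f g i j) (hi : 1 ≤ i) (hj : j ≤ m')
    (hP : 1 ≤ P) (hPm : P ≤ m) (hQ : 1 ≤ Q) (hQm : Q ≤ m) (hPi : f (P : ZMod m) = g (i : ZMod m'))
    (hQj : f (Q : ZMod m) = g (j : ZMod m')) :
    (Even (P + Q + i + j) ∧ rn c f (min P Q) (max P Q) = 1 ∧
        max P Q - min P Q + (j - i) = 2 * l) ∨
      (Odd (P + Q + i + j) ∧ rn c f (max P Q) (min P Q + m) = 1 ∧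
        min P Q + m - max P Q + (j - i) = 2 * l) := by
  have hne : P ≠ Q := by
    rintro rfl
    have h1 := idx_inj hg.three hg.cyc (hPi.symm.trans hQj) he.lt.le he.le
    exact absurd h1 he.lt.ne
  have hpq : min P Q < max P Q := by
    rw [min_lt_max]
    exact hne
  have hsum := min_add_max P Q
  have hmin : 1 ≤ min P Q := le_min hP hQ
  have hmax' : max P Q ≤ m := max_le hPm hQm
  have hlt := he.lt
  have h := typ0 hV hl hev hmax hk hf hg hmo hs he hpq (by omega) (by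
    rcases le_total P Q with h1 | h1
    · left
      rw [min_eq_left h1, max_eq_right h1]
      exact ⟨hPi, hQj⟩
    · right
      rw [min_eq_right h1, max_eq_left h1]
      exact ⟨hQj, hPi⟩)
  rcases h with ⟨h1, h2⟩ | ⟨h1, h2⟩
  · left
    refine ⟨?_, h1, h2⟩
    rw [Nat.even_iff]
    omega
  · right
    refine ⟨?_, h1, h2⟩
    rw [Nat.odd_iff] at hmo ⊢
    omega

/-- the positions in `[1, m]` are unique -/
private theorem pos_unique (hf : DC G c d f) {P Q : ℕ} (hP : 1 ≤ P) (hPm : P ≤ m) (hQ : 1 ≤ Q)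
    (hQm : Q ≤ m) (h : f (P : ZMod m) = f (Q : ZMod m)) : P = Q := by
  rcases le_total P Q with h1 | h1
  · exact idx_inj hf.three hf.cyc h h1 (by omega)
  · exact (idx_inj hf.three hf.cyc h.symm h1 (by omega)).symm

private theorem oddE_of (hf : DC G c d f) {i j P Q : ℕ} (hP : 1 ≤ P) (hPm : P ≤ m) (hQ : 1 ≤ Q)
    (hQm : Q ≤ m) (h1 : f (P : ZMod m) = g (i : ZMod m')) (h2 : f (Q : ZMod m) = g (j : ZMod m'))
    (h : Odd (P + Q + i + j)) : OddE f g i j := by
  intro P' Q' hP' hPm' hQ' hQm' h1' h2'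
  rw [pos_unique hf hP' hPm' hP hPm (h1'.trans h1.symm), pos_unique hf hQ' hQm' hQ hQm (h2'.trans h2.symm)]
  exact h

/-- there is an ear -/
private theorem has_ear (hd : 2 ≤ d) (hg : DC G c d g) (hs : Same c f g)
    (hne : ¬ cedges g ⊆ cedges f) : ∃ i j : ℕ, CEar f g i j := by
  have h1 : 1 < ((Finset.Ico 0 m').filter fun j : ℕ =>
      c (g (j : ZMod m')) = 0 ∧ c (g ((j + 1 : ℕ) : ZMod m')) ≠ 0).card := by
    have h2 := hg.num
    unfold rn at h2
    omega
  obtain ⟨a, ha, b, hb, hab⟩ := Finset.one_lt_card.1 h1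
  rw [Finset.mem_filter, Finset.mem_Ico] at ha hb
  obtain ⟨e, he, hef⟩ := Set.not_subset.1 hne
  have hfa : g ((a + 1 : ℕ) : ZMod m') ∈ Set.range f := (hs _ ha.2.2).2 ⟨_, rfl⟩
  have hfb : g ((b + 1 : ℕ) : ZMod m') ∈ Set.range f := (hs _ hb.2.2).2 ⟨_, rfl⟩
  rcases lt_or_gt_of_ne hab with h | h
  · obtain ⟨i, j, _, h3, _⟩ := exists_ear hg.three hg.cyc (a := a + 1) (b := b + 1) (by omega)
      (by omega) hfa hfb he hef
    exact ⟨i, j, h3⟩
  · obtain ⟨i, j, _, h3, _⟩ := exists_ear hg.three hg.cyc (a := b + 1) (b := a + 1) (by omega)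
      (by omega) hfb hfa he hef
    exact ⟨i, j, h3⟩

/-- the good arc -/
private theorem ear_arc (hV : Valid L G c) (hl : 2 ≤ l) (hev : ∀ x ∈ L, Even x → x = 2 * l)
    (hmax : ∀ x ∈ L, x ≤ k) (hk : k < (d + 1) * l) (hf : DC G c d f) (hg : DC G c d g)
    (hmo : Odd m) (hs : Same c f g) {i j : ℕ} (he : CEar f g i j) :
    ∃ P Q : ℕ, P < Q ∧ Q < P + m ∧ rn c f P Q = 1 ∧ Q - P + (j - i) = 2 * l ∧
      ((f (P : ZMod m) = g (i : ZMod m') ∧ f (Q : ZMod m) = g (j : ZMod m')) ∨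
        (f (P : ZMod m) = g (j : ZMod m') ∧ f (Q : ZMod m) = g (i : ZMod m'))) := by
  obtain ⟨p, -, hpm, hp⟩ := exists_idx (f := f) hf.three 0 he.fi
  obtain ⟨q, hq1, hq2, hq⟩ := exists_idx (f := f) hf.three p he.fj
  have hne : p ≠ q := by
    rintro rfl
    have h1 := idx_inj hg.three hg.cyc (hp.symm.trans hq) he.lt.le he.le
    exact absurd h1 he.lt.ne
  have hpq : p < q := lt_of_le_of_ne hq1 hne
  rcases typ0 hV hl hev hmax hk hf hg hmo hs he hpq hq2 (Or.inl ⟨hp, hq⟩) with ⟨h1, h2⟩ | ⟨h1, h2⟩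
  · exact ⟨p, q, hpq, hq2, h1, h2, Or.inl ⟨hp, hq⟩⟩
  · refine ⟨q, p + m, hq2, by omega, h1, h2, Or.inr ⟨hq, ?_⟩⟩
    rw [cast_per f]
    exact hp

theorem two_ears (hV : Valid L G c) (hl : 2 ≤ l) (hd : 2 ≤ d)
    (hev : ∀ x ∈ L, Even x → x = 2 * l) (hmax : ∀ x ∈ L, x ≤ k) (hk : k < (d + 1) * l)
    (hf : DC G c d f) (hg : DC G c d g) (hmo : Odd m) (hmo' : Odd m') (hs : Same c f g)
    (hne : ¬ cedges g ⊆ cedges f) :
    ∃ (f' : ZMod m → V) (g' : ZMod m' → V), DC G c d f' ∧ DC G c d g' ∧ Same c f' g' ∧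
      c (f' 0) = 0 ∧ c (f' 1) ≠ 0 ∧ (∀ t : ℕ, t ≤ l → f' (t : ZMod m) = g' (t : ZMod m')) ∧
      ∃ i₁ j₁ i₂ j₂ : ℕ, CEar f' g' i₁ j₁ ∧ 1 ≤ i₁ ∧ j₁ ≤ m' ∧ OddE f' g' i₁ j₁ ∧
        CEar f' g' i₂ j₂ ∧ 1 ≤ i₂ ∧ j₂ ≤ m' ∧ OddE f' g' i₂ j₂ ∧ (i₁, j₁) ≠ (i₂, j₂) := by
  obtain ⟨i, j, he⟩ := has_ear hd hg hs hne
  obtain ⟨P, Q, hPQ, hQP, hr, hsum, hends⟩ := ear_arc hV hl hev hmax hk hf hg hmo hs he
  obtain ⟨a, haP, haQ, ha0, ha1⟩ := exists_of_rn hr.ge
  obtain ⟨f', g', hf', hg', -, -, hft, hfg, hs', i', j', he', hi', hj', hji, hends'⟩ :=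
    normal hV hl hev hmax hf hg hs he ha0 ha1
  have hlt := he.lt
  have hlt' := he'.lt
  have hA : f' ((P + m - a : ℕ) : ZMod m) = f (P : ZMod m) := by
    rw [hft]
    have h1 : a + (P + m - a) = P + m := by omega
    rw [h1, cast_per f]
  have hB : f' ((Q - a : ℕ) : ZMod m) = f (Q : ZMod m) := by
    rw [hft]
    have h1 : a + (Q - a) = Q := by omega
    rw [h1]
  have hodd : Odd ((P + m - a) + (Q - a) + i' + j') := by
    rw [Nat.odd_iff] at hmo ⊢
    omega
  -- the positions of the ends on `f'`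
  obtain ⟨A, B, hA1, hAm, hB1, hBm, hAi, hBj, hAB⟩ : ∃ A B : ℕ, 1 ≤ A ∧ A ≤ m ∧ 1 ≤ B ∧ B ≤ m ∧
      f' (A : ZMod m) = g' (i' : ZMod m') ∧ f' (B : ZMod m) = g' (j' : ZMod m') ∧
        Odd (A + B + i' + j') := by
    have hcomm : (Q - a) + (P + m - a) + i' + j' = (P + m - a) + (Q - a) + i' + j' := by omega
    rcases hends with ⟨h1, h2⟩ | ⟨h1, h2⟩ <;> rcases hends' with ⟨h3, h4⟩ | ⟨h3, h4⟩
    · exact ⟨P + m - a, Q - a, by omega, by omega, by omega, by omega, by rw [hA, h1, h3],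
        by rw [hB, h2, h4], hodd⟩
    · exact ⟨Q - a, P + m - a, by omega, by omega, by omega, by omega, by rw [hB, h2, h3],
        by rw [hA, h1, h4], by rw [hcomm]; exact hodd⟩
    · exact ⟨Q - a, P + m - a, by omega, by omega, by omega, by omega, by rw [hB, h2, h3],
        by rw [hA, h1, h4], by rw [hcomm]; exact hodd⟩
    · exact ⟨P + m - a, Q - a, by omega, by omega, by omega, by omega, by rw [hA, h1, h3],
        by rw [hB, h2, h4], hodd⟩
  have hO : OddE f' g' i' j' := oddE_of hf' hA1 hAm hB1 hBm hAi hBj hAB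
  have h0 : f' 0 = g' 0 := by
    have h1 := hfg 0 (Nat.zero_le l)
    rwa [Nat.cast_zero, Nat.cast_zero] at h1
  have h1 : f' 1 = g' 1 := by
    have h2 := hfg 1 (by omega)
    rwa [Nat.cast_one, Nat.cast_one] at h2
  refine ⟨f', g', hf', hg', hs', ?_, ?_, hfg, i', j', ?_⟩
  · have h2 := hft 0
    rw [Nat.cast_zero, Nat.add_zero] at h2
    rw [h2]
    exact ha0
  · have h2 := hft 1
    rw [Nat.cast_one] at h2
    rw [h2]
    exact ha1
  · by_contra hcon
    push Not at hcon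
    have hpar := par hf'.three hg'.three hf'.cyc hg'.cyc hmo hmo' h0 h1 hi' hj' he'
      (fun i₂ j₂ P₂ Q₂ he₂ hi₂ hj₂ hne₂ hP₂ hPm₂ hQ₂ hQm₂ hfP hfQ => by
        by_contra hE
        rw [Nat.not_even_iff_odd] at hE
        exact hne₂ (hcon i₂ j₂ he' hi' hj' hO he₂ hi₂ hj₂
          (oddE_of hf' hP₂ hPm₂ hQ₂ hQm₂ hfP hfQ hE)).symm) hA1 hAm hB1 hBm hAi hBj
    rw [← Nat.not_even_iff_odd] at hAB
    exact hAB hpar

end H46.OE
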