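import Pool.Agent.H46.OE.Rns
import Pool.Agent.H46.OE.Cmb
import Pool.Agent.H46.OE.Kcl
import Pool.Agent.H46.OE.Inj
import Pool.Agent.H46.OE.Dcy

/-!
# OE.Upp : upper bounds for the number of cycles of a template (about 150 lines)

`R` = the subtype of the members of `Runs G c` (finite). For `E ∈ dcyc d G c` choose `m, f` with `DC G c d f`, `cedges f = E` (`dcyc_dc`) and let `Φ E` be the finset of the runs contained in `range f`: `d` elements (`dc_runs`). `Φ` is injective on `dcyc d G c`: if `Φ E = Φ E'` then the non-hubs agree (`dc_cover`; members of runs are not hubs), `Same`, `cyc_eq`.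
`upp_two`: the number of 2-element subsets of a set with `ν` elements is `ν (ν - 1) / 2 ≤ ν ^ 2 / 2` (`Finset.card_powersetCard`), `runs_ncard`. `upp_three`: `d ≥ 3`: `m = l d + hn > 2 l` (`dc_len`), so `m` is odd (`OE.even`, `oe_self`); `exists_cl`, `dc_inj`, `dc_cls`, `cls_sub` (twice, with the roles changed) give the hypotheses of `family_bound` for the image of `dcyc d G c` under `Φ`.
-/

namespace H46.OE

open Pool.Agent.H3.LC H46.CY H46.CZ

variable {V : Type} {L : Finset ℕ} {G : SimpleGraph V} {c : V → ℕ} {l k d : ℕ}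

/-- the range of a template cycle -/
private theorem upp_choose (hV : Valid L G c) (hl : 2 ≤ l) (hd : 2 ≤ d)
    (hev : ∀ x ∈ L, Even x → x = 2 * l) (hmax : ∀ x ∈ L, x ≤ k) (hk : k < (d + 1) * l) :
    ∃ A : Set (Sym2 V) → Set V, ∀ E ∈ dcyc d G c, ∃ (m : ℕ) (f : ZMod m → V),
      DC G c d f ∧ cedges f = E ∧ A E = Set.range f := by
  classical
  have h : ∀ E : Set (Sym2 V), ∃ A : Set V, E ∈ dcyc d G c → ∃ (m : ℕ) (f : ZMod m → V),
      DC G c d f ∧ cedges f = E ∧ A = Set.range f := by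
    intro E
    by_cases hE : E ∈ dcyc d G c
    · obtain ⟨m, f, h1, h2⟩ := dcyc_dc hV hl hd hev hmax hk hE
      exact ⟨Set.range f, fun _ => ⟨m, f, h1, h2, rfl⟩⟩
    · exact ⟨∅, fun h => absurd h hE⟩
  choose A hA using h
  exact ⟨A, fun E hE => hA E hE⟩

/-- the runs contained in a set -/
private noncomputable def rin (G : SimpleGraph V) (c : V → ℕ) [Fintype (Runs G c)] (A : Set V) :
    Finset (Runs G c) :=
  letI : DecidablePred fun r : Runs G c => (r : Set V) ⊆ A := Classical.decPred _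
  Finset.univ.filter fun r : Runs G c => (r : Set V) ⊆ A

private theorem mem_rin [Fintype (Runs G c)] {A : Set V} {r : Runs G c} :
    r ∈ rin G c A ↔ (r : Set V) ⊆ A := by
  unfold rin
  simp

private theorem rin_card [Fintype (Runs G c)] (A : Set V) :
    (rin G c A).card = {S | S ∈ Runs G c ∧ S ⊆ A}.ncard := by
  classical
  have h : {S | S ∈ Runs G c ∧ S ⊆ A} = ((rin G c A).map (Function.Embedding.subtype _) :
      Finset (Set V)) := by
    ext S
    simp only [Set.mem_setOf_eq, Finset.coe_map, Function.Embedding.subtype_apply, Set.mem_image,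
      Finset.mem_coe, mem_rin, Subtype.exists, exists_and_right, exists_eq_right]
    constructor
    · rintro ⟨h1, h2⟩
      exact ⟨h1, h2⟩
    · rintro ⟨h1, h2⟩
      exact ⟨h1, h2⟩
  rw [h, Set.ncard_coe_finset, Finset.card_map]

/-- the map from the cycles to the sets of runs is injective -/
private theorem upp_inj [Fintype (Runs G c)] (hV : Valid L G c) (hl : 2 ≤ l) (hd : 2 ≤ d)
    (hev : ∀ x ∈ L, Even x → x = 2 * l) (hmax : ∀ x ∈ L, x ≤ k) (hk : k < (d + 1) * l)
    {A : Set (Sym2 V) → Set V} (hA : ∀ E ∈ dcyc d G c, ∃ (m : ℕ) (f : ZMod m → V),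
      DC G c d f ∧ cedges f = E ∧ A E = Set.range f) :
    Set.InjOn (fun E => rin G c (A E)) (dcyc d G c) := by
  intro E hE E' hE' h
  obtain ⟨m, f, h1, h2, h3⟩ := hA E hE
  obtain ⟨m', g, g1, g2, g3⟩ := hA E' hE'
  rw [← h2, ← g2]
  apply cyc_eq hV hl hd hev hmax hk h1 g1
  have key : ∀ r : Runs G c, (r : Set V) ⊆ A E ↔ (r : Set V) ⊆ A E' := by
    intro r
    rw [← mem_rin, ← mem_rin]
    have h' : rin G c (A E) = rin G c (A E') := h
    rw [h']
  intro v hcv
  constructor
  · intro hv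
    obtain ⟨S, hS, hSf, hvS⟩ := dc_cover hV hl hev hmax h1 hv hcv
    rw [← h3] at hSf
    have := (key ⟨S, hS⟩).1 hSf
    rw [g3] at this
    exact this hvS
  · intro hv
    obtain ⟨S, hS, hSf, hvS⟩ := dc_cover hV hl hev hmax g1 hv hcv
    rw [← g3] at hSf
    have := (key ⟨S, hS⟩).2 hSf
    rw [h3] at this
    exact this hvS

theorem upp_two [Finite V] (hV : Valid L G c) (hl : 2 ≤ l) (hev : ∀ x ∈ L, Even x → x = 2 * l)
    (hmax : ∀ x ∈ L, x ≤ k) (hk : k < 3 * l) :
    2 * (dcyc 2 G c).ncard * (l - 1) ^ 2 ≤ {v | c v ≠ 0}.ncard ^ 2 := by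
  classical
  haveI : Fintype (Runs G c) := Fintype.ofFinite _
  obtain ⟨A, hA⟩ := upp_choose (d := 2) hV hl le_rfl hev hmax hk
  have hinj := upp_inj (d := 2) hV hl le_rfl hev hmax hk hA
  have hfin : (dcyc 2 G c).Finite := Set.toFinite _
  have h1 : (dcyc 2 G c).ncard ≤ (Fintype.card (Runs G c)).choose 2 := by
    rw [← Finset.card_univ, ← Finset.card_powersetCard, Set.ncard_eq_toFinset_card _ hfin]
    apply Finset.card_le_card_of_injOn (fun E => rin G c (A E))
    · intro E hE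
      rw [Finset.mem_coe, Set.Finite.mem_toFinset] at hE
      rw [Finset.mem_coe, Finset.mem_powersetCard]
      obtain ⟨m, f, e1, e2, e3⟩ := hA E hE
      refine ⟨Finset.subset_univ _, ?_⟩
      rw [rin_card, e3]
      exact dc_runs hV hl hev hmax e1
    · intro E hE E' hE' h
      rw [Finset.mem_coe, Set.Finite.mem_toFinset] at hE hE'
      exact hinj hE hE' h
  have h2 := runs_ncard hV hl hev
  have h3 : (Runs G c).ncard = Fintype.card (Runs G c) := by
    rw [← Nat.card_eq_fintype_card, Nat.card_coe_set_eq]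
  rw [h3] at h2
  have h4 : 2 * (Fintype.card (Runs G c)).choose 2 ≤ (Fintype.card (Runs G c)) ^ 2 := by
    rw [Nat.choose_two_right]
    have := Nat.mul_div_le (Fintype.card (Runs G c) * (Fintype.card (Runs G c) - 1)) 2
    calc 2 * (Fintype.card (Runs G c) * (Fintype.card (Runs G c) - 1) / 2)
        ≤ Fintype.card (Runs G c) * (Fintype.card (Runs G c) - 1) := this
      _ ≤ Fintype.card (Runs G c) * Fintype.card (Runs G c) :=
          Nat.mul_le_mul_left _ (Nat.sub_le _ _)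
      _ = _ := (sq _).symm
  calc 2 * (dcyc 2 G c).ncard * (l - 1) ^ 2
      ≤ 2 * (Fintype.card (Runs G c)).choose 2 * (l - 1) ^ 2 :=
        Nat.mul_le_mul_right _ (Nat.mul_le_mul_left _ h1)
    _ ≤ (Fintype.card (Runs G c)) ^ 2 * (l - 1) ^ 2 := Nat.mul_le_mul_right _ h4
    _ = (Fintype.card (Runs G c) * (l - 1)) ^ 2 := (mul_pow _ _ _).symm
    _ ≤ _ := Nat.pow_le_pow_left h2 2

theorem upp_three [Finite V] (hV : Valid L G c) (hl : 2 ≤ l) (hd : 3 ≤ d)
    (hev : ∀ x ∈ L, Even x → x = 2 * l) (hmax : ∀ x ∈ L, x ≤ k) (hk : k < (d + 1) * l) :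
    (dcyc d G c).ncard * (d * (l - 1)) ^ d ≤ {v | c v ≠ 0}.ncard ^ d := by
  classical
  rcases Set.eq_empty_or_nonempty (dcyc d G c) with h0 | ⟨E₀, hE₀⟩
  · rw [h0]; simp
  have hd2 : 2 ≤ d := by omega
  haveI : Nonempty V := by
    obtain ⟨m, f, -, -⟩ := dcyc_dc hV hl hd2 hev hmax hk hE₀
    exact ⟨f 0⟩
  haveI : Fintype (Runs G c) := Fintype.ofFinite _
  obtain ⟨A, hA⟩ := upp_choose hV hl hd2 hev hmax hk
  have hinj := upp_inj hV hl hd2 hev hmax hk hA
  have hfin : (dcyc d G c).Finite := Set.toFinite _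
  have hS := oe_self hV hev hmax
  obtain ⟨cl, hcl⟩ := exists_cl hV hl hev
  have hlen : ∀ {m : ℕ} {f : ZMod m → V}, DC G c d f → 2 * l < m ∧ Odd m := by
    intro m f hf
    have h1 := dc_len hS hl hf
    have h2 : l * 3 ≤ l * d := Nat.mul_le_mul_left _ hd
    have h3 : 2 * l < m := by omega
    refine ⟨h3, ?_⟩
    rcases Nat.even_or_odd m with h4 | h4
    · have := hS.even m f hf.three hf.cyc h4
      omega
    · exact h4
  have himg : ∀ {m : ℕ} {f : ZMod m → V}, DC G c d f →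
      ((rin G c (Set.range f)).image (fun r : Runs G c => cl (r : Set V)) : Set (Sym2 V)) =
        cls c l f := by
    intro m f hf
    rw [← dc_cls hV hl hev hmax hf hcl]
    ext e
    simp only [Finset.coe_image, Set.mem_image, Finset.mem_coe, mem_rin, Subtype.exists,
      Set.mem_setOf_eq]
    constructor
    · rintro ⟨S, h1, h2, h3⟩
      exact ⟨S, ⟨h1, h2⟩, h3⟩
    · rintro ⟨S, ⟨h1, h2⟩, h3⟩
      exact ⟨S, h1, h2, h3⟩
  set 𝓔 : Finset (Finset (Runs G c)) := hfin.toFinset.image (fun E => rin G c (A E)) with h𝓔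
  have hcardE : 𝓔.card = (dcyc d G c).ncard := by
    rw [Set.ncard_eq_toFinset_card _ hfin, h𝓔]
    apply Finset.card_image_of_injOn
    intro E hE E' hE' h
    rw [Finset.mem_coe, Set.Finite.mem_toFinset] at hE hE'
    exact hinj hE hE' h
  have hmem : ∀ F ∈ 𝓔, ∃ (m : ℕ) (f : ZMod m → V), DC G c d f ∧ F = rin G c (Set.range f) := by
    intro F hF
    rw [h𝓔, Finset.mem_image] at hF
    obtain ⟨E, hE, rfl⟩ := hF
    rw [Set.Finite.mem_toFinset] at hE
    obtain ⟨m, f, e1, e2, e3⟩ := hA E hE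
    exact ⟨m, f, e1, by rw [e3]⟩
  have hb := family_bound (fun r : Runs G c => cl (r : Set V)) (d := d) (by omega) 𝓔 ?_ ?_ ?_
  · have h2 := runs_ncard hV hl hev
    have h3 : (Runs G c).ncard = Fintype.card (Runs G c) := by
      rw [← Nat.card_eq_fintype_card, Nat.card_coe_set_eq]
    rw [h3] at h2
    rw [hcardE] at hb
    calc (dcyc d G c).ncard * (d * (l - 1)) ^ d
        = (dcyc d G c).ncard * d ^ d * (l - 1) ^ d := by rw [mul_pow, mul_assoc]
      _ ≤ Fintype.card (Runs G c) ^ d * (l - 1) ^ d := Nat.mul_le_mul_right _ hb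
      _ = (Fintype.card (Runs G c) * (l - 1)) ^ d := (mul_pow _ _ _).symm
      _ ≤ _ := Nat.pow_le_pow_left h2 d
  · intro F hF
    obtain ⟨m, f, e1, rfl⟩ := hmem F hF
    rw [rin_card]
    exact dc_runs hV hl hev hmax e1
  · intro F hF
    obtain ⟨m, f, e1, rfl⟩ := hmem F hF
    have h := dc_inj hV hl hev hmax e1 (hlen e1).1 hcl
    intro r hr r' hr' hrr
    rw [Finset.mem_coe, mem_rin] at hr hr'
    exact Subtype.ext (h ⟨r.2, hr⟩ ⟨r'.2, hr'⟩ hrr)
  · rintro F hF F' hF' ⟨r, hr, r', hr', hrr⟩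
    obtain ⟨m, f, e1, rfl⟩ := hmem F hF
    obtain ⟨m', g, g1, rfl⟩ := hmem F' hF'
    rw [← Finset.coe_inj, himg e1, himg g1]
    have hf' : cl (r : Set V) ∈ cls c l f := by
      rw [← himg e1, Finset.mem_coe, Finset.mem_image]
      exact ⟨r, hr, rfl⟩
    have hg' : cl (r : Set V) ∈ cls c l g := by
      rw [← himg g1, Finset.mem_coe, Finset.mem_image]
      exact ⟨r', hr', hrr.symm⟩
    apply Set.Subset.antisymm
    · exact cls_sub hV hl hev hmax hk g1 e1 (hlen g1).2 hg' hf'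
    · exact cls_sub hV hl hev hmax hk e1 g1 (hlen e1).2 hf' hg'

end H46.OE
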